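import Pool.Agent.Work.MP_e97a4d_nt.UE.GDefs

/-!
# UE/Above: primes of an extension and primes dividing an integer
-/

set_option autoImplicit false

noncomputable section

namespace Pool.Agent.Work.MP_e97a4d_nt.UE

open NumberField IsDedekindDomain Filter

/-- Outside a finite set the primes of an extension are over primes outside `S`. -/
theorem exists_above {F F' : Type} [Field F] [NumberField F] [Field F'] [NumberField F']
    (ι : F →+* F') (S : Finset (HeightOneSpectrum (𝓞 F))) :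
    ∃ S' : Finset (HeightOneSpectrum (𝓞 F')), ∀ P ∉ S', ∃ p ∉ S,
      ∀ x : F, x ∈ (p.valuation F).valuationSubring → ι x ∈ (P.valuation F').valuationSubring := by
  classical
  let _ : Algebra F F' := ι.toAlgebra
  -- a nonzero element of all primes in `S`
  obtain ⟨a, ha0, ha⟩ : ∃ a : 𝓞 F, a ≠ 0 ∧ ∀ p ∈ S, a ∈ p.asIdeal := by
    have h1 : ∀ p : HeightOneSpectrum (𝓞 F), ∃ a ∈ p.asIdeal, a ≠ 0 := fun p =>
      Submodule.exists_mem_ne_zero_of_ne_bot p.ne_bot
    choose a ha ha0 using h1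
    refine ⟨∏ p ∈ S, a p, Finset.prod_ne_zero_iff.2 fun p _ => ha0 p, fun p hp => ?_⟩
    exact p.asIdeal.mem_of_dvd (Finset.dvd_prod_of_mem a hp) (ha p)
  set b : 𝓞 F' := algebraMap (𝓞 F) (𝓞 F') a with hb
  have hb0 : b ≠ 0 := by
    rw [hb]
    exact fun h => ha0 ((FaithfulSMul.algebraMap_injective (𝓞 F) (𝓞 F')) (by rw [h, map_zero]))
  have hfin : {P : HeightOneSpectrum (𝓞 F') | P.asIdeal ∣ Ideal.span {b}}.Finite :=
    Ideal.finite_factors (by rw [Ne, Ideal.zero_eq_bot, Ideal.span_singleton_eq_bot]; exact hb0)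
  refine ⟨hfin.toFinset, fun P hP => ?_⟩
  have hbP : b ∉ P.asIdeal := by
    intro h
    apply hP
    rw [Set.Finite.mem_toFinset]
    exact Ideal.dvd_span_singleton.2 h
  have hne : P.asIdeal.under (𝓞 F) ≠ ⊥ := by
    intro h
    have h2 := P.ne_bot
    exact h2 (Ideal.eq_bot_of_comap_eq_bot h)
  let p : HeightOneSpectrum (𝓞 F) := ⟨P.asIdeal.under (𝓞 F), inferInstance, hne⟩
  have : P.asIdeal.LiesOver p.asIdeal := ⟨rfl⟩
  refine ⟨p, fun hp => hbP (ha p hp), fun x hx => ?_⟩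
  rw [Valuation.mem_valuationSubring_iff] at hx ⊢
  have h3 := HeightOneSpectrum.valuation_liesOver F' p P x
  have h4 : ι x = algebraMap F F' x := rfl
  rw [h4, ← h3]
  exact pow_le_one₀ zero_le hx

/-- Only finitely many primes divide a nonzero integer. -/
theorem exists_bad (F : Type) [Field F] [NumberField F] (S : Finset (HeightOneSpectrum (𝓞 F)))
    (N : ℕ) (hN : N ≠ 0) :
    ∃ S' : Finset (HeightOneSpectrum (𝓞 F)), S ⊆ S' ∧
      ∀ p ∉ S', (N : F)⁻¹ ∈ (p.valuation F).valuationSubring := by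
  classical
  have hN0 : ((N : ℕ) : 𝓞 F) ≠ 0 := Nat.cast_ne_zero.2 hN
  have hfin : {P : HeightOneSpectrum (𝓞 F) | P.asIdeal ∣ Ideal.span {((N : ℕ) : 𝓞 F)}}.Finite :=
    Ideal.finite_factors (by rw [Ne, Ideal.zero_eq_bot, Ideal.span_singleton_eq_bot]; exact hN0)
  refine ⟨S ∪ hfin.toFinset, Finset.subset_union_left, fun p hp => ?_⟩
  have hNp : ((N : ℕ) : 𝓞 F) ∉ p.asIdeal := by
    intro h
    apply hp
    rw [Finset.mem_union, Set.Finite.mem_toFinset]
    exact Or.inr (Ideal.dvd_span_singleton.2 h)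
  rw [Valuation.mem_valuationSubring_iff, map_inv₀]
  have h1 : p.valuation F (algebraMap (𝓞 F) F ((N : ℕ) : 𝓞 F)) = 1 := by
    apply le_antisymm (HeightOneSpectrum.valuation_le_one p _)
    by_contra h2
    exact hNp ((HeightOneSpectrum.valuation_lt_one_iff_mem p _).1 (not_le.1 h2))
  rw [map_natCast] at h1
  rw [h1, inv_one]

theorem natCast_inv_mem_of_dvd {K : Type} [Field K] (O : ValuationSubring K) {a b : ℕ} (h : a ∣ b)
    (hb : (b : K) ≠ 0) (hb' : (b : K)⁻¹ ∈ O) : (a : K)⁻¹ ∈ O := by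
  obtain ⟨c, rfl⟩ := h
  have ha : (a : K) ≠ 0 := by
    intro h1
    apply hb
    rw [Nat.cast_mul, h1, zero_mul]
  have hc : (c : K) ≠ 0 := by
    intro h1
    apply hb
    rw [Nat.cast_mul, h1, mul_zero]
  have h2 : (a : K)⁻¹ = (c : K) * ((a * c : ℕ) : K)⁻¹ := by
    rw [Nat.cast_mul, mul_inv]
    field_simp
  rw [h2]
  exact mul_mem (natCast_mem O c) hb'

theorem gMap_mem {T : Type} (𝒰 : Ultrafilter T) {K K' : Type} [Field K] [Field K'] (ι : K →+* K')
    (O : T → ValuationSubring K) (O' : T → ValuationSubring K')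
    (h : ∀ t, ∀ x ∈ O t, ι x ∈ O' t) (x : Germ (𝒰 : Filter T) K) (hx : x ∈ gV 𝒰 O) :
    gMap 𝒰 ι x ∈ gV 𝒰 O' := by
  obtain ⟨f, hf, rfl⟩ := hx
  exact ⟨fun t => ι (f t), fun t => h t _ (hf t), rfl⟩

/-- Transfer of a property of all elements of a type which may be empty. -/
theorem transfer_forall' {T : Type} (𝒰 : Ultrafilter T) {X : Type} (P : T → X → Prop)
    (h : ∀ o : T → X, ∀ᶠ t in (𝒰 : Filter T), P t (o t)) : ∀ᶠ t in (𝒰 : Filter T), ∀ x, P t x := by
  rcases isEmpty_or_nonempty X with hX | hX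
  · exact Filter.Eventually.of_forall fun t x => (hX.false x).elim
  · exact transfer_forall 𝒰 P h

end Pool.Agent.Work.MP_e97a4d_nt.UE
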