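import Mathlib

/-!
# UE/Disc: discriminants of monic polynomials
-/

set_option autoImplicit false

noncomputable section

namespace Pool.Agent.Work.MP_e97a4d_nt

open Polynomial

theorem disc_bezout {R : Type*} [CommRing R] {p : R[X]} (hp : p.Monic)
    (h : 0 < p.natDegree) : ∃ a b : R[X], p * a + derivative p * b = C p.discr := by
  obtain ⟨a, b, -, -, hab⟩ := exists_mul_add_mul_eq_C_resultant p (derivative p)
    (m := p.natDegree) (n := p.natDegree - 1) le_rfl (natDegree_derivative_le p) (Or.inl h.ne')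
  rw [resultant_deriv (natDegree_pos_iff_degree_pos.1 h), hp.leadingCoeff, mul_one] at hab
  set e := p.natDegree * (p.natDegree - 1) / 2
  refine ⟨C ((-1) ^ e) * a, C ((-1) ^ e) * b, ?_⟩
  have h1 : p * (C ((-1) ^ e) * a) + derivative p * (C ((-1) ^ e) * b) =
      C ((-1) ^ e) * (p * a + derivative p * b) := by ring
  rw [h1, hab, ← C_mul, ← mul_assoc, ← mul_pow]
  simp

theorem disc_map {R S : Type*} [CommRing R] [CommRing S] [Nontrivial S] (φ : R →+* S) {p : R[X]}
    (hp : p.Monic) (h : 0 < p.natDegree) : (p.map φ).discr = φ p.discr := by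
  have hd : (p.map φ).natDegree = p.natDegree := hp.natDegree_map φ
  have h1 := resultant_deriv (natDegree_pos_iff_degree_pos.1 h)
  have h2 := resultant_deriv (f := p.map φ) (natDegree_pos_iff_degree_pos.1 (by rw [hd]; exact h))
  rw [hd, derivative_map, resultant_map_map, h1, hp.leadingCoeff, (hp.map φ).leadingCoeff, map_mul,
    map_mul, map_one, map_pow, map_neg, map_one, mul_one] at h2
  have h3 : ((-1 : S) ^ (p.natDegree * (p.natDegree - 1) / 2)) *
      ((-1 : S) ^ (p.natDegree * (p.natDegree - 1) / 2)) = 1 := by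
    rw [← mul_pow]; simp
  have h4 := congrArg (fun t => ((-1 : S) ^ (p.natDegree * (p.natDegree - 1) / 2)) * t) h2
  simp only [← mul_assoc, h3, one_mul] at h4
  exact h4.symm

/-- Distinct roots of a monic polynomial which are congruent modulo a prime: the discriminant is in
the prime. -/
theorem disc_mem_of_congr {R A : Type*} [CommRing R] [CommRing A] [IsDomain A] (φ : R →+* A)
    {p : R[X]} (hp : p.Monic) (h : 0 < p.natDegree) {r r' : A} (hr : p.eval₂ φ r = 0)
    (hr' : p.eval₂ φ r' = 0) (hne : r ≠ r') (𝔓 : Ideal A) (hrr : r - r' ∈ 𝔓) :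
    φ p.discr ∈ 𝔓 := by
  obtain ⟨a, b, hab⟩ := disc_bezout hp h
  have e0 : (p.map φ).eval r = 0 := by rw [eval_map]; exact hr
  obtain ⟨q, hq⟩ := dvd_iff_isRoot.2 (show (p.map φ).IsRoot r from e0)
  have e1 : q.eval r' = 0 := by
    have h1 : (p.map φ).eval r' = 0 := by rw [eval_map]; exact hr'
    rw [hq, eval_mul, eval_sub, eval_X, eval_C] at h1
    rcases mul_eq_zero.1 h1 with h2 | h2
    · exact absurd (sub_eq_zero.1 h2).symm hne
    · exact h2
  have e2 : (derivative (p.map φ)).eval r = q.eval r := by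
    rw [hq, derivative_mul, derivative_sub, derivative_X, derivative_C, sub_zero, one_mul,
      eval_add, eval_mul, eval_sub, eval_X, eval_C, sub_self, zero_mul, add_zero]
  have e3 : q.eval r ∈ 𝔓 := by
    have h1 : r - r' ∣ q.eval r - q.eval r' := sub_dvd_eval_sub r r' q
    rw [e1, sub_zero] at h1
    exact 𝔓.mem_of_dvd h1 hrr
  have e4 : φ p.discr = (derivative (p.map φ)).eval r * (b.map φ).eval r := by
    have h1 := congrArg (fun t : R[X] => (t.map φ).eval r) hab
    simp only [Polynomial.map_add, Polynomial.map_mul, map_C, eval_add, eval_mul, eval_C, e0,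
      zero_mul, zero_add] at h1
    rw [← h1, derivative_map]
  rw [e4, e2]
  exact 𝔓.mul_mem_right _ e3

/-- A polynomial with nonzero discriminant has only simple roots. -/
theorem simple_root_of_disc {K : Type*} [Field K] {p : K[X]} (hp : p.Monic)
    (h : 0 < p.natDegree) (hd : p.discr ≠ 0) {r : K} (hr : p.eval r = 0) :
    (derivative p).eval r ≠ 0 := by
  obtain ⟨a, b, hab⟩ := disc_bezout hp h
  intro h0
  apply hd
  have h1 := congrArg (fun t : K[X] => t.eval r) hab
  simp only [eval_add, eval_mul, eval_C, hr, h0, zero_mul, zero_add] at h1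
  exact h1.symm

theorem separable_of_disc {K : Type*} [Field K] {p : K[X]} (hp : p.Monic)
    (h : 0 < p.natDegree) (hd : p.discr ≠ 0) : p.Separable := by
  obtain ⟨a, b, hab⟩ := disc_bezout hp h
  refine ⟨C p.discr⁻¹ * a, C p.discr⁻¹ * b, ?_⟩
  have h1 : C p.discr⁻¹ * a * p + C p.discr⁻¹ * b * derivative p =
      C p.discr⁻¹ * (p * a + derivative p * b) := by ring
  rw [h1, hab, ← C_mul, inv_mul_cancel₀ hd, C_1]

end Pool.Agent.Work.MP_e97a4d_nt
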