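import Pool.Agent.Work.MP_e97a4d_nt.UE.Defs
import Pool.Agent.Work.MP_e97a4d_nt.UE.Disc
import Pool.Agent.Work.MP_e97a4d_nt.Hyp.IntFin
import Pool.Agent.Work.MP_e97a4d_nt.Hyp.Trans

/-!
# UE/ExtE: etale covers at points which extend over a valuation ring

Proof. Charts `j k : Spec (A k) ⟶ V`, `k : Fin m`, by `Hyp.exists_finite_cover π` (Hyp/IntFin). Let
`w := V.fromSpecResidueField v`. For the charts `k` with `v` in the range of `j k` there is
`φ k : A k →+* V.residueField v` with `Spec.map (ofHom (φ k)) ≫ j k = w` (`exists_hom_of_mem`, see UG/Res),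
and `hE` gives `N k ≠ 0`, a number `n k` and families `c k s`, `η k s`, `s : Fin (n k)`. For the other
charts put `N k = 1`, `n k = 0`. Let `N := ∏ k, N k` and let the family `η` be the union of all the
families: index type `Σ k, Fin (n k)`, in bijection with some `Fin r`.

Let `K, Θ, O` be given with an extension `y : Spec O ⟶ V`. As in ExtU (see `factor_local` in UG/Val): there
are a chart `k` and `g : A k →+* O` with `y = Spec.map (ofHom g) ≫ j k`, `v` is in the range of `j k` and
`Θ.comp (φ k) = (algebraMap O K).comp g` by `map_comp_inj (j k)`. So `Θ c ∈ O` for every `c` in the residue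
field which is integral over `A k` (through `φ k`): its monic equation becomes a monic equation over `O`.
The coefficients of `p s := minpoly _ (η k s)` are integral over `A k`: use
`integralClosure.mem_lifts_of_monic_of_dvd_map` (or `minpoly` dividing the image of the monic polynomial
in `(A k)[X]` which has `η k s` as a root; `A k` acts on the residue field through `φ k`, give it the
algebra structure `(φ k).toAlgebra`). So `Θ ((p s).coeff l) ∈ O`. Hence the polynomial `(p s).map Θ` is the
image of a monic polynomial over `O`, and by `disc_map` (UE/Disc, used for `Θ` and for `O → K`;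
`natDegree (p s) = finrank > 0`) `Θ (p s).discr ∈ O`. Also `N k = ∑ s, Θ (c k s) * Θ (p s).discr` in `K`.
`(N k : K)` is a unit of `O` (`N = N k * M`, `(N : K)⁻¹ ∈ O`). If all the `Θ (p s).discr` were non-units
of `O` (in the maximal ideal: `O.valuation x < 1`) then `N k` would be in the maximal ideal. So for some
`s`, `Θ (p s).discr` is nonzero and its inverse is in `O`.
-/

set_option autoImplicit false

noncomputable section

namespace Pool.Agent.Work.MP_e97a4d_nt.UE

open AlgebraicGeometry CategoryTheory NumberField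
open Hyp

variable {F₀ : Type} [Field F₀] {V : Scheme.{0}}

private theorem chart_local_e {R : Type} [CommRing R] [IsLocalRing R]
    (y : Spec (CommRingCat.of R) ⟶ V) {A : CommRingCat.{0}} (j : Spec A ⟶ V) [IsOpenImmersion j]
    (h : y (IsLocalRing.closedPoint R) ∈ Set.range j) :
    ∃ g : A →+* R, Spec.map (CommRingCat.ofHom g) ≫ j = y := by
  have hr : Set.range y ⊆ Set.range j := by
    rintro _ ⟨q, rfl⟩
    have h1 : q ⤳ IsLocalRing.closedPoint R := IsLocalRing.specializes_closedPoint q
    exact (h1.map y.continuous).mem_open j.opensRange.isOpen h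
  obtain ⟨g, hg⟩ := Spec.map_surjective (IsOpenImmersion.lift j y hr)
  refine ⟨g.hom, ?_⟩
  have h2 : CommRingCat.ofHom g.hom = g := rfl
  rw [h2, hg, IsOpenImmersion.lift_fac]

private theorem int_mem_e {K κ A : Type} [CommRing A] [Field κ] [Field K] (φ : A →+* κ)
    (Θ : κ →+* K) (O : ValuationSubring K) (g : A →+* O)
    (hg : Θ.comp φ = (algebraMap O K).comp g) {c : κ} (hc : φ.IsIntegralElem c) :
    ∃ c' : O, algebraMap O K c' = Θ c := by
  obtain ⟨p, hp, hpc⟩ := hc
  have h5 : IsIntegral O (Θ c) := by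
    refine ⟨p.map g, hp.map g, ?_⟩
    rw [Polynomial.eval₂_map, ← hg, ← Polynomial.hom_eval₂, hpc, map_zero]
  exact (IsIntegrallyClosed.isIntegral_iff (R := O) (K := K)).1 h5

private theorem minpoly_lift_e {K κ A L : Type} [CommRing A] [Field κ] [Field K] [Field L]
    [Algebra κ L] [FiniteDimensional κ L] (φ : A →+* κ)
    (Θ : κ →+* K) (O : ValuationSubring K) (g : A →+* O)
    (hg : Θ.comp φ = (algebraMap O K).comp g) {η : L}
    (hη : ((algebraMap κ L).comp φ).IsIntegralElem η) :
    ∃ P : Polynomial O, P.Monic ∧ P.map (algebraMap O K) = (minpoly κ η).map Θ := by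
  obtain ⟨q, hq, hqη⟩ := hη
  have h1 : minpoly κ η ∣ q.map φ := by
    apply minpoly.dvd
    rw [Polynomial.aeval_def, Polynomial.eval₂_map]
    exact hqη
  have h2 : (minpoly κ η).map Θ ∣ (q.map g).map (algebraMap O K) := by
    rw [Polynomial.map_map, ← hg, ← Polynomial.map_map]
    exact Polynomial.map_dvd Θ h1
  have hmon : ((minpoly κ η).map Θ).Monic :=
    (minpoly.monic (Algebra.IsIntegral.isIntegral η)).map Θ
  obtain ⟨P, hP⟩ := IsIntegrallyClosed.eq_map_mul_C_of_dvd K (hq.map g) h2
  rw [hmon.leadingCoeff, Polynomial.C_1, mul_one] at hP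
  refine ⟨P, ?_, hP⟩
  apply Polynomial.monic_of_injective (FaithfulSMul.algebraMap_injective O K)
  rw [hP]
  exact hmon

theorem etale_ext (π : V ⟶ Spec (CommRingCat.of (𝓞 F₀))) [QuasiCompact π] (v : V)
    (L : Type) [Field L] [Algebra (V.residueField v) L] [FiniteDimensional (V.residueField v) L]
    (hE : EtaleAt v L) :
    ∃ (N r : ℕ) (η : Fin r → L), N ≠ 0 ∧
      (∀ s, (minpoly (V.residueField v) (η s)).natDegree = Module.finrank (V.residueField v) L) ∧
      ∀ (K : Type) [Field K] (Θ : V.residueField v →+* K) (O : ValuationSubring K),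
        HasExt O (Spec.map (CommRingCat.ofHom Θ) ≫ V.fromSpecResidueField v) →
        (N : K) ≠ 0 → (N : K)⁻¹ ∈ O →
        ∃ s, (∀ l, Θ ((minpoly (V.residueField v) (η s)).coeff l) ∈ O) ∧
          Θ (minpoly (V.residueField v) (η s)).discr ≠ 0 ∧
          (Θ (minpoly (V.residueField v) (η s)).discr)⁻¹ ∈ O := by
  classical
  obtain ⟨m, A, j, hj, hcov⟩ := exists_finite_cover π
  have hchart : ∀ k : Fin m, ∃ (N n : ℕ) (c : Fin n → V.residueField v) (η : Fin n → L), N ≠ 0 ∧
      (∀ s, (minpoly (V.residueField v) (η s)).natDegree = Module.finrank (V.residueField v) L) ∧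
      ∀ φ : A k →+* V.residueField v,
        Spec.map (CommRingCat.ofHom φ) ≫ j k = V.fromSpecResidueField v →
          (∀ s, φ.IsIntegralElem (c s)) ∧
          (∀ s, ((algebraMap (V.residueField v) L).comp φ).IsIntegralElem (η s)) ∧
          (N : V.residueField v) = ∑ s, c s * (minpoly (V.residueField v) (η s)).discr := by
    intro k
    have := hj k
    by_cases h : ∃ φ : A k →+* V.residueField v,
        Spec.map (CommRingCat.ofHom φ) ≫ j k = V.fromSpecResidueField v
    · obtain ⟨φ, hφ⟩ := h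
      obtain ⟨N, n, c, η, hN, h1, h2, h3, h4⟩ := hE (A k) (j k) φ (hj k) hφ
      refine ⟨N, n, c, η, hN, h3, fun φ' hφ' => ?_⟩
      have hφφ : φ' = φ := by
        apply map_comp_inj (j k)
        rw [hφ, hφ']
      subst hφφ
      exact ⟨h1, h2, h4⟩
    · refine ⟨1, 0, Fin.elim0, Fin.elim0, one_ne_zero, fun s => s.elim0, fun φ hφ => ?_⟩
      exact absurd ⟨φ, hφ⟩ h
  choose N n c η hN hdeg hdat using hchart
  let e := (Fintype.equivFin (Σ k : Fin m, Fin (n k)))
  refine ⟨∏ k, N k, Fintype.card (Σ k : Fin m, Fin (n k)), fun i => η (e.symm i).1 (e.symm i).2,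
    Finset.prod_ne_zero_iff.2 fun k _ => hN k, fun s => hdeg _ _, ?_⟩
  intro K _ Θ O hO hN0 hNO
  obtain ⟨y, hy⟩ := hO
  obtain ⟨k, hk⟩ := hcov (y (IsLocalRing.closedPoint O))
  have := hj k
  obtain ⟨g, hg⟩ := chart_local_e y (j k) hk
  have hmem : (V.fromSpecResidueField v) (⊥ : PrimeSpectrum (V.residueField v)) ∈
      Set.range (j k) := by
    have e1 : (V.fromSpecResidueField v) (⊥ : PrimeSpectrum (V.residueField v)) =
        (Spec.map (CommRingCat.ofHom Θ) ≫ V.fromSpecResidueField v) (⊥ : PrimeSpectrum K) := by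
      rw [comp_apply_bot]
      exact congrArg _ (Subsingleton.elim (α := PrimeSpectrum (V.residueField v)) _ _)
    rw [e1, ← hy, ← hg]
    exact ⟨_, rfl⟩
  obtain ⟨φ, hφ⟩ := exists_hom_of_mem (K := V.residueField v) (V.fromSpecResidueField v) (j k) hmem
  have hΘg : Θ.comp φ = (algebraMap O K).comp g := by
    apply map_comp_inj (j k)
    have e1 : Spec.map (CommRingCat.ofHom (Θ.comp φ)) ≫ j k =
        Spec.map (CommRingCat.ofHom Θ) ≫ (Spec.map (CommRingCat.ofHom φ) ≫ j k) := by
      rw [← Category.assoc, ← Spec.map_comp]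
      rfl
    have e2 : Spec.map (CommRingCat.ofHom ((algebraMap O K).comp g)) ≫ j k =
        Spec.map (CommRingCat.ofHom (algebraMap O K)) ≫ (Spec.map (CommRingCat.ofHom g) ≫ j k) := by
      rw [← Category.assoc, ← Spec.map_comp]
      rfl
    rw [e1, e2, hφ, hg, hy]
  obtain ⟨hc, hη, hsum⟩ := hdat k φ hφ
  have hc' : ∀ s, ∃ c' : O, algebraMap O K c' = Θ (c k s) := fun s =>
    int_mem_e φ Θ O g hΘg (hc s)
  choose c' hc' using hc'
  have hP : ∀ s, ∃ P : Polynomial O, P.Monic ∧
      P.map (algebraMap O K) = (minpoly (V.residueField v) (η k s)).map Θ := fun s =>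
    minpoly_lift_e φ Θ O g hΘg (hη s)
  choose P hPm hPe using hP
  have hmon : ∀ s, (minpoly (V.residueField v) (η k s)).Monic := fun s =>
    minpoly.monic (Algebra.IsIntegral.isIntegral _)
  have hdegpos : ∀ s, 0 < (minpoly (V.residueField v) (η k s)).natDegree := fun s =>
    minpoly.natDegree_pos (Algebra.IsIntegral.isIntegral _)
  have hPd : ∀ s, 0 < (P s).natDegree := by
    intro s
    have h1 := (hPm s).natDegree_map (algebraMap O K)
    rw [hPe, (hmon s).natDegree_map] at h1
    rw [← h1]
    exact hdegpos s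
  have hdisc : ∀ s, algebraMap O K (P s).discr =
      Θ (minpoly (V.residueField v) (η k s)).discr := by
    intro s
    rw [← disc_map (algebraMap O K) (hPm s) (hPd s), hPe, disc_map Θ (hmon s) (hdegpos s)]
  have hNk : algebraMap O K (∑ s, c' s * (P s).discr) = (N k : K) := by
    rw [map_sum]
    have h1 : (N k : K) = Θ (N k : V.residueField v) := by rw [map_natCast]
    rw [h1, hsum, map_sum]
    refine Finset.sum_congr rfl fun s _ => ?_
    rw [map_mul, map_mul, hc', hdisc]
  have hNk' : ((N k : ℕ) : O) = ∑ s, c' s * (P s).discr := by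
    apply FaithfulSMul.algebraMap_injective O K
    rw [hNk, map_natCast]
  have hunit : IsUnit ((N k : ℕ) : O) := by
    have h1 : ((∏ k, N k : ℕ) : K) = (N k : K) * ((∏ l ∈ Finset.univ.erase k, N l : ℕ) : K) := by
      rw [← Nat.cast_mul, Finset.mul_prod_erase _ _ (Finset.mem_univ k)]
    refine IsUnit.of_mul_eq_one (((∏ l ∈ Finset.univ.erase k, N l : ℕ) : O) * ⟨_, hNO⟩) ?_
    apply FaithfulSMul.algebraMap_injective O K
    rw [map_mul, map_mul, map_natCast, map_natCast, map_one]
    change (N k : K) * (((∏ l ∈ Finset.univ.erase k, N l : ℕ) : K) * (((∏ k, N k : ℕ) : K))⁻¹) = 1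
    rw [← mul_assoc, ← h1, mul_inv_cancel₀ hN0]
  obtain ⟨s, hs⟩ : ∃ s, IsUnit (P s).discr := by
    by_contra hcon
    push Not at hcon
    have h1 : ((N k : ℕ) : O) ∈ IsLocalRing.maximalIdeal O := by
      rw [hNk']
      refine Ideal.sum_mem _ fun s _ => Ideal.mul_mem_left _ _ ?_
      exact (IsLocalRing.mem_maximalIdeal _).2 (hcon s)
    exact (IsLocalRing.mem_maximalIdeal _).1 h1 hunit
  refine ⟨e ⟨k, s⟩, ?_⟩
  have hee : η (e.symm (e ⟨k, s⟩)).1 (e.symm (e ⟨k, s⟩)).2 = η k s :=
    congrArg (fun t : Σ k : Fin m, Fin (n k) => η t.1 t.2) (e.symm_apply_apply ⟨k, s⟩)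
  beta_reduce
  rw [hee]
  refine ⟨fun l => ?_, ?_, ?_⟩
  · have h1 := congrArg (fun t : Polynomial K => t.coeff l) (hPe s)
    simp only [Polynomial.coeff_map] at h1
    rw [← h1]
    exact ((P s).coeff l).2
  · rw [← hdisc]
    exact (hs.map (algebraMap O K)).ne_zero
  · rw [← hdisc]
    obtain ⟨u, hu⟩ := hs
    have h1 : (algebraMap O K (P s).discr)⁻¹ = algebraMap O K ((u⁻¹ : Oˣ) : O) := by
      rw [← hu]
      apply inv_eq_of_mul_eq_one_right
      rw [← map_mul, Units.mul_inv, map_one]
    rw [h1]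
    exact ((u⁻¹ : Oˣ) : O).2

end Pool.Agent.Work.MP_e97a4d_nt.UE
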