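import Pool.Agent.Work.MP_e97a4d_nt.UE.GDefs
import Pool.Agent.Work.MP_e97a4d_nt.Hyp.IntFin
import Pool.Agent.Work.MP_e97a4d_nt.Hyp.Trans
import Pool.Agent.Work.MP_e97a4d_nt.UG.Res

/-!
# UE/ExtG: the ultraproduct of points which extend over valuation rings extends

Proof. Charts `jj k : Spec (A k) ⟶ V`, `k : Fin m`, from `Hyp.exists_finite_cover π`. For every `t` the
extension `y : Spec (O t) ⟶ V` maps the closed point into some chart `k t`, hence all of `Spec (O t)`
(`factor_local` in UG/Val, for a given chart), so there is `g t : A (k t) →+* O t` with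
`Spec.map (ofHom (P t)) ≫ j = Spec.map (ofHom ((algebraMap (O t) F).comp (g t))) ≫ jj (k t)`. As the set of
charts is finite, there is `k₀` with `∀ᶠ t in 𝒰, k t = k₀` (`Ultrafilter.eventually_exists_iff`, or
`Ultrafilter.eventually_exists_mem_iff`). Take one such `t` for which also `hgood` holds
(`Filter.Eventually.exists`): the point `(Spec.map (ofHom (P t)) ≫ j) ⊥` is in `(jj k₀).opensRange`, so
`exists_elt j (P t) (jj k₀).opensRange _` gives `a : B` with `P t a ≠ 0` and `j p ∈ (jj k₀).opensRange` for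
all `p` not containing `a`; by `hgood`, `Φ a ≠ 0`. `transition j (jj k₀) a _` (see its use in UG/Val) gives
`β : A k₀ → B`, `e : A k₀ → ℕ` such that for all fields `K` and `Q : B →+* K` with `Q a ≠ 0` there is
`Q' : A k₀ →+* K` with `Spec.map (ofHom Q) ≫ j = Spec.map (ofHom Q') ≫ jj k₀` and
`Q' c = Q (β c) / Q a ^ e c`. Apply it to `Q = Φ` (giving `Φ'`) and to `Q = P t` for almost all `t`
(`P t a ≠ 0` for almost all `t` since `Φ a ≠ 0`); by `map_comp_inj (jj k₀)` the latter `Q'` is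
`(algebraMap (O t) F).comp (g t)` (after substituting `k t = k₀`), so `P t (β c) / P t a ^ e c ∈ O t` for all
`c`, for almost all `t`. Hence `Φ' c = Φ (β c) / Φ a ^ e c`, the germ of `t ↦ P t (β c) / P t a ^ e c`, is in
`gV 𝒰 O` (`mem_gV`). So `Φ'` factors through `gV 𝒰 O` (`RingHom.codRestrict`) and
`Spec.map (ofHom Φ) ≫ j = Spec.map (ofHom Φ') ≫ jj k₀` extends.
(Germs: `(f : Germ) / g = (f / g : T → F)` is `rfl` or `Germ.coe_div`, powers similar. Products and
quotients of germs of functions are germs of the pointwise products and quotients.)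
-/

set_option autoImplicit false

noncomputable section

namespace Pool.Agent.Work.MP_e97a4d_nt.UE

open AlgebraicGeometry CategoryTheory NumberField Filter
open Hyp

variable {F₀ : Type} [Field F₀] {V : Scheme.{0}}

theorem hasExt_germ (π : V ⟶ Spec (CommRingCat.of (𝓞 F₀))) [QuasiCompact π] {T : Type}
    (𝒰 : Ultrafilter T) {F : Type} [Field F] {B : CommRingCat.{0}} (j : Spec B ⟶ V)
    [IsOpenImmersion j] (P : T → (B →+* F)) (Φ : B →+* Germ (𝒰 : Filter T) F)
    (hΦ : ∀ a, Φ a = ((fun t => P t a : T → F) : Germ (𝒰 : Filter T) F))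
    (hgood : ∀ᶠ t in (𝒰 : Filter T), ∀ a, Φ a = 0 → P t a = 0)
    (O : T → ValuationSubring F)
    (hO : ∀ t, HasExt (O t) (Spec.map (CommRingCat.ofHom (P t)) ≫ j)) :
    HasExt (gV 𝒰 O) (Spec.map (CommRingCat.ofHom Φ) ≫ j) := by
  classical
  obtain ⟨n, A, jj, hjj, hcov⟩ := exists_finite_cover π
  have h1 : ∀ t, ∃ (k : Fin n) (g : A k →+* O t),
      Spec.map (CommRingCat.ofHom (P t)) ≫ j =
        Spec.map (CommRingCat.ofHom ((algebraMap (O t) F).comp g)) ≫ jj k := by
    intro t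
    obtain ⟨y, hy⟩ := hO t
    obtain ⟨k, hk⟩ := hcov (y (IsLocalRing.closedPoint (O t)))
    have := hjj k
    have hr : Set.range y ⊆ Set.range (jj k) := by
      rintro _ ⟨q, rfl⟩
      have h1 : q ⤳ IsLocalRing.closedPoint (O t) := IsLocalRing.specializes_closedPoint q
      exact (h1.map y.continuous).mem_open (jj k).opensRange.isOpen hk
    obtain ⟨g, hg⟩ := Spec.map_surjective (IsOpenImmersion.lift (jj k) y hr)
    refine ⟨k, g.hom, ?_⟩
    rw [CommRingCat.ofHom_comp, Spec.map_comp, Category.assoc]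
    have h2 : CommRingCat.ofHom g.hom = g := rfl
    rw [h2, hg, IsOpenImmersion.lift_fac, hy]
  choose k g hg using h1
  obtain ⟨k₀, hk₀⟩ : ∃ k₀, ∀ᶠ t in (𝒰 : Filter T), k₀ = k t := by
    rw [← Ultrafilter.eventually_exists_iff]
    exact Eventually.of_forall fun t => ⟨k t, rfl⟩
  have := hjj k₀
  -- the points in the chart `k₀`
  have h2 : ∀ᶠ t in (𝒰 : Filter T), ∃ g' : A k₀ →+* O t,
      Spec.map (CommRingCat.ofHom (P t)) ≫ j =
        Spec.map (CommRingCat.ofHom ((algebraMap (O t) F).comp g')) ≫ jj k₀ := by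
    filter_upwards [hk₀] with t ht
    subst ht
    exact ⟨g t, hg t⟩
  obtain ⟨t₁, ⟨g₁, hg₁⟩, ht₁⟩ := (h2.and hgood).exists
  have hmem : (Spec.map (CommRingCat.ofHom (P t₁)) ≫ j) (⊥ : PrimeSpectrum F) ∈
      (jj k₀).opensRange := by
    rw [hg₁]
    exact ⟨_, rfl⟩
  obtain ⟨a, ha, haj⟩ := exists_elt j (P t₁) (jj k₀).opensRange hmem
  have hΦa : Φ a ≠ 0 := fun h => ha (ht₁ a h)
  obtain ⟨β, e, htr⟩ := transition j (jj k₀) a haj
  obtain ⟨Φ', hΦ', hΦ'β⟩ := htr _ Φ hΦa
  have hPa : ∀ᶠ t in (𝒰 : Filter T), P t a ≠ 0 := by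
    refine Ultrafilter.eventually_not.2 fun h => hΦa ?_
    rw [hΦ a]
    exact Germ.coe_eq.2 h
  have h3 : ∀ c, Φ' c ∈ gV 𝒰 O := by
    intro c
    have h4 : Φ' c = ((fun t => P t (β c) / P t a ^ e c : T → F) : Germ (𝒰 : Filter T) F) := by
      rw [hΦ'β c, hΦ, hΦ]
      rfl
    rw [h4, mem_gV]
    filter_upwards [h2, hPa] with t ht hta
    obtain ⟨g', hg'⟩ := ht
    obtain ⟨Q, hQ, hQβ⟩ := htr F (P t) hta
    have h5 : Q = (algebraMap (O t) F).comp g' := by
      apply map_comp_inj (jj k₀)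
      rw [← hQ, hg']
    rw [← hQβ c, h5]
    exact (g' c).2
  refine ⟨Spec.map (CommRingCat.ofHom (Φ'.codRestrict (gV 𝒰 O).toSubring h3)) ≫ jj k₀, ?_⟩
  rw [hΦ', ← Category.assoc, ← Spec.map_comp]
  rfl

end Pool.Agent.Work.MP_e97a4d_nt.UE
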