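import Pool.Agent.Work.MP_e97a4d_nt.UE.Defs
import Pool.Agent.Work.MP_e97a4d_nt.Hyp.IntFin
import Pool.Agent.Work.MP_e97a4d_nt.Hyp.Trans

/-!
# UE/ExtU: values of integral elements at points which extend over a valuation ring

Proof. By `Hyp.exists_finite_cover π` (in Hyp/IntFin) `V` is covered by finitely many affine charts
`j k : Spec (A k) ⟶ V`. Let `w := V.fromSpecResidueField v`; its only point maps to `v`
(`Scheme.fromSpecResidueField_apply`). For the charts `k` with `v` in the range of `j k` the lemma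
`exists_hom_of_mem` (see its use in UG/Res) gives `φ k : A k →+* V.residueField v` with
`Spec.map (ofHom (φ k)) ≫ j k = w`, and `hu` gives `N k ≠ 0` such that `N k * u` is integral over `A k`
(through `(algebraMap _ L).comp (φ k)`): a monic `p` in `(A k)[X]` with `p.eval₂ _ (N k * u) = 0`. For the
other charts put `N k := 1`. Let `N := ∏ k, N k`.

Let `K, K', ι, Θ, Θ', O, O'` be given and `y : Spec O ⟶ V` an extension (`HasExt`). The closed point of
`Spec O` (`IsLocalRing.closedPoint O`) maps into a chart `k`, so all of `Spec O` maps into this chart and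
`y = Spec.map (ofHom g) ≫ j k` with `g : A k →+* O` (see `factor_local` in UG/Val for this argument, copy
it for a given chart instead of an arbitrary affine open). Then
`Spec.map (ofHom Θ) ≫ w = Spec.map (ofHom ((algebraMap O K).comp g)) ≫ j k`; evaluating at the point
`⊥` we see that `v` is in the range of `j k`; and by `map_comp_inj (j k)` (Hyp/Trans or Spread; see UG/Val)
`Θ.comp (φ k) = (algebraMap O K).comp g`. Apply `Θ'` to the monic equation of `N k * u`: with
`Θ'.comp (algebraMap _ L) = ι.comp Θ` it becomes a monic equation for `N k * Θ' u` with coefficients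
`ι (g c)`, `g c ∈ O`, so in `O'`. As `O'` is integrally closed in `K'`, `N k * Θ' u ∈ O'` (see the end of
the proof of `integral_val` in UG/Val). `N = N k * M` with an integer `M`, `(N : K')⁻¹ ∈ O'` and `M ∈ O'`,
so `(N k : K')⁻¹ = M * N⁻¹ ∈ O'` and `Θ' u ∈ O'`.
-/

set_option autoImplicit false

noncomputable section

namespace Pool.Agent.Work.MP_e97a4d_nt.UE

open AlgebraicGeometry CategoryTheory NumberField
open Hyp

variable {F₀ : Type} [Field F₀] {V : Scheme.{0}}

/-- A point with values in a local ring whose closed point is in a given chart. -/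
private theorem factor_chart {R : Type} [CommRing R] [IsLocalRing R]
    (y : Spec (CommRingCat.of R) ⟶ V) {C : CommRingCat.{0}} (j : Spec C ⟶ V) [IsOpenImmersion j]
    (hm : y (IsLocalRing.closedPoint R) ∈ Set.range j) :
    ∃ g : C →+* R, Spec.map (CommRingCat.ofHom g) ≫ j = y := by
  have hr : Set.range y ⊆ Set.range j := by
    rintro _ ⟨q, rfl⟩
    have h1 : q ⤳ IsLocalRing.closedPoint R := IsLocalRing.specializes_closedPoint q
    exact (h1.map y.continuous).mem_open j.opensRange.isOpen hm
  obtain ⟨g, hg⟩ := Spec.map_surjective (IsOpenImmersion.lift j y hr)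
  refine ⟨g.hom, ?_⟩
  have h2 : CommRingCat.ofHom g.hom = g := rfl
  rw [h2, hg, IsOpenImmersion.lift_fac]

theorem integral_ext (π : V ⟶ Spec (CommRingCat.of (𝓞 F₀))) [QuasiCompact π] (v : V)
    {L : Type} [Field L] [Algebra (V.residueField v) L] (u : L) (hu : IntegralAt v u) :
    ∃ N : ℕ, N ≠ 0 ∧ ∀ (K K' : Type) [Field K] [Field K'] (ι : K →+* K')
      (Θ : V.residueField v →+* K) (Θ' : L →+* K'),
      Θ'.comp (algebraMap (V.residueField v) L) = ι.comp Θ →
      ∀ (O : ValuationSubring K) (O' : ValuationSubring K'), (∀ x ∈ O, ι x ∈ O') →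
        HasExt O (Spec.map (CommRingCat.ofHom Θ) ≫ V.fromSpecResidueField v) →
        (N : K') ≠ 0 → (N : K')⁻¹ ∈ O' → Θ' u ∈ O' := by
  classical
  obtain ⟨n, A, j, hj, hcov⟩ := exists_finite_cover π
  have h1 : ∀ k : Fin n, ∃ N : ℕ, N ≠ 0 ∧ (v ∈ Set.range (j k) → ∃ φ : A k →+* V.residueField v,
      Spec.map (CommRingCat.ofHom φ) ≫ j k = V.fromSpecResidueField v ∧
      ((algebraMap (V.residueField v) L).comp φ).IsIntegralElem (N * u)) := by
    intro k
    by_cases hk : v ∈ Set.range (j k)
    · have hb : (V.fromSpecResidueField v) (⊥ : PrimeSpectrum (V.residueField v)) = v :=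
        Scheme.fromSpecResidueField_apply v _
      have h0 : (V.fromSpecResidueField v) (⊥ : PrimeSpectrum (V.residueField v)) ∈
          Set.range (j k) := by
        rw [hb]
        exact hk
      have := hj k
      obtain ⟨φ, hφ⟩ := exists_hom_of_mem (K := V.residueField v) (V.fromSpecResidueField v) (j k) h0
      obtain ⟨N, hN, hN'⟩ := hu (A k) (j k) φ (hj k) hφ
      exact ⟨N, hN, fun _ => ⟨φ, hφ, hN'⟩⟩
    · exact ⟨1, one_ne_zero, fun h => absurd h hk⟩
  choose N hN hφ using h1
  refine ⟨∏ k, N k, Finset.prod_ne_zero_iff.2 fun k _ => hN k, ?_⟩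
  intro K K' _ _ ι Θ Θ' hΘ O O' hO hext hne hinv
  obtain ⟨y, hy⟩ := hext
  obtain ⟨k, hk⟩ := hcov (y (IsLocalRing.closedPoint O))
  have := hj k
  obtain ⟨g, hg⟩ := factor_chart y (j k) hk
  set Q : A k →+* K := (algebraMap O K).comp g with hQ
  have hxQ : Spec.map (CommRingCat.ofHom Θ) ≫ V.fromSpecResidueField v =
      Spec.map (CommRingCat.ofHom Q) ≫ j k := by
    rw [← hy, ← hg, ← Category.assoc, ← Spec.map_comp]
    rfl
  have hv : v ∈ Set.range (j k) := by
    have h2 := congrArg (fun t : Spec (CommRingCat.of K) ⟶ V => t (⊥ : PrimeSpectrum K)) hxQ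
    have h3 : (Spec.map (CommRingCat.ofHom Θ) ≫ V.fromSpecResidueField v) (⊥ : PrimeSpectrum K) = v :=
      Scheme.fromSpecResidueField_apply v _
    have h4 : v = (Spec.map (CommRingCat.ofHom Q) ≫ j k) (⊥ : PrimeSpectrum K) := h3.symm.trans h2
    rw [h4]
    exact ⟨_, rfl⟩
  obtain ⟨φ, hφv, p, hp, hpu⟩ := hφ k hv
  have hΘQ : Θ.comp φ = Q := by
    apply map_comp_inj (j k)
    rw [← hxQ, ← hφv, ← Category.assoc, ← Spec.map_comp]
    rfl
  -- the integers
  set M : ℕ := ∏ l ∈ Finset.univ.erase k, N l with hM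
  have hNM : ∏ l, N l = N k * M := (Finset.mul_prod_erase _ _ (Finset.mem_univ k)).symm
  rw [hNM, Nat.cast_mul] at hne hinv
  have hNk : (N k : K') ≠ 0 := left_ne_zero_of_mul hne
  have hMk : (M : K') ≠ 0 := right_ne_zero_of_mul hne
  have hinvk : (N k : K')⁻¹ ∈ O' := by
    have h2 : (N k : K')⁻¹ = (M : K') * ((N k : K') * (M : K'))⁻¹ := by
      field_simp
    rw [h2]
    exact mul_mem (natCast_mem O' M) hinv
  -- the equation
  let g' : A k →+* O' := {
    toFun := fun c => ⟨ι (Q c), hO _ (g c).2⟩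
    map_one' := Subtype.ext (by simp)
    map_mul' := fun a b => Subtype.ext (by simp)
    map_zero' := Subtype.ext (by simp)
    map_add' := fun a b => Subtype.ext (by simp) }
  have hg' : (algebraMap O' K').comp g' = ι.comp Q := rfl
  have h4 : p.eval₂ (ι.comp Q) ((N k : K') * Θ' u) = 0 := by
    have h5 := congrArg Θ' hpu
    rw [Polynomial.hom_eval₂, map_zero, ← RingHom.comp_assoc, hΘ, RingHom.comp_assoc, hΘQ, map_mul,
      map_natCast] at h5
    exact h5
  have h5 : IsIntegral O' ((N k : K') * Θ' u) := by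
    refine ⟨p.map g', hp.map g', ?_⟩
    rw [Polynomial.eval₂_map, hg']
    exact h4
  obtain ⟨r, hr⟩ := (IsIntegrallyClosed.isIntegral_iff (R := O') (K := K')).1 h5
  have h6 : Θ' u = (N k : K')⁻¹ * ((N k : K') * Θ' u) := by
    rw [← mul_assoc, inv_mul_cancel₀ hNk, one_mul]
  rw [h6, ← hr]
  exact mul_mem hinvk r.2

end Pool.Agent.Work.MP_e97a4d_nt.UE
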