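import Pool.Agent.Work.MP_e97a4d_nt.UE.HMe1
import Pool.Agent.Work.MP_e97a4d_nt.UE.Disc

/-!
# UE/HMe2: inertia groups fix the roots of polynomials with unit discriminant

Facts: for `c : F` with `p.valuation F c ≤ 1`, `P.valuation E (algebraMap F E c) ≤ 1`, and if
`p.valuation F c = 1` then `P.valuation E (algebraMap F E c) = 1`. (`P` is over `p`. Mathlib has
`HeightOneSpectrum.valuation_liesOver`-like statements; or by hand: `c = a / s` with `a, s : 𝓞 F`, `s ∉ p`,
and `a ∉ p` in the second case; an element of `𝓞 F` not in `p` is not in `P`.)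

Let `A` be the valuation subring of `P.valuation E` and `R` the valuation subring of `p.valuation F`,
`φ : R →+* A` the homomorphism given by `algebraMap F E`. Let `q` be the monic polynomial over `R` with
`q.map R.subtype = h` (`Polynomial.toSubring` or `Polynomial.lifts`), of the same degree. Then
`(q.discr : F) = h.discr` by `disc_map`. The root `x` is in `A` (`A` is integrally closed in `E`, `x` is a root
of the monic `q.map φ`). `g x` is also a root of `h`, so in `A`. If `g x ≠ x`, `disc_mem_of_congr` with
`r = g x`, `r' = x` in `A` and the maximal ideal `𝔓 = {a | P.valuation E a < 1}` of `A` (`inertia_val`: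
`g x - x ∈ 𝔓`) gives `φ q.discr ∈ 𝔓`, i.e. `P.valuation E (algebraMap F E h.discr) < 1`; but
`p.valuation F h.discr = 1`.
-/

set_option autoImplicit false

noncomputable section

namespace Pool.Agent.Work.MP_e97a4d_nt

open NumberField IsDedekindDomain

theorem inertia_fix_root {F E : Type} [Field F] [NumberField F] [Field E] [NumberField E]
    [Algebra F E] (P : HeightOneSpectrum (𝓞 E)) (p : HeightOneSpectrum (𝓞 F))
    (hPp : P.asIdeal.under (𝓞 F) = p.asIdeal) (g : Gal(E/F))
    (hg : ∀ x : 𝓞 E, g • x - x ∈ P.asIdeal) (h : Polynomial F) (hm : h.Monic)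
    (h0 : 0 < h.natDegree) (h1 : ∀ l, p.valuation F (h.coeff l) ≤ 1)
    (h2 : p.valuation F h.discr = 1) (x : E) (hx : Polynomial.aeval x h = 0) : g x = x := by
  have hx' : Polynomial.aeval (g x) h = 0 := by
    have h3 := congrArg g hx
    rw [map_zero, ← Polynomial.aeval_algHom_apply] at h3
    exact h3
  have hlo : P.asIdeal.LiesOver p.asIdeal := ⟨hPp.symm⟩
  have hv : ∀ c : F, P.valuation E (algebraMap F E c) =
      p.valuation F c ^ (p.asIdeal.ramificationIdx' P.asIdeal) := fun c =>
    (HeightOneSpectrum.valuation_liesOver E p P c).symm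
  have hle : ∀ c : F, p.valuation F c ≤ 1 → P.valuation E (algebraMap F E c) ≤ 1 := by
    intro c hc
    rw [hv]
    exact pow_le_one₀ zero_le hc
  let A : Subring E := (P.valuation E).integer
  let R : Subring F := (p.valuation F).integer
  let φ : R →+* A := (algebraMap F E).restrict R A (fun c hc => hle c hc)
  have hφ : ∀ c : R, ((φ c : A) : E) = algebraMap F E (c : F) := fun _ => rfl
  obtain ⟨q, hq1, hq2, hq3⟩ := Polynomial.lifts_and_natDegree_eq_and_monic (f := R.subtype)
    (p := h) ((Polynomial.lifts_iff_coeff_lifts h).2 fun n => ⟨⟨h.coeff n, h1 n⟩, rfl⟩) hm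
  have hcomp : A.subtype.comp φ = (algebraMap F E).comp R.subtype := by
    ext c
    rfl
  have hroot : ∀ y : E, Polynomial.aeval y h = 0 → Polynomial.eval₂ (A.subtype.comp φ) y q = 0 := by
    intro y hy
    rw [hcomp, ← Polynomial.eval₂_map, hq1]
    exact hy
  have hint : ∀ y : E, Polynomial.aeval y h = 0 → y ∈ A := by
    intro y hy
    have h3 : IsIntegral A y := by
      refine ⟨q.map φ, hq3.map φ, ?_⟩
      rw [Polynomial.eval₂_map]
      exact hroot y hy
    exact (Valuation.integer.integers (P.valuation E)).mem_of_integral h3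
  have hA : ∀ (y : E) (hy : Polynomial.aeval y h = 0),
      q.eval₂ φ (⟨y, hint y hy⟩ : A) = 0 := by
    intro y hy
    apply Subtype.coe_injective
    show A.subtype (q.eval₂ φ (⟨y, hint y hy⟩ : A)) = 0
    rw [Polynomial.hom_eval₂]
    exact hroot y hy
  by_contra hne
  let 𝔓 : Ideal A :=
    { carrier := {a | P.valuation E (a : E) < 1}
      zero_mem' := by
        show P.valuation E ((0 : A) : E) < 1
        rw [Subring.coe_zero, map_zero]
        exact zero_lt_one
      add_mem' := by
        intro a b ha hb
        have ha' : P.valuation E (a : E) < 1 := ha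
        have hb' : P.valuation E (b : E) < 1 := hb
        exact Valuation.map_add_lt (P.valuation E) ha' hb'
      smul_mem' := by
        intro c a ha
        show P.valuation E ((c • a : A) : E) < 1
        rw [smul_eq_mul, Subring.coe_mul, map_mul]
        exact lt_of_le_of_lt (mul_le_of_le_one_left' c.2) ha }
  have key := disc_mem_of_congr φ hq3 (by rw [hq2]; exact h0) (hA (g x) hx') (hA x hx)
    (fun he => hne (congrArg Subtype.val he)) 𝔓 (by
      show P.valuation E (g x - x) < 1
      exact inertia_val P g hg x (hint x hx))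
  have h4 : P.valuation E (algebraMap F E ((q.discr : R) : F)) < 1 := key
  have h5 : ((q.discr : R) : F) = h.discr := by
    rw [← hq1]
    exact (disc_map R.subtype hq3 (by rw [hq2]; exact h0)).symm
  rw [h5, hv, h2, one_pow] at h4
  exact lt_irrefl _ h4

end Pool.Agent.Work.MP_e97a4d_nt
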