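import Mathlib

/-!
# UE/HMe3: the Galois closure of a simple extension

Let `q := minpoly F ξ` and `E := IntermediateField.adjoin F (q.rootSet (AlgebraicClosure F))`: a splitting
field of `q` (`IntermediateField.adjoin_rootSet_isSplittingField`, `IsAlgClosed.splits`), so finite
dimensional (`Polynomial.IsSplittingField.finiteDimensional`) and Galois (`IsGalois.of_separable_splitting_field`,
characteristic zero). `ξ` is in `rootSet`. Degree: `Gal(E/F)` acts faithfully on the set of the roots of
`q` in `E`, which has at most `natDegree q ≤ n` elements, so `finrank F E = card Gal(E/F) ≤ n!`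
(`IsGalois.card_aut_eq_finrank`; `Fintype.card_perm`, `Nat.factorial_le`; the injectivity of
`Gal(E/F) → Equiv.Perm (q.rootSet E)`: `E` is generated by the roots,
`IntermediateField.ext`/`AlgEquiv.coe_ringHom_injective`/`IntermediateField.algHom_ext_of_eq_adjoin`, or use
`Polynomial.Gal.galActionHom_injective` and `Polynomial.Gal.card_of_separable` for the standard splitting
field and compare degrees).
Last part: if `g` fixes `τ ξ` for all `τ` then `g` fixes all the roots of `q` in `E` (the automorphisms
act transitively on the roots of the irreducible polynomial `q`: `minpoly.exists_algEquiv_of_root` or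
`Normal.exists_algEquiv...`), which generate `E`, so `g = 1`.
-/

set_option autoImplicit false

noncomputable section

namespace Pool.Agent.Work.MP_e97a4d_nt

theorem exists_galois_closure (F : Type) [Field F] [CharZero F] (n : ℕ)
    (ξ : AlgebraicClosure F) (hn : (minpoly F ξ).natDegree ≤ n) :
    ∃ (E : IntermediateField F (AlgebraicClosure F)) (hξ : ξ ∈ E), FiniteDimensional F E ∧
      IsGalois F E ∧ Module.finrank F E ≤ n.factorial ∧
      ∀ g : Gal(E/F), (∀ τ : Gal(E/F), g (τ ⟨ξ, hξ⟩) = τ ⟨ξ, hξ⟩) → g = 1 := by
  classical
  set q : Polynomial F := minpoly F ξ with hq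
  have hint : IsIntegral F ξ := Algebra.IsIntegral.isIntegral ξ
  have hsp : (q.map (algebraMap F (AlgebraicClosure F))).Splits := IsAlgClosed.splits _
  let E : IntermediateField F (AlgebraicClosure F) :=
    IntermediateField.adjoin F (q.rootSet (AlgebraicClosure F))
  have hS : q.IsSplittingField F E := IntermediateField.adjoin_rootSet_isSplittingField hsp
  have hfd : FiniteDimensional F E := Polynomial.IsSplittingField.finiteDimensional E q
  have hirr : Irreducible q := minpoly.irreducible hint
  have hsep : q.Separable := hirr.separable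
  have hgal : IsGalois F E := IsGalois.of_separable_splitting_field hsep
  have hmem : ∀ x ∈ q.rootSet (AlgebraicClosure F), x ∈ E := fun x hx =>
    IntermediateField.subset_adjoin _ _ hx
  have hξ : ξ ∈ E := hmem ξ (Polynomial.mem_rootSet.2 ⟨minpoly.ne_zero hint, minpoly.aeval _ _⟩)
  refine ⟨E, hξ, hfd, hgal, ?_, ?_⟩
  · have e1 : Module.finrank F E = Module.finrank F q.SplittingField :=
      (Polynomial.IsSplittingField.algEquiv E q).toLinearEquiv.finrank_eq
    rw [e1, ← Polynomial.Gal.card_of_separable hsep]
    have : Fact ((q.map (algebraMap F (AlgebraicClosure F))).Splits) := ⟨hsp⟩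
    have h2 := Nat.card_le_card_of_injective _
      (Polynomial.Gal.galActionHom_injective q (AlgebraicClosure F))
    refine h2.trans ?_
    rw [Nat.card_perm, Nat.card_eq_fintype_card,
      Polynomial.card_rootSet_eq_natDegree hsep hsp]
    exact Nat.factorial_le hn
  · intro g hg
    have hroot : ∀ x (hx : x ∈ q.rootSet (AlgebraicClosure F)),
        g ⟨x, hmem x hx⟩ = ⟨x, hmem x hx⟩ := by
      intro x hx
      have hy : IsAlgebraic F (⟨ξ, hξ⟩ : E) := Algebra.IsAlgebraic.isAlgebraic _
      have hmin : minpoly F (⟨ξ, hξ⟩ : E) = q :=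
        (minpoly.algebraMap_eq (B := E) (B' := AlgebraicClosure F)
          (algebraMap E (AlgebraicClosure F)).injective ⟨ξ, hξ⟩).symm
      have h0 : Polynomial.aeval (⟨x, hmem x hx⟩ : E) (minpoly F (⟨ξ, hξ⟩ : E)) = 0 := by
        rw [hmin]
        apply Subtype.ext
        have h1 := (Polynomial.mem_rootSet.1 hx).2
        have h2 := Polynomial.aeval_algebraMap_apply (AlgebraicClosure F)
          (⟨x, hmem x hx⟩ : E) q
        have h3 : algebraMap E (AlgebraicClosure F) (⟨x, hmem x hx⟩ : E) = x := rfl
        rw [h3, h1] at h2
        exact h2.symm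
      obtain ⟨τ, hτ⟩ := minpoly.exists_algEquiv_of_root' hy h0
      rw [← hτ]
      exact hg τ
    have h1 : (g : E →ₐ[F] E) = AlgHom.id F E := by
      refine IntermediateField.algHom_ext_of_eq_adjoin F (S := E) rfl ?_
      intro x hx
      exact hroot x hx
    ext x
    exact congrArg Subtype.val (congrArg (fun f : E →ₐ[F] E => f x) h1)

end Pool.Agent.Work.MP_e97a4d_nt
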