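import Pool.Agent.Work.MP_e97a4d_nt.UE.HMdefs
import Pool.Agent.Work.MP_e97a4d_nt.UE.HMe2
import Pool.Agent.Work.MP_e97a4d_nt.UE.HMe3

/-!
# UE/HMe: the Galois closure of an element which generates extensions with unit discriminants

Proof. Take `E` from `exists_galois_closure F n ξ hn`; it is a number field (`NumberField.of_module_finite F E`).
Inertia: let `P` be a nonzero prime of `𝓞 E` not over `S`, and let `p : HeightOneSpectrum (𝓞 F)` have the
ideal `P.under (𝓞 F)` (prime, and nonzero because `𝓞 E` is integral over `𝓞 F`: `Ideal.under_ne_bot`-like),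
so `p ∉ S`. Let `h, ξ'` be given by `UnramRoot` for `p`. `ξ' ∈ F(ξ) ⊆ E`. For every `τ : Gal(E/F)`, `τ ξ'` is a
root of `h` in `E`, so `g (τ ξ') = τ ξ'` (`inertia_fix_root`). As `ξ ∈ F(ξ')`, `ξ` is a polynomial in `ξ'`
with coefficients in `F` (`ξ'` is algebraic), so `g (τ ξ) = τ ξ` for all `τ`, and `g = 1`.
-/

set_option autoImplicit false

noncomputable section

namespace Pool.Agent.Work.MP_e97a4d_nt

open NumberField IsDedekindDomain

theorem goodGal_of_unram (F : Type) [Field F] [NumberField F]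
    (S : Finset (HeightOneSpectrum (𝓞 F))) (n : ℕ) (ξ : AlgebraicClosure F)
    (hn : (minpoly F ξ).natDegree ≤ n) (h : UnramRoot F S n ξ) :
    ∃ E : IntermediateField F (AlgebraicClosure F), GoodGal F S n.factorial E ∧ ξ ∈ E := by
  obtain ⟨E, hξ, hfin, hgal, hdeg, hg⟩ := exists_galois_closure F n ξ hn
  refine ⟨E, ⟨hfin, hgal, hdeg, ?_⟩, hξ⟩
  intro P hP hP0 hPS g hgP
  have hnf : NumberField E := NumberField.of_module_finite F E
  have hp0 : P.under (𝓞 F) ≠ ⊥ := Ideal.under_ne_bot (A := 𝓞 F) hP0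
  let p : HeightOneSpectrum (𝓞 F) := ⟨P.under (𝓞 F), inferInstance, hp0⟩
  have hpS : p ∉ S := fun hm => hPS p hm rfl
  obtain ⟨q, ξ', hqm, hq0, hqn, hqi, hqd, hqr, h1, h2⟩ := h p hpS
  have hle : IntermediateField.adjoin F {ξ'} ≤ E := by
    rw [IntermediateField.adjoin_simple_le_iff]
    have h3 : IntermediateField.adjoin F {ξ} ≤ E := by
      rw [IntermediateField.adjoin_simple_le_iff]
      exact hξ
    exact h3 h1
  have hξ'E : ξ' ∈ E := hle (IntermediateField.mem_adjoin_simple_self F ξ')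
  apply hg
  intro τ
  have key : g (τ ⟨ξ', hξ'E⟩) = τ ⟨ξ', hξ'E⟩ := by
    refine inertia_fix_root ⟨P, hP, hP0⟩ p rfl g hgP q hqm hq0 hqi hqd _ ?_
    have e1 : Polynomial.aeval (⟨ξ', hξ'E⟩ : E) q = 0 := by
      apply (algebraMap E (AlgebraicClosure F)).injective
      rw [← Polynomial.aeval_algebraMap_apply, map_zero]
      exact hqr
    rw [← AlgEquiv.coe_toAlgHom, Polynomial.aeval_algHom_apply, e1, map_zero]
  have h4 : g (τ ⟨ξ, hle h2⟩) = τ ⟨ξ, hle h2⟩ := by
    refine IntermediateField.adjoin_induction F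
      (p := fun x hx => g (τ ⟨x, hle hx⟩) = τ ⟨x, hle hx⟩) ?_ ?_ ?_ ?_ ?_ h2
    · intro x hx
      rw [Set.mem_singleton_iff] at hx
      subst hx
      exact key
    · intro x
      have e2 : (⟨algebraMap F (AlgebraicClosure F) x, hle (IntermediateField.algebraMap_mem _ x)⟩ : E) =
          algebraMap F E x := rfl
      rw [e2, AlgEquiv.commutes, AlgEquiv.commutes]
    · intro x y hx hy h5 h6
      have e2 : (⟨x + y, hle (add_mem hx hy)⟩ : E) = ⟨x, hle hx⟩ + ⟨y, hle hy⟩ := rfl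
      rw [e2, map_add, map_add, h5, h6]
    · intro x hx h5
      have e2 : (⟨x⁻¹, hle (inv_mem hx)⟩ : E) = (⟨x, hle hx⟩ : E)⁻¹ := rfl
      rw [e2, map_inv₀, map_inv₀, h5]
    · intro x y hx hy h5 h6
      have e2 : (⟨x * y, hle (mul_mem hx hy)⟩ : E) = ⟨x, hle hx⟩ * ⟨y, hle hy⟩ := rfl
      rw [e2, map_mul, map_mul, h5, h6]
  exact h4

end Pool.Agent.Work.MP_e97a4d_nt
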