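import Pool.Agent.Work.MP_e97a4d_nt.UE.HMd
import Pool.Agent.Work.MP_e97a4d_nt.UE.HMe

/-!
# UE/HMz: one finite extension contains all elements of bounded degree unramified outside `S`

Proof. The supremum `E` of the finitely many fields of `goodGal_finite F S n.factorial` is finite over
`F` (`IntermediateField.finiteDimensional_iSup_of_finset` or `_of_finite`), and `goodGal_of_unram`.
-/

set_option autoImplicit false

noncomputable section

namespace Pool.Agent.Work.MP_e97a4d_nt

open NumberField IsDedekindDomain

theorem hm_final (F : Type) [Field F] [NumberField F] (S : Finset (HeightOneSpectrum (𝓞 F)))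
    (n : ℕ) : ∃ E : IntermediateField F (AlgebraicClosure F), FiniteDimensional F E ∧
      ∀ ξ : AlgebraicClosure F, (minpoly F ξ).natDegree ≤ n → UnramRoot F S n ξ → ξ ∈ E := by
  have hfin := goodGal_finite F S n.factorial
  refine ⟨⨆ E : {E : IntermediateField F (AlgebraicClosure F) | GoodGal F S n.factorial E}, E.1,
    ?_, fun ξ hn h => ?_⟩
  · have := hfin.to_subtype
    have : ∀ E : {E : IntermediateField F (AlgebraicClosure F) | GoodGal F S n.factorial E},
      FiniteDimensional F E.1 := fun E => E.2.fin
    exact IntermediateField.finiteDimensional_iSup_of_finite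
  · obtain ⟨E, hE, hξ⟩ := goodGal_of_unram F S n ξ hn h
    exact le_iSup (fun E : {E : IntermediateField F (AlgebraicClosure F) |
      GoodGal F S n.factorial E} => E.1) ⟨E, hE⟩ hξ

end Pool.Agent.Work.MP_e97a4d_nt
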