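import Pool.Agent.Work.MP_e97a4d_nt.UE.GBr
import Pool.Agent.Work.MP_e97a4d_nt.UE.HMz

/-!
# UE/SplitF: unramified extensions in the ultrapower of a number field

Proof. `T` is nonempty (`𝒰` is an ultrafilter) and there are primes outside `S` (there are infinitely many
height one primes in `𝓞 F`: search Mathlib and the folders Hyp, UP for an infinitude statement, or get
primes over infinitely many rational primes), so `h` gives some index `s₀`. Put `n := finrank κ L > 0`,
`ev t := Pi.evalRingHom _ t`. Take `P, ξ, Θ₁` from `germ_branches 𝒰 F Θ η hη s₀`. By `disc_map` (UE/Disc),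
`(P s).discr t = ((P s).map (ev t)).discr` and the germ of `(P s).discr` is `Θ (minpoly κ (η s)).discr`.

1. `UnramRoot F S n (ξ s₀ t)` for almost all `t`: by `transfer_forall` (with `X` the type of the primes
outside `S`, nonempty) it is enough to show for every `o : T → HeightOneSpectrum (𝓞 F)` with `o t ∉ S` that
for almost all `t` the statement of `UnramRoot` for the prime `o t` holds. `h o` gives `s`; by `mem_gV`, the
coefficients `(P s).coeff l t` with `l ≤ n` (finitely many; for `l > n` they are zero) are in the valuation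
ring of `o t` for almost all `t`, the discriminant `(P s).discr t` is nonzero and its inverse is in the
valuation ring; the discriminant itself is in the valuation ring `R` (it is the image of the
discriminant of the polynomial over `R`, `disc_map`), so its valuation is `1`. Use
`h := (P s).map (ev t)`, `ξ' := ξ s t`.
Also `(minpoly F (ξ s₀ t)).natDegree ≤ n` (`minpoly.min` or `minpoly.dvd`, `Polynomial.natDegree_le_of_dvd`).

2. `hm_final F S n` gives `E` with `ξ s₀ t ∈ E` for almost all `t`. Let `r : T → E` be this element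
(zero for the other `t`). `gMap 𝒰 (algebraMap E Ω)` is injective (a homomorphism of fields) and maps the
germ of `r` to `Θ₁ (η s₀)`; `gMap 𝒰 (algebraMap F Ω) = (gMap 𝒰 (algebraMap E Ω)).comp (gMap 𝒰 (algebraMap F E))`
(check on germs of functions), so `(minpoly κ (η s₀)).eval₂ ((gMap 𝒰 (algebraMap F E)).comp Θ) (germ of r) = 0`
(apply the injective map: it becomes `Θ₁ (aeval (η s₀) (minpoly κ (η s₀))) = 0`, `Polynomial.hom_eval₂`),
and `lift_root` gives `Θ'`.
-/

set_option autoImplicit false

noncomputable section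

namespace Pool.Agent.Work.MP_e97a4d_nt.UE

open Filter NumberField IsDedekindDomain

private theorem exists_prime_notMem (F : Type) [Field F] [NumberField F]
    (S : Finset (HeightOneSpectrum (𝓞 F))) : ∃ p : HeightOneSpectrum (𝓞 F), p ∉ S := by
  classical
  have h1 : ∀ p : Nat.Primes, ∃ P : HeightOneSpectrum (𝓞 F), ((p : ℕ) : 𝓞 F) ∈ P.asIdeal := by
    intro p
    have hpz : Prime ((p : ℕ) : ℤ) := Nat.prime_iff_prime_int.1 p.2
    have hmax : (Ideal.span {((p : ℕ) : ℤ)}).IsMaximal :=
      PrincipalIdealRing.isMaximal_of_irreducible hpz.irreducible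
    obtain ⟨Q, hQ, e⟩ := Ideal.exists_ideal_over_maximal_of_isIntegral (S := 𝓞 F)
      (Ideal.span {((p : ℕ) : ℤ)}) (by
        rw [(RingHom.injective_iff_ker_eq_bot _).1 (algebraMap ℤ (𝓞 F)).injective_int]
        exact bot_le)
    have hm : ((p : ℕ) : 𝓞 F) ∈ Q := by
      have h2 : ((p : ℕ) : ℤ) ∈ Q.comap (algebraMap ℤ (𝓞 F)) := by
        rw [e]
        exact Ideal.mem_span_singleton_self _
      simpa using h2
    refine ⟨⟨Q, hQ.isPrime, fun h => ?_⟩, hm⟩
    rw [h, Ideal.mem_bot] at hm
    exact p.2.ne_zero (by exact_mod_cast hm)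
  choose f hf using h1
  have hinj : Function.Injective f := by
    intro p q h
    by_contra hne
    have hcop : Nat.Coprime p q := (Nat.coprime_primes p.2 q.2).2 fun h => hne (Subtype.ext h)
    obtain ⟨a, b, hab⟩ := Nat.isCoprime_iff_coprime.2 hcop
    apply (f p).isPrime.ne_top
    rw [Ideal.eq_top_iff_one]
    have h2 : ((a : ℤ) : 𝓞 F) * ((p : ℕ) : 𝓞 F) + ((b : ℤ) : 𝓞 F) * ((q : ℕ) : 𝓞 F) = 1 := by
      exact_mod_cast congrArg (Int.cast : ℤ → 𝓞 F) hab
    rw [← h2]
    refine Ideal.add_mem _ (Ideal.mul_mem_left _ _ (hf p)) (Ideal.mul_mem_left _ _ ?_)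
    rw [h]
    exact hf q
  have : Infinite (HeightOneSpectrum (𝓞 F)) := Infinite.of_injective f hinj
  exact Infinite.exists_notMem_finset S

private theorem discr_mem {K : Type} [Field K] (V : ValuationSubring K) {Q : Polynomial K}
    (hQ : Q.Monic) (h0 : 0 < Q.natDegree) (h : ∀ l, Q.coeff l ∈ V) : Q.discr ∈ V := by
  have hl : Q ∈ Polynomial.lifts V.subtype := by
    rw [Polynomial.lifts_iff_coeff_lifts]
    intro l
    exact ⟨⟨Q.coeff l, h l⟩, rfl⟩
  obtain ⟨Q', h1, h2, h3⟩ := Polynomial.lifts_and_natDegree_eq_and_monic hl hQ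
  have h4 := disc_map V.subtype h3 (by rw [h2]; exact h0)
  rw [h1] at h4
  rw [h4]
  exact Q'.discr.2

theorem split_germ {T : Type} (𝒰 : Ultrafilter T) {κ L : Type} [Field κ] [Field L] [Algebra κ L]
    [FiniteDimensional κ L] (F : Type) [Field F] [NumberField F]
    (S : Finset (HeightOneSpectrum (𝓞 F))) (Θ : κ →+* Germ (𝒰 : Filter T) F) {r : ℕ}
    (η : Fin r → L) (hη : ∀ s, (minpoly κ (η s)).natDegree = Module.finrank κ L)
    (h : ∀ o : T → HeightOneSpectrum (𝓞 F), (∀ t, o t ∉ S) →
      ∃ s, (∀ l, Θ ((minpoly κ (η s)).coeff l) ∈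
          gV 𝒰 (fun t => ((o t).valuation F).valuationSubring)) ∧
        Θ (minpoly κ (η s)).discr ≠ 0 ∧
        (Θ (minpoly κ (η s)).discr)⁻¹ ∈ gV 𝒰 (fun t => ((o t).valuation F).valuationSubring)) :
    ∃ (E : IntermediateField F (AlgebraicClosure F)) (_ : FiniteDimensional F E)
      (Θ' : L →+* Germ (𝒰 : Filter T) E),
      Θ'.comp (algebraMap κ L) = (gMap 𝒰 (algebraMap F E)).comp Θ := by
  classical
  have hT : Nonempty T := Filter.nonempty_of_neBot (𝒰 : Filter T)
  obtain ⟨p₀, hp₀⟩ := exists_prime_notMem F S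
  obtain ⟨s₀, -⟩ := h (fun _ => p₀) (fun _ => hp₀)
  obtain ⟨n, hn⟩ : ∃ n, n = Module.finrank κ L := ⟨_, rfl⟩
  have hn0 : 0 < n := by rw [hn]; exact Module.finrank_pos
  obtain ⟨P, ξ, Θ₁, hP, hΘ₁, hξ, hev⟩ := germ_branches 𝒰 F Θ η hη s₀
  rw [← hn] at hP hη
  have hdeg : ∀ s t, ((P s).map (Pi.evalRingHom (fun _ : T => F) t)).natDegree = n := fun s t => by
    rw [(hP s).1.natDegree_map]
    exact (hP s).2.1
  haveI : Nonempty {p : HeightOneSpectrum (𝓞 F) // p ∉ S} := ⟨⟨p₀, hp₀⟩⟩
  have hunr : ∀ᶠ t in (𝒰 : Filter T), UnramRoot F S n (ξ s₀ t) := by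
    have h1 := transfer_forall 𝒰 (X := {p : HeightOneSpectrum (𝓞 F) // p ∉ S})
      (fun t p => ∃ (h : Polynomial F) (ξ' : AlgebraicClosure F),
        h.Monic ∧ 0 < h.natDegree ∧ h.natDegree ≤ n ∧ (∀ l, p.1.valuation F (h.coeff l) ≤ 1) ∧
        p.1.valuation F h.discr = 1 ∧ Polynomial.aeval ξ' h = 0 ∧
        ξ' ∈ IntermediateField.adjoin F {ξ s₀ t} ∧ ξ s₀ t ∈ IntermediateField.adjoin F {ξ'}) ?_
    · filter_upwards [h1] with t ht p hp
      exact ht ⟨p, hp⟩
    · intro o
      obtain ⟨s, hs1, hs2, hs3⟩ := h (fun t => (o t).1) (fun t => (o t).2)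
      have hco : ∀ᶠ t in (𝒰 : Filter T), ∀ l ∈ Finset.range (n + 1),
          (P s).coeff l t ∈ ((o t).1.valuation F).valuationSubring := by
        rw [Filter.eventually_all_finset]
        intro l _
        rw [← mem_gV 𝒰 (fun t => ((o t).1.valuation F).valuationSubring) ((P s).coeff l)]
        have h2 : (((P s).coeff l : T → F) : Germ (𝒰 : Filter T) F) =
            Θ ((minpoly κ (η s)).coeff l) := by
          have h3 := congrArg (fun Q => Q.coeff l) (hP s).2.2
          simp only [Polynomial.coeff_map] at h3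
          exact h3
        rw [h2]
        exact hs1 l
      have hdis : (((P s).discr : T → F) : Germ (𝒰 : Filter T) F) =
          Θ (minpoly κ (η s)).discr := by
        have e1 := disc_map (Germ.coeRingHom (𝒰 : Filter T)) (hP s).1
          (by rw [(hP s).2.1]; exact hn0)
        have e2 := disc_map Θ (minpoly.monic (IsIntegral.of_finite κ (η s)))
          (by rw [hη s]; exact hn0)
        rw [(hP s).2.2, e2] at e1
        exact e1.symm
      have hd0 : ∀ᶠ t in (𝒰 : Filter T), (P s).discr t ≠ 0 := by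
        rw [Ultrafilter.eventually_not]
        intro h3
        apply hs2
        rw [← hdis]
        exact Germ.coe_eq.2 h3
      have hd1 : ∀ᶠ t in (𝒰 : Filter T), ((P s).discr t)⁻¹ ∈
          ((o t).1.valuation F).valuationSubring := by
        have h3 := hs3
        rw [← hdis] at h3
        exact (mem_gV 𝒰 (fun t => ((o t).1.valuation F).valuationSubring)
          (fun t => ((P s).discr t)⁻¹)).1 h3
      filter_upwards [hev, hco, hd0, hd1] with t h1 h2 h3 h4
      have hcoe : ∀ l, ((P s).map (Pi.evalRingHom (fun _ : T => F) t)).coeff l ∈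
          ((o t).1.valuation F).valuationSubring := by
        intro l
        rw [Polynomial.coeff_map]
        by_cases hl : l ≤ n
        · exact h2 l (by rw [Finset.mem_range]; omega)
        · rw [Polynomial.coeff_eq_zero_of_natDegree_lt (by rw [(hP s).2.1]; omega), map_zero]
          exact zero_mem _
      have hde : ((P s).map (Pi.evalRingHom (fun _ : T => F) t)).discr = (P s).discr t :=
        disc_map (Pi.evalRingHom (fun _ : T => F) t) (hP s).1 (by rw [(hP s).2.1]; exact hn0)
      refine ⟨(P s).map (Pi.evalRingHom (fun _ : T => F) t), ξ s t, (hP s).1.map _,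
        by rw [hdeg]; exact hn0, (hdeg s t).le, fun l => ?_, ?_, (h1 s).1, (h1 s).2.1, (h1 s).2.2⟩
      · exact (Valuation.mem_valuationSubring_iff _ _).1 (hcoe l)
      · have h5 := discr_mem _ ((hP s).1.map (Pi.evalRingHom (fun _ : T => F) t))
          (by rw [hdeg]; exact hn0) hcoe
        rw [Valuation.mem_valuationSubring_iff] at h5 h4
        refine le_antisymm h5 ?_
        rw [hde]
        rw [map_inv₀] at h4
        have h6 : (o t).1.valuation F ((P s).discr t) ≠ 0 := (Valuation.ne_zero_iff _).2 h3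
        exact (inv_le_one₀ (zero_lt_iff.2 h6)).1 h4
  obtain ⟨E, hE, hEm⟩ := hm_final F S n
  have hin : ∀ᶠ t in (𝒰 : Filter T), ξ s₀ t ∈ E := by
    filter_upwards [hev, hunr] with t h1 h2
    refine hEm _ ?_ h2
    have h3 := minpoly.dvd F _ (h1 s₀).1
    exact (Polynomial.natDegree_le_of_dvd h3 ((hP s₀).1.map _).ne_zero).trans (hdeg s₀ t).le
  obtain ⟨ρ, hρ⟩ : ∃ ρ : T → E, ρ = fun t => if h : ξ s₀ t ∈ E then ⟨ξ s₀ t, h⟩ else 0 := ⟨_, rfl⟩
  have hr : gMap 𝒰 (algebraMap E (AlgebraicClosure F)) (ρ : Germ (𝒰 : Filter T) E) =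
      (ξ s₀ : Germ (𝒰 : Filter T) (AlgebraicClosure F)) := by
    rw [gMap_coe]
    refine Germ.coe_eq.2 ?_
    filter_upwards [hin] with t ht
    rw [hρ]
    simp only
    rw [dif_pos ht]
    rfl
  have hcomp : (gMap 𝒰 (algebraMap E (AlgebraicClosure F))).comp (gMap 𝒰 (algebraMap F E)) =
      gMap 𝒰 (algebraMap F (AlgebraicClosure F)) := by
    refine RingHom.ext fun x => ?_
    induction x using Germ.inductionOn with | _ f =>
    rw [RingHom.comp_apply, gMap_coe, gMap_coe, gMap_coe]
    refine congrArg _ (funext fun t => ?_)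
    exact (IsScalarTower.algebraMap_apply F E (AlgebraicClosure F) (f t)).symm
  have heval : (minpoly κ (η s₀)).eval₂ ((gMap 𝒰 (algebraMap F E)).comp Θ)
      (ρ : Germ (𝒰 : Filter T) E) = 0 := by
    apply (gMap 𝒰 (algebraMap E (AlgebraicClosure F))).injective
    rw [map_zero, Polynomial.hom_eval₂, ← RingHom.comp_assoc, hcomp, ← hΘ₁, hr, ← hξ s₀,
      ← Polynomial.hom_eval₂]
    have h5 : (minpoly κ (η s₀)).eval₂ (algebraMap κ L) (η s₀) = 0 := minpoly.aeval κ (η s₀)
    rw [h5, map_zero]
  obtain ⟨Θ', hΘ', -⟩ := lift_root (η s₀) (by rw [← hn]; exact hη s₀)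
    ((gMap 𝒰 (algebraMap F E)).comp Θ) (ρ : Germ (𝒰 : Filter T) E) heval
  exact ⟨E, hE, Θ', hΘ'⟩

end Pool.Agent.Work.MP_e97a4d_nt.UE
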