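import Pool.Agent.Work.MP_e97a4d_nt.Hyp.IntFin
import Pool.Agent.Work.MP_e97a4d_nt.Hyp.IntGlue
import Pool.Agent.Work.MP_e97a4d_nt.UG.Res
import Pool.Agent.Work.MP_e97a4d_nt.UG.Frac
import Pool.Agent.Work.MP_e97a4d_nt.UP.PBII
import Pool.Agent.Work.MP_e97a4d_nt.UE.ExtU
import Pool.Agent.Work.MP_e97a4d_nt.UE.ExtE
import Pool.Agent.Work.MP_e97a4d_nt.UE.ExtG
import Pool.Agent.Work.MP_e97a4d_nt.UE.SplitF
import Pool.Agent.Work.MP_e97a4d_nt.UE.Above

/-!
# UE/PointV: integral points when the function fields are generated by units on etale covers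
-/

set_option autoImplicit false

noncomputable section

namespace Pool.Agent.Work.MP_e97a4d_nt.UE

open AlgebraicGeometry CategoryTheory IsDedekindDomain NumberField
open Hyp Vp Filter

variable {F₀ : Type} [Field F₀] {V V' : Scheme.{0}}

open Pool.Agent.Work.UP in
/-- Integral polynomials in units and constants as Laurent polynomials. -/
private def toLq {F : Type} [Field F] (n : ℕ) {r : ℕ} (γ : Fin r → F) :
    MvPolynomial (Fin n ⊕ Fin r) ℤ →+* Lp F n :=
  MvPolynomial.eval₂Hom (Int.castRingHom (Lp F n))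
    (Sum.elim (fun m => AddMonoidAlgebra.single (Pi.single m 1) 1) (fun k => lC (γ k)))

open Pool.Agent.Work.UP in
private theorem evk_toLq {F : Type} [Field F] {n r : ℕ} (γ : Fin r → F) (u : Fin n → Fˣ)
    (q : MvPolynomial (Fin n ⊕ Fin r) ℤ) :
    evk u (toLq n γ q) = MvPolynomial.aeval (Sum.elim (cu u) γ) q := by
  have h : (evk u).comp (toLq n γ) =
      ((MvPolynomial.aeval (Sum.elim (cu u) γ) : MvPolynomial (Fin n ⊕ Fin r) ℤ →ₐ[ℤ] F) :
        MvPolynomial (Fin n ⊕ Fin r) ℤ →+* F) := by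
    apply MvPolynomial.ringHom_ext
    · intro a
      simp
    · intro m
      rw [RingHom.comp_apply, toLq, MvPolynomial.eval₂Hom_X']
      rcases m with m | k
      · simp only [Sum.elim_inl, RingHom.coe_coe, MvPolynomial.aeval_X]
        rw [ev_single, mon_single_one, map_one, one_mul]
      · simp only [Sum.elim_inr, RingHom.coe_coe, MvPolynomial.aeval_X]
        rw [ev_lC, RingHom.id_apply]
  exact RingHom.congr_fun h q

/-- An element of `F` which is, together with its inverse, in the valuation rings outside `S`. -/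
private theorem unit_of_val {F : Type} [Field F] [NumberField F] {S : Finset (HeightOneSpectrum (𝓞 F))}
    {n : ℕ} (U : Fin n → F) (h0 : ∀ m, U m ≠ 0) (h1 : ∀ m, ∀ O ∈ VF F S, U m ∈ O)
    (h2 : ∀ m, ∀ O ∈ VF F S, (U m)⁻¹ ∈ O) :
    Pool.Agent.Work.UP.IsUv S (Pool.Agent.Work.UP.cu (fun m => Units.mk0 (U m) (h0 m))) := by
  intro m
  have hc : Pool.Agent.Work.UP.cu (fun m => Units.mk0 (U m) (h0 m)) m = U m := rfl
  rw [hc]
  have key : ∀ x : F, (∀ O ∈ VF F S, x ∈ O) → ∀ p ∉ S, FinitePlace.mk p x ≤ 1 := by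
    intro x hx p hp
    have h3 : x ∈ (S : Set (HeightOneSpectrum (𝓞 F))).integer F := by
      intro v hv
      have h4 := hx _ ⟨v, hv, rfl⟩
      rw [Valuation.mem_valuationSubring_iff] at h4
      exact h4
    exact (mem_integer_iff S _).1 h3 p hp
  refine ⟨h0 m, fun p hp => ?_⟩
  have e1 := key _ (h1 m) p hp
  have e2 := key _ (h2 m) p hp
  have e3 : FinitePlace.mk p (U m) * FinitePlace.mk p (U m)⁻¹ = 1 := by
    rw [← map_mul, mul_inv_cancel₀ (h0 m), map_one]
  have e4 : (0 : ℝ) ≤ FinitePlace.mk p (U m) := apply_nonneg _ _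
  refine le_antisymm e1 ?_
  rw [← e3]
  exact mul_le_of_le_one_right e4 e2

theorem condII_of_unitGen [NumberField F₀] (σ : F₀ →+* ℂ)
    (π : V ⟶ Spec (CommRingCat.of (𝓞 F₀))) [LocallyOfFiniteType π] [QuasiCompact π]
    (i : V' ⟶ V) [IsClosedImmersion i] (hU : UE.UnitGen σ π i) (hGm : CondGm σ π i) :
    CondII π i := by
  classical
  intro F _ _ _ S
  obtain ⟨𝒜⟩ := nonempty_atlas π
  have hfin := 𝒜.fin
  by_contra hinf
  set Y : Set (Spec (CommRingCat.of (SInt F S)) ⟶ V) :=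
    {y ∈ integralPoints π F S | ¬ ∃ z : Spec (CommRingCat.of (SInt F S)) ⟶ V', z ≫ i = y} with hY
  have hinf' : Y.Infinite := hinf
  obtain ⟨b, hb⟩ : ∃ b : 𝒜.β,
      {y ∈ Y | gpt y (⊥ : PrimeSpectrum F) ∈ Set.range (𝒜.j b)}.Infinite := by
    by_contra hcon
    push Not at hcon
    apply hinf'
    refine (Set.finite_iUnion fun b => hcon b).subset ?_
    intro y hy
    obtain ⟨b, hb⟩ := 𝒜.cov (gpt y (⊥ : PrimeSpectrum F))
    exact Set.mem_iUnion.2 ⟨b, hy, hb⟩
  have := 𝒜.oi b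
  have := 𝒜.finι b
  set j := 𝒜.j b with hj
  let T : Type := {y : Spec (CommRingCat.of (SInt F S)) ⟶ V // y ∈ Y ∧
    gpt y (⊥ : PrimeSpectrum F) ∈ Set.range (𝒜.j b)}
  have hTinf : Infinite T := hb.to_subtype
  have hP0 : ∀ y : T, ∃ P : 𝒜.B b →+* F, Spec.map (CommRingCat.ofHom P) ≫ j = gpt y.1 := fun y =>
    exists_hom_of_mem (gpt y.1) j y.2.2
  choose P hP using hP0
  set τ : 𝓞 F₀ →+* F := (algebraMap F₀ F).comp (algebraMap (𝓞 F₀) F₀) with hτ
  have hPτ : ∀ y : T, (P y).comp (𝒜.ψ b) = τ := fun y =>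
    str_of_gpt y.2.1.1 (𝒜.str b) (hP y).symm
  have hτinj : Function.Injective τ :=
    (algebraMap F₀ F).injective.comp (IsFractionRing.injective (𝓞 F₀) F₀)
  let 𝒰 : Ultrafilter T := hyperfilter T
  let E : (T → F) →+* Germ (𝒰 : Filter T) F := Germ.coeRingHom (𝒰 : Filter T)
  have hE : ∀ f g : T → F, E f = E g ↔ ∀ᶠ y in (𝒰 : Filter T), f y = g y := fun f g => Germ.coe_eq
  have hE0 : ∀ f : T → F, E f = 0 ↔ ∀ᶠ y in (𝒰 : Filter T), f y = 0 := fun f => by
    rw [← map_zero E, hE]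
    rfl
  have hEne : ∀ f : T → F, E f ≠ 0 → ∀ᶠ y in (𝒰 : Filter T), f y ≠ 0 := fun f hf => by
    rw [Ne, hE0] at hf
    exact Ultrafilter.eventually_not.2 hf
  set Φ : 𝒜.B b →+* Germ (𝒰 : Filter T) F := E.comp (RingHom.pi P) with hΦ
  have hΦa : ∀ a, Φ a = E (fun y => P y a) := fun a => rfl
  -- eventually the kernel of `P y` contains the kernel of `Φ`
  have hnoeth : IsNoetherianRing (𝒜.B b) :=
    isNoetherianRing_of_surjective _ _ (MvPolynomial.eval₂Hom (𝒜.ψ b) (𝒜.x b)) (𝒜.gen b)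
  have hgood : ∀ᶠ y in (𝒰 : Filter T), ∀ a, Φ a = 0 → P y a = 0 := by
    obtain ⟨s, hs⟩ := (isNoetherianRing_iff_ideal_fg _).1 hnoeth (RingHom.ker Φ)
    have h1 : ∀ᶠ y in (𝒰 : Filter T), ∀ a ∈ s, P y a = 0 := by
      rw [Filter.eventually_all_finset]
      intro a ha
      have h2 : a ∈ RingHom.ker Φ := by
        rw [← hs]
        exact Ideal.subset_span ha
      exact (hE0 _).1 h2
    filter_upwards [h1] with y hy a ha
    have h3 : RingHom.ker Φ ≤ RingHom.ker (P y) := by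
      rw [← hs, Ideal.span_le]
      exact fun a ha => hy a ha
    exact h3 ha
  set x : Spec (CommRingCat.of (Germ (𝒰 : Filter T) F)) ⟶ V :=
    Spec.map (CommRingCat.ofHom Φ) ≫ j with hx
  set v : V := x (⊥ : PrimeSpectrum (Germ (𝒰 : Filter T) F)) with hv
  have hvj : v ∈ Set.range j := ⟨_, rfl⟩
  -- the points are not in `V'`
  have hout : ∀ y : T, gpt y.1 (⊥ : PrimeSpectrum F) ∉ Set.range i := by
    intro y hy
    exact y.2.1.2 (closed_of_gpt i y.1 ((factors_iff_mem_range i (gpt y.1)).2 hy))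
  have hvi : v ∉ Set.range i := by
    obtain ⟨y, hy⟩ := hgood.exists
    intro hcon
    let O : V.Opens := ⟨(Set.range i)ᶜ, i.isClosedEmbedding.isClosed_range.isOpen_compl⟩
    have h1 : (Spec.map (CommRingCat.ofHom (P y)) ≫ j) (⊥ : PrimeSpectrum F) ∈ O := by
      rw [hP y]
      exact hout y
    obtain ⟨a, ha, haO⟩ := exists_elt j (P y) O h1
    have h2 : Φ a ≠ 0 := fun h => ha (hy a h)
    have h3 : j (PrimeSpectrum.comap Φ ⊥) ∈ O := haO _ (fun h => h2 h)
    exact h3 hcon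
  have hstr : x ≫ π = Spec.map (CommRingCat.ofHom (Φ.comp (𝒜.ψ b))) := by
    rw [hx, Category.assoc, 𝒜.str b, ← Spec.map_comp]
    rfl
  obtain ⟨Θ, hΘ⟩ := exists_theta x v rfl
  obtain ⟨α, hα, hαs⟩ := exists_alpha j v hvj
  have hΘα : ∀ b, Θ (α b) = Φ b := theta_alpha j α hα Φ Θ hΘ
  have hΘs : Θ.comp (UE.strAt π v) = Φ.comp (𝒜.ψ b) := theta_str π x _ hstr v Θ hΘ
  have hρinj : Function.Injective (Φ.comp (𝒜.ψ b)) := by
    rw [injective_iff_map_eq_zero]
    intro a ha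
    have h1 : ∀ᶠ y in (𝒰 : Filter T), P y (𝒜.ψ b a) = 0 := (hE0 _).1 ha
    obtain ⟨y, hy⟩ := h1.exists
    have h2 : τ a = 0 := by rw [← hPτ y]; exact hy
    exact hτinj (by rw [h2, map_zero])
  have hsinj : Function.Injective (UE.strAt π v) := by
    have h2 : Function.Injective (Θ.comp (UE.strAt π v)) := by rw [hΘs]; exact hρinj
    exact Function.Injective.of_comp h2
  rcases hU v hvi hsinj with ⟨p, hp, hpv⟩ | ⟨L, hL1, hL2, hfd, hEt, hgen⟩
  · obtain ⟨p', hp'⟩ := hGm p hp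
    exact hvi ⟨p' (⊥ : PrimeSpectrum ℂ), by rw [← hpv, ← hp']; rfl⟩
  obtain ⟨n, r, u, c, A, D, hu, hc, hAD⟩ := exists_frac (UE.unitsAt v L) (UE.constAt π v L)
    (fun l => algebraMap (V.residueField v) L (α (𝒜.x b l))) (fun l => hgen _)
  have hu0 : ∀ m, u m ≠ 0 := fun m => (hu m).1
  -- the exceptional integers
  obtain ⟨N₀, s, η, hN₀, hη, hext0⟩ := etale_ext π v L hEt
  choose N₁ hN₁ hint1 using fun m => integral_ext π v (u m) (hu m).2.1
  choose N₂ hN₂ hint2 using fun m => integral_ext π v (u m)⁻¹ (hu m).2.2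
  set N : ℕ := N₀ * ((∏ m, N₁ m) * ∏ m, N₂ m) with hN
  have hNne : N ≠ 0 := by
    rw [hN]
    exact mul_ne_zero hN₀ (mul_ne_zero (Finset.prod_ne_zero_iff.2 fun m _ => hN₁ m)
      (Finset.prod_ne_zero_iff.2 fun m _ => hN₂ m))
  have hdvd0 : N₀ ∣ N := Dvd.intro _ rfl
  have hdvd1 : ∀ m, N₁ m ∣ N := fun m =>
    ((Finset.dvd_prod_of_mem N₁ (Finset.mem_univ m)).mul_right _).mul_left _
  have hdvd2 : ∀ m, N₂ m ∣ N := fun m =>
    ((Finset.dvd_prod_of_mem N₂ (Finset.mem_univ m)).mul_left _).mul_left _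
  obtain ⟨S₁, hS₁, hbad⟩ := exists_bad F S N hNne
  -- natural numbers in ultrapowers
  have hcast : ∀ (K : Type) [Field K] [CharZero K] (a : ℕ), a ≠ 0 →
      (a : Germ (𝒰 : Filter T) K) ≠ 0 := by
    intro K _ _ a ha h
    have h1 : ((fun _ => (a : K) : T → K) : Germ (𝒰 : Filter T) K) = 0 := h
    have h2 : ∀ᶠ _ in (𝒰 : Filter T), (a : K) = 0 := Germ.coe_eq.1 h1
    obtain ⟨_, h3⟩ := h2.exists
    exact ha (Nat.cast_eq_zero.1 h3)
  have hcastinv : ∀ (K : Type) [Field K] (O : T → ValuationSubring K) (a : ℕ),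
      (∀ t, (a : K)⁻¹ ∈ O t) → (a : Germ (𝒰 : Filter T) K)⁻¹ ∈ gV 𝒰 O := by
    intro K _ O a h
    exact ⟨fun _ => (a : K)⁻¹, h, rfl⟩
  -- the point extends over the ultraproducts of valuation rings
  have hextO : ∀ o : T → HeightOneSpectrum (𝓞 F), (∀ t, o t ∉ S₁) →
      HasExt (gV 𝒰 (fun t => ((o t).valuation F).valuationSubring))
        (Spec.map (CommRingCat.ofHom Θ) ≫ V.fromSpecResidueField v) := by
    intro o ho
    rw [hΘ]
    refine hasExt_germ π 𝒰 j P Φ (fun a => rfl) hgood _ (fun t => ?_)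
    rw [hP t]
    exact (gen_mem π i F S t.1 t.2.1.1 t.2.1.2).2.2 _ ⟨o t, fun h => ho t (hS₁ h), rfl⟩
  have hNinv : ∀ o : T → HeightOneSpectrum (𝓞 F), (∀ t, o t ∉ S₁) →
      (N : Germ (𝒰 : Filter T) F)⁻¹ ∈ gV 𝒰 (fun t => ((o t).valuation F).valuationSubring) :=
    fun o ho => hcastinv F _ N (fun t => hbad (o t) (ho t))
  -- the extension of the ground field
  obtain ⟨E', hE'fd, Θ', hΘ'⟩ := split_germ 𝒰 F S₁ Θ η hη (fun o ho =>
    hext0 _ Θ _ (hextO o ho) (hcast F N₀ hN₀)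
      (natCast_inv_mem_of_dvd _ hdvd0 (hcast F N hNne) (hNinv o ho)))
  obtain ⟨F', hF'1, hF'2, ι, Θ'', hΘ''⟩ : ∃ (F' : Type) (_ : Field F') (_ : NumberField F')
      (ι : F →+* F') (Θ'' : L →+* Germ (𝒰 : Filter T) F'),
      Θ''.comp (algebraMap (V.residueField v) L) = (gMap 𝒰 ι).comp Θ :=
    ⟨E', inferInstance, NumberField.of_module_finite F E', algebraMap F E', Θ', hΘ'⟩
  clear hΘ' Θ' hE'fd E'
  let _ : Algebra F₀ F' := (ι.comp (algebraMap F₀ F)).toAlgebra
  obtain ⟨S₂, hS₂⟩ := exists_above ι S₁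
  let E₁ : (T → F') →+* Germ (𝒰 : Filter T) F' := Germ.coeRingHom (𝒰 : Filter T)
  have hE₁ : ∀ f g : T → F', E₁ f = E₁ g ↔ ∀ᶠ y in (𝒰 : Filter T), f y = g y :=
    fun f g => Germ.coe_eq
  have hE₁0 : ∀ f : T → F', E₁ f = 0 ↔ ∀ᶠ y in (𝒰 : Filter T), f y = 0 := fun f => by
    rw [← map_zero E₁, hE₁]
    rfl
  have hE₁ne : ∀ f : T → F', E₁ f ≠ 0 → ∀ᶠ y in (𝒰 : Filter T), f y ≠ 0 := fun f hf => by
    rw [Ne, hE₁0] at hf
    exact Ultrafilter.eventually_not.2 hf
  let P' : T → (𝒜.B b →+* F') := fun t => ι.comp (P t)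
  let τ' : 𝓞 F₀ →+* F' := ι.comp τ
  have hP'τ : ∀ y : T, (P' y).comp (𝒜.ψ b) = τ' := fun y => by
    show (ι.comp (P y)).comp (𝒜.ψ b) = ι.comp τ
    rw [RingHom.comp_assoc, hPτ]
  have hτ'inj : Function.Injective τ' := ι.injective.comp hτinj
  have hΘ''α : ∀ a, Θ'' (algebraMap (V.residueField v) L (α a)) = E₁ (fun y => P' y a) := by
    intro a
    have h1 := RingHom.congr_fun hΘ'' (α a)
    rw [RingHom.comp_apply, RingHom.comp_apply, hΘα] at h1
    exact h1
  -- the constants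
  have hconst : ∀ k, ∃ γ : F', Θ'' (c k) = E₁ (fun _ => γ) := by
    intro k
    obtain ⟨p, hp, hpc⟩ := hc k
    obtain ⟨C, hC⟩ : ∃ C : T → F', E₁ C = Θ'' (c k) := by
      induction hh : Θ'' (c k) using Germ.inductionOn with
      | _ f => exact ⟨f, rfl⟩
    let κ : 𝓞 F₀ →+* (T → F') := (RingHom.pi P').comp (𝒜.ψ b)
    have h1 : E₁ (p.eval₂ κ C) = 0 := by
      rw [Polynomial.hom_eval₂, hC]
      have h2 : E₁.comp κ = Θ''.comp ((algebraMap (V.residueField v) L).comp (UE.strAt π v)) := by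
        have h3 : Θ''.comp ((algebraMap (V.residueField v) L).comp (UE.strAt π v)) =
            (Θ''.comp (algebraMap (V.residueField v) L)).comp (UE.strAt π v) := rfl
        rw [h3, hΘ'', RingHom.comp_assoc, hΘs]
        rfl
      rw [h2, ← Polynomial.hom_eval₂, hpc, map_zero]
    have h2 : ∀ᶠ y in (𝒰 : Filter T), ∃ γ ∈ {γ : F' | (p.map τ').IsRoot γ}, C y = γ := by
      filter_upwards [(hE₁0 _).1 h1] with y hy
      refine ⟨C y, ?_, rfl⟩
      have h3 : (Pi.evalRingHom (fun _ : T => F') y) (p.eval₂ κ C) = 0 := hy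
      rw [Polynomial.hom_eval₂] at h3
      have h4 : (Pi.evalRingHom (fun _ : T => F') y).comp κ = τ' := hP'τ y
      rw [h4] at h3
      show (p.map τ').eval (C y) = 0
      rw [Polynomial.eval_map]
      exact h3
    have hp0 : p.map τ' ≠ 0 := by
      rw [Ne, Polynomial.map_eq_zero_iff hτ'inj]
      rintro rfl
      exact hp (Polynomial.map_zero _)
    rw [Ultrafilter.eventually_exists_mem_iff (Polynomial.finite_setOfPred_isRoot hp0)] at h2
    obtain ⟨γ, -, hγ⟩ := h2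
    exact ⟨γ, by rw [← hC, hE₁]; exact hγ⟩
  choose γ hγ using hconst
  -- the units
  have hU0 : ∀ m, ∃ w : T → F', E₁ w = Θ'' (u m) := by
    intro m
    induction hh : Θ'' (u m) using Germ.inductionOn with
    | _ f => exact ⟨f, rfl⟩
  choose w hw using hU0
  have hwne : ∀ᶠ y in (𝒰 : Filter T), ∀ m, w m y ≠ 0 := by
    rw [Filter.eventually_all]
    intro m
    refine hE₁ne _ ?_
    rw [hw]
    exact (map_ne_zero Θ'').2 (hu0 m)
  have hwval : ∀ᶠ y in (𝒰 : Filter T), ∀ m, ∀ O ∈ VF F' S₂, w m y ∈ O ∧ (w m y)⁻¹ ∈ O := by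
    rw [Filter.eventually_all]
    intro m
    have h1 : ∀ᶠ y in (𝒰 : Filter T), ∀ q : {q : HeightOneSpectrum (𝓞 F') // q ∉ S₂},
        w m y ∈ (q.1.valuation F').valuationSubring ∧
          (w m y)⁻¹ ∈ (q.1.valuation F').valuationSubring := by
      apply transfer_forall'
      intro o
      choose p hpS hp using fun q : {q : HeightOneSpectrum (𝓞 F') // q ∉ S₂} => hS₂ q.1 q.2
      have hinj : (gMap 𝒰 ι) (N : Germ (𝒰 : Filter T) F) = (N : Germ (𝒰 : Filter T) F') :=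
        map_natCast _ _
      have hmem := gMap_mem 𝒰 ι (fun t => ((p (o t)).valuation F).valuationSubring)
        (fun t => ((o t).1.valuation F').valuationSubring) (fun t => hp (o t))
      have hNi : (N : Germ (𝒰 : Filter T) F')⁻¹ ∈
          gV 𝒰 (fun t => ((o t).1.valuation F').valuationSubring) := by
        have h2 := hmem _ (hNinv (fun t => p (o t)) (fun t => hpS (o t)))
        rw [map_inv₀, hinj] at h2
        exact h2
      have hx := hextO (fun t => p (o t)) (fun t => hpS (o t))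
      have e1 := hint1 m _ _ (gMap 𝒰 ι) Θ Θ'' hΘ'' _ _ hmem hx (hcast F' _ (hN₁ m))
        (natCast_inv_mem_of_dvd _ (hdvd1 m) (hcast F' N hNne) hNi)
      have e2 := hint2 m _ _ (gMap 𝒰 ι) Θ Θ'' hΘ'' _ _ hmem hx (hcast F' _ (hN₂ m))
        (natCast_inv_mem_of_dvd _ (hdvd2 m) (hcast F' N hNne) hNi)
      rw [map_inv₀] at e2
      rw [← hw] at e1 e2
      exact ((mem_gV 𝒰 _ _).1 e1).and ((mem_gV 𝒰 _ (fun t => (w m t)⁻¹)).1 e2)
    filter_upwards [h1] with y hy
    rintro _ ⟨q, hq, rfl⟩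
    exact hy ⟨q, hq⟩
  let W : Fin n ⊕ Fin r → (T → F') := Sum.elim w (fun k _ => γ k)
  have hΘW : ∀ s, Θ'' (Sum.elim u c s) = E₁ (W s) := by
    rintro (m | k)
    · exact (hw m).symm
    · exact hγ k
  have hΘq : ∀ q : MvPolynomial (Fin n ⊕ Fin r) ℤ, Θ'' (MvPolynomial.aeval (Sum.elim u c) q) =
      E₁ (fun y => MvPolynomial.aeval (fun s => W s y) q) := by
    intro q
    have h1 : (Θ''.comp ((MvPolynomial.aeval (Sum.elim u c) :
          MvPolynomial (Fin n ⊕ Fin r) ℤ →ₐ[ℤ] L) :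
          MvPolynomial (Fin n ⊕ Fin r) ℤ →+* L)) =
        E₁.comp (RingHom.pi (fun y => ((MvPolynomial.aeval (fun s => W s y) :
          MvPolynomial (Fin n ⊕ Fin r) ℤ →ₐ[ℤ] F') :
          MvPolynomial (Fin n ⊕ Fin r) ℤ →+* F'))) := by
      apply MvPolynomial.ringHom_ext
      · intro a
        rw [eq_intCast (MvPolynomial.C) a, map_intCast, map_intCast]
      · intro s
        have e1 : (E₁.comp (RingHom.pi (fun y => ((MvPolynomial.aeval (fun s => W s y) :
          MvPolynomial (Fin n ⊕ Fin r) ℤ →ₐ[ℤ] F') :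
          MvPolynomial (Fin n ⊕ Fin r) ℤ →+* F')))) (MvPolynomial.X s) = E₁ (W s) := by
          rw [RingHom.comp_apply]
          congr 1
          funext y
          exact MvPolynomial.aeval_X _ _
        rw [e1, ← hΘW, RingHom.comp_apply]
        congr 1
        exact MvPolynomial.aeval_X _ _
    exact RingHom.congr_fun h1 q
  have hev2 : ∀ᶠ y in (𝒰 : Filter T), ∀ l, MvPolynomial.aeval (fun s => W s y) (D l) ≠ 0 ∧
      P' y (𝒜.x b l) * MvPolynomial.aeval (fun s => W s y) (D l) =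
        MvPolynomial.aeval (fun s => W s y) (A l) := by
    rw [Filter.eventually_all]
    intro l
    refine Filter.Eventually.and ?_ ?_
    · exact hE₁ne _ (by rw [← hΘq]; exact (map_ne_zero Θ'').2 (hAD l).1)
    · have h1 : E₁ ((fun y => P' y (𝒜.x b l)) *
          (fun y => MvPolynomial.aeval (fun s => W s y) (D l))) =
          E₁ (fun y => MvPolynomial.aeval (fun s => W s y) (A l)) := by
        rw [map_mul, ← hΘq, ← hΘq, ← hΘ''α, ← map_mul]
        exact congrArg Θ'' (hAD l).2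
      exact (hE₁ _ _).1 h1
  -- the points over the extension
  have hPts : ∀ y : T, Spec.map (CommRingCat.ofHom (P' y)) ≫ j ∈ Pts π i (rhoF F₀ F') (VF F' S₂) := by
    intro y
    obtain ⟨g1, g2, g3⟩ := gen_mem π i F S y.1 y.2.1.1 y.2.1.2
    have e0 : Spec.map (CommRingCat.ofHom (P' y)) ≫ j =
        Spec.map (CommRingCat.ofHom ι) ≫ gen y.1 := by
      show Spec.map (CommRingCat.ofHom (ι.comp (P y))) ≫ j = _
      have h1 : gen y.1 = gpt y.1 := rfl
      rw [h1, ← hP y, ← Category.assoc, ← Spec.map_comp]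
      rfl
    rw [e0]
    refine ⟨?_, ?_, ?_⟩
    · rw [Category.assoc, g1, ← Spec.map_comp]
      rfl
    · have h1 : (Spec.map (CommRingCat.ofHom ι) ≫ gen y.1) (⊥ : PrimeSpectrum F') =
          (gen y.1) (⊥ : PrimeSpectrum F) := by
        show (gen y.1) (Spec.map (CommRingCat.ofHom ι) (⊥ : PrimeSpectrum F')) = _
        congr 1
        exact Subsingleton.elim (α := PrimeSpectrum F) _ _
      rw [h1]
      exact g2
    · rintro _ ⟨q, hq, rfl⟩
      obtain ⟨p, hpS, hp⟩ := hS₂ q hq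
      obtain ⟨y', hy'⟩ := g3 _ ⟨p, fun h => hpS (hS₁ h), rfl⟩
      have hcod : ∀ x : (p.valuation F).valuationSubring, ι x ∈ (q.valuation F').valuationSubring :=
        fun x => hp x x.2
      refine ⟨Spec.map (CommRingCat.ofHom (((ι.comp
        (algebraMap (p.valuation F).valuationSubring F)).codRestrict
          (q.valuation F').valuationSubring.toSubring hcod))) ≫ y', ?_⟩
      rw [← hy', ← Category.assoc, ← Category.assoc, ← Spec.map_comp, ← Spec.map_comp]
      rfl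
  -- almost all points are parametrised by units over the extension
  have hPar : ∀ᶠ y in (𝒰 : Filter T), Spec.map (CommRingCat.ofHom (P' y)) ≫ j ∈
      gen '' Par i 𝒜 F' S₂ b (fun l => toLq n γ (A l)) (fun l => toLq n γ (D l)) := by
    filter_upwards [hwne, hwval, hev2] with y h1 h1' h2
    obtain ⟨z, hz1, hz2, hz3⟩ := int_glue π i F' S₂ _ (hPts y)
    refine ⟨z, ⟨hz1, ⟨fun m => Units.mk0 _ (h1 m), P' y, unit_of_val _ h1
      (fun m O hO => (h1' m O hO).1) (fun m O hO => (h1' m O hO).2), hz2, fun l => ?_⟩, hz3⟩, hz2⟩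
    have h3 : ∀ q : MvPolynomial (Fin n ⊕ Fin r) ℤ,
        evk (fun m => Units.mk0 (w m y) (h1 m)) (toLq n γ q) =
          MvPolynomial.aeval (fun s => W s y) q := by
      intro q
      rw [evk_toLq]
      congr 2
      funext s
      rcases s with m | k <;> rfl
    refine ⟨by rw [h3]; exact (h2 l).1, ?_⟩
    rw [h3, h3, eq_div_iff (h2 l).1]
    exact (h2 l).2
  have hfinP := (par_finite σ i hGm 𝒜 F' S₂ n b (fun l => toLq n γ (A l))
    (fun l => toLq n γ (D l))).image gen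
  have hfinT : {y : T | Spec.map (CommRingCat.ofHom (P' y)) ≫ j ∈
      gen '' Par i 𝒜 F' S₂ b (fun l => toLq n γ (A l)) (fun l => toLq n γ (D l))}.Finite := by
    refine (hfinP.biUnion (t := fun x₀ => {y : T | Spec.map (CommRingCat.ofHom (P' y)) ≫ j = x₀})
      fun x₀ _ => ?_).subset fun y hy => Set.mem_biUnion hy rfl
    rcases Set.eq_empty_or_nonempty {y : T | Spec.map (CommRingCat.ofHom (P' y)) ≫ j = x₀} with h | h
    · rw [h]
      exact Set.finite_empty
    · obtain ⟨y₀, hy₀⟩ := h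
      refine ((int_fin π F S (gen y₀.1)).preimage (f := fun y : T => y.1)
        (Subtype.val_injective.injOn)).subset fun y hy => ?_
      refine ⟨y.2.1.1, ?_⟩
      have h1 : P' y = P' y₀ := map_comp_inj j (Eq.trans hy hy₀.symm)
      have h2 : P y = P y₀ := by
        ext a
        exact ι.injective (RingHom.congr_fun h1 a)
      show gpt y.1 = gpt y₀.1
      rw [← hP y, ← hP y₀, h2]
  exact hfinT.notMem_hyperfilter hPar

end Pool.Agent.Work.MP_e97a4d_nt.UE
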