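import Pool.Agent.Work.MP_e97a4d_nt.ExpDefs

/-!
# UE/Defs: subvarieties with etale covers whose functions are generated by units

Let `v` be a point of `V`, `Z` its closure and `L` a finite extension of the residue field of `v` (the
function field of `Z`).
-/

set_option autoImplicit false

noncomputable section

namespace Pool.Agent.Work.MP_e97a4d_nt.UE

open AlgebraicGeometry CategoryTheory NumberField

/-- The element `u` of the extension `L` of the residue field of `v` is, up to a nonzero integer factor,
integral over the ring of every affine chart of `V` containing `v`. -/
def IntegralAt {V : Scheme.{0}} (v : V) {L : Type} [Field L] [Algebra (V.residueField v) L]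
    (u : L) : Prop :=
  ∀ (A : CommRingCat.{0}) (j : Spec A ⟶ V) (φ : A →+* V.residueField v), IsOpenImmersion j →
    Spec.map (CommRingCat.ofHom φ) ≫ j = V.fromSpecResidueField v →
      ∃ N : ℕ, N ≠ 0 ∧ ((algebraMap (V.residueField v) L).comp φ).IsIntegralElem (N * u)

/-- Over every affine chart of `V` containing `v` some nonzero integer is a linear combination, with
integral coefficients `c s` in the residue field of `v`, of discriminants of (the minimal polynomials of)
integral generators `η s` of `L`: on the generic fibre, the normalization of the closure of `v` in `L` is
etale over the normalization of the closure of `v`. -/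
def EtaleAt {V : Scheme.{0}} (v : V) (L : Type) [Field L] [Algebra (V.residueField v) L] : Prop :=
  ∀ (A : CommRingCat.{0}) (j : Spec A ⟶ V) (φ : A →+* V.residueField v), IsOpenImmersion j →
    Spec.map (CommRingCat.ofHom φ) ≫ j = V.fromSpecResidueField v →
      ∃ (N k : ℕ) (c : Fin k → V.residueField v) (η : Fin k → L), N ≠ 0 ∧
        (∀ s, φ.IsIntegralElem (c s)) ∧
        (∀ s, ((algebraMap (V.residueField v) L).comp φ).IsIntegralElem (η s)) ∧
        (∀ s, (minpoly (V.residueField v) (η s)).natDegree =
          Module.finrank (V.residueField v) L) ∧
        (N : V.residueField v) = ∑ s, c s * (minpoly (V.residueField v) (η s)).discr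

/-- The elements of `L` which are, together with their inverses, integral up to integer factors over
every affine chart of `V` containing `v`: the invertible functions, on the generic fibre, on the
normalization of the closure of `v` in `L`. -/
def unitsAt {V : Scheme.{0}} (v : V) (L : Type) [Field L] [Algebra (V.residueField v) L] : Set L :=
  {u | u ≠ 0 ∧ IntegralAt v u ∧ IntegralAt v u⁻¹}

variable {F₀ : Type} [Field F₀]

/-- The structure homomorphism from `𝓞 F₀` to the residue field of the point `v` of `V`. -/
def strAt {V : Scheme.{0}} (π : V ⟶ Spec (CommRingCat.of (𝓞 F₀))) (v : V) :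
    𝓞 F₀ →+* V.residueField v :=
  (Spec.preimage (V.fromSpecResidueField v ≫ π)).hom

/-- The elements of `L` which are algebraic over `𝓞 F₀`. -/
def constAt {V : Scheme.{0}} (π : V ⟶ Spec (CommRingCat.of (𝓞 F₀))) (v : V) (L : Type) [Field L]
    [Algebra (V.residueField v) L] : Set L :=
  {c | ∃ p : Polynomial (𝓞 F₀), p.map (strAt π v) ≠ 0 ∧
    p.eval₂ ((algebraMap (V.residueField v) L).comp (strAt π v)) c = 0}

/-- Every integral closed subscheme of the generic fibre of `V` which is not contained in `V'` (the closure
of a point `v`) is swept out by images of the multiplicative group (some complex point of `V` over `v`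
lies on such an image), or it has a finite etale cover (of normalizations, with function field `L`) such
that its functions are rational expressions in constants and invertible functions on the cover. -/
def UnitGen (σ : F₀ →+* ℂ) {V V' : Scheme.{0}} (π : V ⟶ Spec (CommRingCat.of (𝓞 F₀)))
    (i : V' ⟶ V) : Prop :=
  ∀ v : V, v ∉ Set.range i → Function.Injective (strAt π v) →
    (∃ p ∈ gmPoints σ π, p (⊥ : PrimeSpectrum ℂ) = v) ∨
      ∃ (L : Type) (_ : Field L) (_ : Algebra (V.residueField v) L),
        FiniteDimensional (V.residueField v) L ∧ EtaleAt v L ∧
          ∀ ξ : V.residueField v, algebraMap (V.residueField v) L ξ ∈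
            Subfield.closure (unitsAt v L ∪ constAt π v L)

end Pool.Agent.Work.MP_e97a4d_nt.UE
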