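import Pool.Agent.Work.MP_e97a4d_nt.UG.OldCase
import Pool.Agent.Work.MP_e97a4d_nt.UE.Defs

/-!
# UE/OldV: the trivial cover
-/

set_option autoImplicit false

noncomputable section

namespace Pool.Agent.Work.MP_e97a4d_nt.UE

open AlgebraicGeometry CategoryTheory NumberField
open Hyp

variable {F₀ : Type} [Field F₀] {V V' : Scheme.{0}}

/-- The trivial extension is etale. -/
theorem etaleAt_self (v : V) : EtaleAt v (V.residueField v) := by
  intro A j φ _ _
  have h0 : minpoly (V.residueField v) (0 : V.residueField v) = Polynomial.X := minpoly.zero _ _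
  refine ⟨1, 1, fun _ => 1, fun _ => 0, one_ne_zero, fun _ => φ.isIntegralElem_one,
    fun _ => RingHom.isIntegralElem_zero _, fun _ => ?_, ?_⟩
  · rw [h0, Polynomial.natDegree_X, Module.finrank_self]
  · simp only [h0, Polynomial.discr_of_degree_eq_one Polynomial.degree_X]
    simp

theorem integralAt_self {v : V} {u : V.residueField v}
    (hu : MP_e97a4d_nt.IntegralAt (V.fromSpecResidueField v) u) : UE.IntegralAt v u := by
  intro A j φ hj hφ
  refine ⟨1, one_ne_zero, ?_⟩
  rw [Nat.cast_one, one_mul]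
  exact hu A j φ hj hφ

/-- The case without covers. -/
theorem unitGen_of_unitGen (σ : F₀ →+* ℂ) (π : V ⟶ Spec (CommRingCat.of (𝓞 F₀))) (i : V' ⟶ V)
    (h : MP_e97a4d_nt.UnitGen σ π i) : UE.UnitGen σ π i := by
  intro v hv hs
  rcases h v hv hs with h1 | h1
  · exact Or.inl h1
  · refine Or.inr ⟨V.residueField v, inferInstance, inferInstance, inferInstance,
      etaleAt_self v, fun ξ => ?_⟩
    have h2 : (ξ : V.residueField v) ∈ Subfield.closure (MP_e97a4d_nt.unitsAt v ∪ MP_e97a4d_nt.constAt π v) := by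
      rw [h1]
      trivial
    refine Subfield.closure_mono (Set.union_subset_union ?_ ?_) h2
    · rintro u ⟨hu1, hu2, hu3⟩
      exact ⟨hu1, integralAt_self hu2, integralAt_self hu3⟩
    · rintro c ⟨p, hp1, hp2⟩
      exact ⟨p, hp1, hp2⟩

theorem unitGen_of_units [NumberField F₀] (σ : F₀ →+* ℂ)
    (π : V ⟶ Spec (CommRingCat.of (𝓞 F₀))) [LocallyOfFiniteType π] [QuasiCompact π]
    (i : V' ⟶ V) [IsClosedImmersion i] {n : ℕ} (h : Fin n → Γ(V, ⊤)) (hu : ∀ m, IsUnit (h m))
    (himm : SurjectiveOnStalks (toAff π i h)) : UE.UnitGen σ π i :=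
  unitGen_of_unitGen σ π i (MP_e97a4d_nt.unitGen_of_units σ π i h hu himm)

end Pool.Agent.Work.MP_e97a4d_nt.UE
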