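import Pool.Agent.Work.MP_e97a4d_nt.UE.CurveV
import Pool.Agent.Work.MP_e97a4d_nt.UE.PointV
import Pool.Agent.Work.MP_e97a4d_nt.UE.OldV
import Pool.Agent.Work.MP_e97a4d_nt.UP.Main

/-!
# UE/Main: the equivalence when the function fields are generated by units on etale covers
-/

set_option autoImplicit false

noncomputable section

namespace Pool.Agent.Work.MP_e97a4d_nt.UE

open AlgebraicGeometry CategoryTheory NumberField

variable {F₀ : Type} [Field F₀] {V V' : Scheme.{0}}

theorem blv_etale [NumberField F₀] (σ : F₀ →+* ℂ)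
    (π : V ⟶ Spec (CommRingCat.of (𝓞 F₀))) [LocallyOfFiniteType π] [QuasiCompact π]
    (i : V' ⟶ V) [IsClosedImmersion i] (hU : UE.UnitGen σ π i) :
    [CondI σ π i, CondII π i, CondGm σ π i].TFAE := by
  tfae_have 1 → 3 := fun h1 => condGm_of_condIunit σ π i (condIunit_of_condI σ π i h1)
  tfae_have 2 → 3 := fun h1 => condGm_of_condIIunit σ π i (condIIunit_of_condII π i h1)
  tfae_have 3 → 1 := condI_of_unitGen σ π i hU
  tfae_have 3 → 2 := condII_of_unitGen σ π i hU
  tfae_finish

end Pool.Agent.Work.MP_e97a4d_nt.UE
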