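import Pool.Agent.Work.MP_e97a4d_nt.UE.SMb

/-!
# UE/SplitM: etale extensions split over the meromorphic functions on the plane

Proof. `h 0` gives an index `s₀`; let `η₀ = η s₀`, `p₀ = minpoly κ η₀`, and let `P₀` be a monic lift of
`p₀.map Θ` to `meroAlg` of the same degree (`Polynomial.lifts_and_natDegree_eq_and_monic`,
`mkH_surjective`). By `sp_transport` (with `η₁ = η s`, `s` given by `h z`) the hypothesis of
`exists_branch` (UE/Glue) holds for `R w := {t | (P₀.map (evw w)).eval t = 0}`, `n = finrank κ L`. So there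
is `f : ℂ → ℂ`, `MeromorphicNFOn f univ`, with `(P₀.map (evw w)).eval (f w) = 0` outside a discrete set.
`f` is meromorphic, `m := mk f _` satisfies `p₀.eval₂ Θ m = 0`: indeed
`p₀.eval₂ Θ m = (P₀.map mkH).eval m = mkH (P₀.eval ⟨f, _⟩)` and `mkH_zero_iff`,
`evw w (P₀.eval g) = (P₀.map (evw w)).eval (evw w g)` (`Polynomial.eval_map`, `Polynomial.hom_eval₂`,
`Polynomial.eval₂_at_apply`). Apply `lift_root`.
-/

set_option autoImplicit false

noncomputable section

namespace Pool.Agent.Work.MP_e97a4d_nt.UE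

open Filter Hyp
open scoped Topology

theorem split_mero {κ L : Type} [Field κ] [Field L] [Algebra κ L] [FiniteDimensional κ L]
    (Θ : κ →+* Mero) {r : ℕ} (η : Fin r → L)
    (hη : ∀ s, (minpoly κ (η s)).natDegree = Module.finrank κ L)
    (h : ∀ z : ℂ, ∃ s, (∀ l, Θ ((minpoly κ (η s)).coeff l) ∈ Mz z) ∧
      Θ (minpoly κ (η s)).discr ≠ 0 ∧ (Θ (minpoly κ (η s)).discr)⁻¹ ∈ Mz z) :
    ∃ Θ' : L →+* Mero, Θ'.comp (algebraMap κ L) = Θ := by
  obtain ⟨s₀, -, -, -⟩ := h 0
  have hint : IsIntegral κ (η s₀) := Algebra.IsIntegral.isIntegral (η s₀)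
  have hmonic : ((minpoly κ (η s₀)).map Θ).Monic := (minpoly.monic hint).map Θ
  have hlifts : (minpoly κ (η s₀)).map Θ ∈ Polynomial.lifts mkH :=
    (Polynomial.mem_lifts _).2 (Polynomial.map_surjective mkH mkH_surjective _)
  obtain ⟨P₀, hP1, -, hP3⟩ := Polynomial.lifts_and_natDegree_eq_and_monic hlifts hmonic
  have hn : 0 < Module.finrank κ L := Module.finrank_pos
  have hloc : ∀ z : ℂ, ∃ r > 0, Sp (fun w => {t : ℂ | (P₀.map (evw w)).eval t = 0})
      (Module.finrank κ L) (Metric.ball z r) := by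
    intro z
    obtain ⟨s, h1, h2, h3⟩ := h z
    exact sp_transport Θ (η s₀) (η s) (hη s₀) (hη s) P₀ hP3 hP1 z h1 h2 h3
  obtain ⟨f, hf, hfR⟩ := exists_branch hn hloc
  have hfm : Meromorphic f := fun z => (hf (Set.mem_univ z)).meromorphicAt
  let g : meroAlg := ⟨f, hfm⟩
  have hroot : (minpoly κ (η s₀)).eval₂ Θ (mkH g) = 0 := by
    have e1 : (minpoly κ (η s₀)).eval₂ Θ (mkH g) = mkH (P₀.eval g) := by
      rw [← Polynomial.eval_map, ← hP1, Polynomial.eval_map, Polynomial.eval₂_at_apply]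
    rw [e1, mkH_zero_iff]
    intro z
    filter_upwards [hfR z (Set.mem_univ z)] with w hw
    have e2 : evw w (P₀.eval g) = (P₀.map (evw w)).eval (evw w g) := by
      rw [Polynomial.eval_map, Polynomial.eval₂_at_apply]
    rw [e2]
    exact hw
  obtain ⟨Θ', h1, -⟩ := lift_root (η s₀) (hη s₀) Θ (mkH g) hroot
  exact ⟨Θ', h1⟩

end Pool.Agent.Work.MP_e97a4d_nt.UE
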