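import Mathlib

/-!
# UE/GRoot: roots of polynomials over ultrapowers of algebraically closed fields

Every coefficient of `p` is the germ of a function `c k : T → Ω`, `k < n`, `n = natDegree p`;
for every `t` the polynomial `X ^ n + ∑ k < n, C (c k t) * X ^ k` is monic of positive degree, so it has a
root `r t` in the algebraically closed field `Ω`; the germ of `r` is a root of `p` (`p.eval x` is
`x ^ n + ∑ k < n, p.coeff k * x ^ k`: `Polynomial.eval_eq_sum_range`, `Polynomial.Monic`; compute with
`Germ.coeRingHom` and `map_sum`). Another way: `p = P.map (Germ.coeRingHom _)` with `P` monic over `T → Ω` of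
the same degree (`Polynomial.lifts_and_natDegree_eq_and_monic`), `r t` a root of
`P.map (Pi.evalRingHom _ t)`, and `P.eval r = 0` in `T → Ω` (`funext`).
-/

set_option autoImplicit false

noncomputable section

namespace Pool.Agent.Work.MP_e97a4d_nt.UE

open Filter

theorem germ_root {T : Type} (𝒰 : Ultrafilter T) {Ω : Type} [Field Ω] [IsAlgClosed Ω]
    (p : Polynomial (Germ (𝒰 : Filter T) Ω)) (hp : p.Monic) (h0 : 0 < p.natDegree) :
    ∃ r, p.eval r = 0 := by
  have hl : p ∈ Polynomial.lifts (Germ.coeRingHom (R := Ω) (𝒰 : Filter T)) := by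
    rw [Polynomial.mem_lifts]
    refine Polynomial.map_surjective _ (fun x => ?_) p
    induction x using Germ.inductionOn with
    | _ f => exact ⟨f, rfl⟩
  obtain ⟨P, hP, hdeg, hmon⟩ := Polynomial.lifts_and_natDegree_eq_and_monic hl hp
  have hr : ∀ t : T, ∃ x : Ω, (P.map (Pi.evalRingHom (fun _ : T => Ω) t)).eval x = 0 := by
    intro t
    have hm : (P.map (Pi.evalRingHom (fun _ : T => Ω) t)).natDegree = P.natDegree :=
      hmon.natDegree_map _
    obtain ⟨x, hx⟩ := IsAlgClosed.exists_root (P.map (Pi.evalRingHom (fun _ : T => Ω) t)) (by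
      intro h
      have := Polynomial.natDegree_eq_of_degree_eq_some (n := 0) h
      omega)
    exact ⟨x, hx⟩
  choose r hr using hr
  refine ⟨Germ.coeRingHom (R := Ω) (𝒰 : Filter T) r, ?_⟩
  rw [← hP, Polynomial.eval_map, Polynomial.eval₂_at_apply]
  have h0 : P.eval r = 0 := by
    funext t
    have h1 := Polynomial.eval₂_at_apply (p := P) (Pi.evalRingHom (fun _ : T => Ω) t) r
    have h2 := hr t
    rw [Polynomial.eval_map] at h2
    exact h1.symm.trans h2
  rw [h0, map_zero]

end Pool.Agent.Work.MP_e97a4d_nt.UE
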