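import Mathlib

/-!
# UE/GDefs: ultrapowers of fields and of valuation rings
-/

set_option autoImplicit false

noncomputable section

namespace Pool.Agent.Work.MP_e97a4d_nt.UE

open Filter

variable {T : Type}

/-- The map of ultrapowers given by a homomorphism. -/
def gMap (𝒰 : Ultrafilter T) {K K' : Type} [Field K] [Field K'] (ι : K →+* K') :
    Germ (𝒰 : Filter T) K →+* Germ (𝒰 : Filter T) K' where
  toFun := Germ.map ι
  map_one' := by
    show Germ.map ι ((1 : T → K) : Germ (𝒰 : Filter T) K) = ((1 : T → K') : Germ (𝒰 : Filter T) K')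
    rw [Germ.map_coe]
    exact congrArg _ (funext fun _ => map_one ι)
  map_zero' := by
    show Germ.map ι ((0 : T → K) : Germ (𝒰 : Filter T) K) = ((0 : T → K') : Germ (𝒰 : Filter T) K')
    rw [Germ.map_coe]
    exact congrArg _ (funext fun _ => map_zero ι)
  map_mul' x y := by
    induction x using Germ.inductionOn with | _ f =>
    induction y using Germ.inductionOn with | _ g =>
    rw [← Germ.coe_mul, Germ.map_coe, Germ.map_coe, Germ.map_coe, ← Germ.coe_mul]
    exact congrArg _ (funext fun _ => map_mul ι _ _)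
  map_add' x y := by
    induction x using Germ.inductionOn with | _ f =>
    induction y using Germ.inductionOn with | _ g =>
    rw [← Germ.coe_add, Germ.map_coe, Germ.map_coe, Germ.map_coe, ← Germ.coe_add]
    exact congrArg _ (funext fun _ => map_add ι _ _)

theorem gMap_coe (𝒰 : Ultrafilter T) {K K' : Type} [Field K] [Field K'] (ι : K →+* K')
    (f : T → K) : gMap 𝒰 ι (f : Germ (𝒰 : Filter T) K) =
      ((fun t => ι (f t) : T → K') : Germ (𝒰 : Filter T) K') := rfl

/-- The ultraproduct of the valuation rings `O t`. -/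
def gV (𝒰 : Ultrafilter T) {K : Type} [Field K] (O : T → ValuationSubring K) :
    ValuationSubring (Germ (𝒰 : Filter T) K) where
  carrier := {x | ∃ f : T → K, (∀ t, f t ∈ O t) ∧ (f : Germ (𝒰 : Filter T) K) = x}
  one_mem' := ⟨1, fun t => one_mem _, rfl⟩
  zero_mem' := ⟨0, fun t => zero_mem _, rfl⟩
  mul_mem' := by
    rintro _ _ ⟨f, hf, rfl⟩ ⟨g, hg, rfl⟩
    exact ⟨f * g, fun t => mul_mem (hf t) (hg t), rfl⟩
  add_mem' := by
    rintro _ _ ⟨f, hf, rfl⟩ ⟨g, hg, rfl⟩
    exact ⟨f + g, fun t => add_mem (hf t) (hg t), rfl⟩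
  neg_mem' := by
    rintro _ ⟨f, hf, rfl⟩
    exact ⟨-f, fun t => neg_mem (hf t), rfl⟩
  mem_or_inv_mem' x := by
    classical
    induction x using Germ.inductionOn with | _ f =>
    rcases Ultrafilter.em 𝒰 (fun t => f t ∈ O t) with h | h
    · left
      refine ⟨fun t => if f t ∈ O t then f t else 0, fun t => ?_, ?_⟩
      · show (if f t ∈ O t then f t else 0) ∈ O t
        split_ifs with h1
        · exact h1
        · exact zero_mem _
      · refine Germ.coe_eq.2 ?_
        filter_upwards [h] with t ht
        exact if_pos ht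
    · right
      refine ⟨fun t => if f t ∈ O t then 0 else (f t)⁻¹, fun t => ?_, ?_⟩
      · show (if f t ∈ O t then 0 else (f t)⁻¹) ∈ O t
        split_ifs with h1
        · exact zero_mem _
        · exact ((O t).mem_or_inv_mem (f t)).resolve_left h1
      · show _ = ((fun t => (f t)⁻¹ : T → K) : Germ (𝒰 : Filter T) K)
        refine Germ.coe_eq.2 ?_
        filter_upwards [h] with t ht
        exact if_neg ht

theorem mem_gV (𝒰 : Ultrafilter T) {K : Type} [Field K] (O : T → ValuationSubring K) (f : T → K) :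
    (f : Germ (𝒰 : Filter T) K) ∈ gV 𝒰 O ↔ ∀ᶠ t in (𝒰 : Filter T), f t ∈ O t := by
  classical
  constructor
  · rintro ⟨g, hg, he⟩
    filter_upwards [Germ.coe_eq.1 he] with t ht
    rw [← ht]
    exact hg t
  · intro h
    refine ⟨fun t => if f t ∈ O t then f t else 0, fun t => ?_, ?_⟩
    · show (if f t ∈ O t then f t else 0) ∈ O t
      split_ifs with h1
      · exact h1
      · exact zero_mem _
    · refine Germ.coe_eq.2 ?_
      filter_upwards [h] with t ht
      exact if_pos ht

/-- Transfer of a property of all valuation rings (or primes). -/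
theorem transfer_forall (𝒰 : Ultrafilter T) {X : Type} [Nonempty X] (P : T → X → Prop)
    (h : ∀ o : T → X, ∀ᶠ t in (𝒰 : Filter T), P t (o t)) : ∀ᶠ t in (𝒰 : Filter T), ∀ x, P t x := by
  classical
  by_contra hcon
  rw [← Ultrafilter.eventually_not] at hcon
  obtain ⟨x₀⟩ := ‹Nonempty X›
  let o : T → X := fun t => if h : ∃ x, ¬ P t x then h.choose else x₀
  obtain ⟨t, h1, h2⟩ := ((h o).and hcon).exists
  push Not at h2
  have h3 : o t = h2.choose := dif_pos h2
  rw [h3] at h1
  exact h2.choose_spec h1

/-- A polynomial over the functions which vanishes in the ultrapower vanishes almost everywhere. -/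
theorem germ_poly_zero (𝒰 : Ultrafilter T) {K : Type} [Field K] (P : Polynomial (T → K))
    (h : P.map (Germ.coeRingHom (𝒰 : Filter T)) = 0) :
    ∀ᶠ t in (𝒰 : Filter T), P.map (Pi.evalRingHom (fun _ : T => K) t) = 0 := by
  have h1 : ∀ᶠ t in (𝒰 : Filter T), ∀ k ∈ P.support, P.coeff k t = 0 := by
    rw [Filter.eventually_all_finset]
    intro k _
    have h2 := congrArg (fun Q => Q.coeff k) h
    simp only [Polynomial.coeff_map, Polynomial.coeff_zero] at h2
    exact Germ.coe_eq.1 h2
  filter_upwards [h1] with t ht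
  ext k
  rw [Polynomial.coeff_map, Polynomial.coeff_zero]
  by_cases hk : k ∈ P.support
  · exact ht k hk
  · rw [Polynomial.notMem_support_iff.1 hk]
    rfl

end Pool.Agent.Work.MP_e97a4d_nt.UE
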