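import Mathlib

/-!
# UE/Lift: extension of homomorphisms to a field generated by one element

`lift_root`: let `_ : Algebra κ K := Θ.toAlgebra`. `Field.primitive_element_iff_minpoly_natDegree_eq` (or
the finrank of `κ⟮η⟯`, `IntermediateField.adjoin.finrank`, and `IntermediateField.eq_of_le_of_finrank_eq`)
gives `κ⟮η⟯ = ⊤`. Compose the inverse of `⊤ ≃ₐ L` (`IntermediateField.topEquiv`), the equality
`κ⟮η⟯ = ⊤` and `IntermediateField.adjoin.powerBasis` / `IntermediateField.algHomAdjoinIntegralEquiv` (the
algebra homomorphisms from `κ⟮η⟯` to `K` correspond to roots of the minimal polynomial), or use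
`PowerBasis.lift` for the power basis of `L` obtained from `IntermediateField.adjoin.powerBasis`, or
`AdjoinRoot.liftHom` and bijectivity of `AdjoinRoot (minpoly κ η) → L`.

`exists_poly`: the same (`κ⟮η⟯ = ⊤`, `IntermediateField.mem_adjoin_simple_iff` and algebraicity:
`IntermediateField.adjoin_simple_toSubalgebra_of_integral`, `Algebra.adjoin_singleton_eq_range_aeval`).
-/

set_option autoImplicit false

noncomputable section

namespace Pool.Agent.Work.MP_e97a4d_nt.UE

private theorem top_of {κ L : Type} [Field κ] [Field L] [Algebra κ L] [FiniteDimensional κ L]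
    (η : L) (hη : (minpoly κ η).natDegree = Module.finrank κ L) :
    IntermediateField.adjoin κ {η} = ⊤ :=
  (Field.primitive_element_iff_minpoly_natDegree_eq κ η).2 hη

theorem lift_root {κ L K : Type} [Field κ] [Field L] [Field K] [Algebra κ L] [FiniteDimensional κ L]
    (η : L) (hη : (minpoly κ η).natDegree = Module.finrank κ L) (Θ : κ →+* K) (r : K)
    (hr : (minpoly κ η).eval₂ Θ r = 0) :
    ∃ Θ' : L →+* K, Θ'.comp (algebraMap κ L) = Θ ∧ Θ' η = r := by
  letI : Algebra κ K := Θ.toAlgebra
  have hint : IsIntegral κ η := Algebra.IsIntegral.isIntegral η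
  have htop := top_of η hη
  let pb : PowerBasis κ L := (IntermediateField.adjoin.powerBasis hint).map
    ((IntermediateField.equivOfEq htop).trans IntermediateField.topEquiv)
  have hgen : pb.gen = η := by
    simp [pb]
  have hr' : Polynomial.aeval r (minpoly κ pb.gen) = 0 := by
    rw [hgen]
    exact hr
  refine ⟨(pb.lift r hr' : L →ₐ[κ] K), ?_, ?_⟩
  · exact (pb.lift r hr').comp_algebraMap
  · have h1 := pb.lift_gen r hr'
    rw [hgen] at h1
    exact h1

/-- every element of `L` is a polynomial in a generator `η` -/
theorem exists_poly {κ L : Type} [Field κ] [Field L] [Algebra κ L] [FiniteDimensional κ L]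
    (η : L) (hη : (minpoly κ η).natDegree = Module.finrank κ L) (x : L) :
    ∃ Q : Polynomial κ, Polynomial.aeval η Q = x := by
  have hint : IsIntegral κ η := Algebra.IsIntegral.isIntegral η
  have hx : x ∈ (IntermediateField.adjoin κ {η}).toSubalgebra := by
    rw [top_of η hη]
    trivial
  rw [IntermediateField.adjoin_simple_toSubalgebra_of_isAlgebraic hint.isAlgebraic,
    Algebra.adjoin_singleton_eq_range_aeval] at hx
  exact hx

end Pool.Agent.Work.MP_e97a4d_nt.UE
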