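import Pool.Agent.Work.MP_e97a4d_nt.UE.GDefs
import Pool.Agent.Work.MP_e97a4d_nt.UE.Disc
import Pool.Agent.Work.MP_e97a4d_nt.UE.Lift
import Pool.Agent.Work.MP_e97a4d_nt.UE.GRoot

/-!
# UE/GBr: the branches of a finite extension in the ultrapower

Let `Ω := AlgebraicClosure F`, `n := finrank κ L > 0`, `E₀ := Germ.coeRingHom 𝒰 : (T → F) →+* Germ` (surjective,
`Germ.inductionOn`), `ev t := Pi.evalRingHom _ t`, `p s := minpoly κ (η s)`.

1. For every `s` there is a monic `P s` over `T → F` of degree `n` with `(P s).map E₀ = (p s).map Θ`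
(`Polynomial.lifts_and_natDegree_eq_and_monic`, `Polynomial.mem_lifts`; `(p s).map Θ` is monic of degree
`n`; `T` is nonempty, so `T → F` is nontrivial).

2. Let `ι := algebraMap F Ω`. `germ_root` for `((p s₀).map Θ).map (gMap 𝒰 ι)` gives a root and `lift_root` a
homomorphism `Θ₁ : L →+* Germ 𝒰 Ω` with `Θ₁.comp (algebraMap κ L) = (gMap 𝒰 ι).comp Θ`. Let
`Θ₁ (η s) = germ of ξ s : T → Ω` (`Germ.inductionOn`).

3. For almost all `t`, for all `s` (`Filter.eventually_all`): (a) `aeval (ξ s t) ((P s).map (ev t)) = 0`: the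
element `(P s).eval₂ ((Pi.ringHom fun t => ι.comp (ev t)) : (T → F) →+* (T → Ω)) (ξ s)` of `T → Ω` has germ
`Θ₁ (aeval (η s) (p s)) = 0` (`Polynomial.hom_eval₂`, `gMap_coe`); its value at `t` is the value in question.
(b) `ξ s t ∈ F(ξ s₀ t)`: `exists_poly` gives `R : κ[X]` with `aeval (η s₀) R = η s`; lift `R.map Θ` to `R'`
over `T → F` (`Polynomial.map_surjective`); then `ξ s t = aeval (ξ s₀ t) (R'.map (ev t))` for almost all
`t`, in the adjoined field. (c) `ξ s₀ t ∈ F(ξ s t)` in the same way.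
-/

set_option autoImplicit false

noncomputable section

namespace Pool.Agent.Work.MP_e97a4d_nt.UE

open Filter

private theorem coeRingHom_surj {T : Type} (𝒰 : Ultrafilter T) (F : Type) [Field F] :
    Function.Surjective (Germ.coeRingHom (𝒰 : Filter T) : (T → F) →+* Germ (𝒰 : Filter T) F) := by
  intro x
  induction x using Germ.inductionOn with | _ f =>
  exact ⟨f, rfl⟩

private theorem key_germ {T : Type} (𝒰 : Ultrafilter T) {κ L : Type} [Field κ] [Field L] [Algebra κ L]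
    {F Ω : Type} [Field F] [Field Ω] [Algebra F Ω] (Θ : κ →+* Germ (𝒰 : Filter T) F)
    (Θ₁ : L →+* Germ (𝒰 : Filter T) Ω)
    (hΘ : Θ₁.comp (algebraMap κ L) = (gMap 𝒰 (algebraMap F Ω)).comp Θ) {x : L} {f : T → Ω}
    (hf : Θ₁ x = (f : Germ (𝒰 : Filter T) Ω)) (Q' : Polynomial κ) (Q : Polynomial (T → F))
    (hQ : Q.map (Germ.coeRingHom (𝒰 : Filter T)) = Q'.map Θ) :
    ((fun t => Polynomial.aeval (f t) (Q.map (Pi.evalRingHom (fun _ : T => F) t)) : T → Ω) :
      Germ (𝒰 : Filter T) Ω) = Θ₁ (Polynomial.aeval x Q') := by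
  let W : (T → F) →+* (T → Ω) :=
    RingHom.pi fun t => (algebraMap F Ω).comp (Pi.evalRingHom (fun _ : T => F) t)
  have h1 : (fun t => Polynomial.aeval (f t) (Q.map (Pi.evalRingHom (fun _ : T => F) t)) : T → Ω) =
      Q.eval₂ W f := by
    funext t
    have h2 : (Pi.evalRingHom (fun _ : T => Ω) t) (Q.eval₂ W f) =
        Q.eval₂ ((Pi.evalRingHom (fun _ : T => Ω) t).comp W) (f t) :=
      Polynomial.hom_eval₂ Q W (Pi.evalRingHom (fun _ : T => Ω) t) f
    refine Eq.trans ?_ h2.symm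
    rw [Polynomial.aeval_def, Polynomial.eval₂_map]
    rfl
  rw [h1]
  have h3 : (Germ.coeRingHom (𝒰 : Filter T) : (T → Ω) →+* Germ (𝒰 : Filter T) Ω).comp W =
      (gMap 𝒰 (algebraMap F Ω)).comp (Germ.coeRingHom (𝒰 : Filter T)) := by
    ext g
    rfl
  have h4 := Polynomial.hom_eval₂ Q W
    (Germ.coeRingHom (𝒰 : Filter T) : (T → Ω) →+* Germ (𝒰 : Filter T) Ω) f
  refine Eq.trans (show ((Q.eval₂ W f : T → Ω) : Germ (𝒰 : Filter T) Ω) =
    (Germ.coeRingHom (𝒰 : Filter T) : (T → Ω) →+* Germ (𝒰 : Filter T) Ω) (Q.eval₂ W f) from rfl) ?_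
  rw [h4, h3, ← Polynomial.eval₂_map, hQ, Polynomial.eval₂_map, ← hΘ]
  have h5 : (Germ.coeRingHom (𝒰 : Filter T) : (T → Ω) →+* Germ (𝒰 : Filter T) Ω) f = Θ₁ x := hf.symm
  rw [h5, Polynomial.aeval_def, Polynomial.hom_eval₂]

theorem germ_branches {T : Type} (𝒰 : Ultrafilter T) {κ L : Type} [Field κ] [Field L] [Algebra κ L]
    [FiniteDimensional κ L] (F : Type) [Field F] (Θ : κ →+* Germ (𝒰 : Filter T) F) {r : ℕ}
    (η : Fin r → L) (hη : ∀ s, (minpoly κ (η s)).natDegree = Module.finrank κ L) (s₀ : Fin r) :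
    ∃ (P : Fin r → Polynomial (T → F)) (ξ : Fin r → T → AlgebraicClosure F)
      (Θ₁ : L →+* Germ (𝒰 : Filter T) (AlgebraicClosure F)),
      (∀ s, (P s).Monic ∧ (P s).natDegree = Module.finrank κ L ∧
        (P s).map (Germ.coeRingHom (𝒰 : Filter T)) = (minpoly κ (η s)).map Θ) ∧
      Θ₁.comp (algebraMap κ L) = (gMap 𝒰 (algebraMap F (AlgebraicClosure F))).comp Θ ∧
      (∀ s, Θ₁ (η s) = (ξ s : Germ (𝒰 : Filter T) (AlgebraicClosure F))) ∧
      ∀ᶠ t in (𝒰 : Filter T), ∀ s,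
        Polynomial.aeval (ξ s t) ((P s).map (Pi.evalRingHom (fun _ : T => F) t)) = 0 ∧
        ξ s t ∈ IntermediateField.adjoin F {ξ s₀ t} ∧
        ξ s₀ t ∈ IntermediateField.adjoin F {ξ s t} := by
  have hn : 0 < Module.finrank κ L := Module.finrank_pos
  have hT : Nonempty T := Filter.nonempty_of_neBot (𝒰 : Filter T)
  have hmon : ∀ s, (minpoly κ (η s)).Monic := fun s => minpoly.monic (IsIntegral.of_finite κ (η s))
  have hsurj := coeRingHom_surj 𝒰 F
  have hP : ∀ s, ∃ P : Polynomial (T → F), P.map (Germ.coeRingHom (𝒰 : Filter T)) =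
      (minpoly κ (η s)).map Θ ∧ P.natDegree = ((minpoly κ (η s)).map Θ).natDegree ∧ P.Monic := by
    intro s
    exact Polynomial.lifts_and_natDegree_eq_and_monic
      ((Polynomial.mem_lifts _).2 (Polynomial.map_surjective _ hsurj _)) ((hmon s).map Θ)
  choose P hP1 hP2 hP3 using hP
  have hdeg : ∀ s, ((minpoly κ (η s)).map Θ).natDegree = Module.finrank κ L := fun s => by
    rw [(hmon s).natDegree_map, hη s]
  obtain ⟨r, hr⟩ := germ_root 𝒰 (((minpoly κ (η s₀)).map Θ).map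
    (gMap 𝒰 (algebraMap F (AlgebraicClosure F)))) (((hmon s₀).map Θ).map _) (by
      rw [((hmon s₀).map Θ).natDegree_map, hdeg s₀]
      exact hn)
  obtain ⟨Θ₁, hΘ₁, -⟩ := lift_root (η s₀) (hη s₀)
    ((gMap 𝒰 (algebraMap F (AlgebraicClosure F))).comp Θ) r (by
      rw [← hr, Polynomial.map_map, Polynomial.eval_map])
  have hξ : ∀ s, ∃ f : T → AlgebraicClosure F,
      Θ₁ (η s) = (f : Germ (𝒰 : Filter T) (AlgebraicClosure F)) := by
    intro s
    obtain ⟨f, hf⟩ := coeRingHom_surj 𝒰 (AlgebraicClosure F) (Θ₁ (η s))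
    exact ⟨f, hf.symm⟩
  choose ξ hξ using hξ
  have hin : ∀ s s', ∀ᶠ t in (𝒰 : Filter T), ξ s t ∈ IntermediateField.adjoin F {ξ s' t} := by
    intro s s'
    obtain ⟨R, hR⟩ := exists_poly (η s') (hη s') (η s)
    obtain ⟨R', hR'⟩ := Polynomial.map_surjective _ hsurj (R.map Θ)
    have h1 := key_germ 𝒰 Θ Θ₁ hΘ₁ (hξ s') R R' hR'
    rw [hR, hξ s] at h1
    filter_upwards [Germ.coe_eq.1 h1] with t ht
    rw [← ht]
    exact IntermediateField.algebra_adjoin_le_adjoin F {ξ s' t}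
      (Polynomial.aeval_mem_adjoin_singleton F (ξ s' t))
  refine ⟨P, ξ, Θ₁, fun s => ⟨hP3 s, (hP2 s).trans (hdeg s), hP1 s⟩, hΘ₁, hξ, ?_⟩
  refine Filter.eventually_all.2 fun s => ?_
  have h2 := key_germ 𝒰 Θ Θ₁ hΘ₁ (hξ s) (minpoly κ (η s)) (P s) (hP1 s)
  rw [minpoly.aeval, map_zero] at h2
  have h3 : ((fun t => Polynomial.aeval (ξ s t) ((P s).map (Pi.evalRingHom (fun _ : T => F) t)) :
      T → AlgebraicClosure F) : Germ (𝒰 : Filter T) (AlgebraicClosure F)) =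
      ((0 : T → AlgebraicClosure F) : Germ (𝒰 : Filter T) (AlgebraicClosure F)) := h2
  filter_upwards [Germ.coe_eq.1 h3, hin s s₀, hin s₀ s] with t h4 h5 h6
  exact ⟨h4, h5, h6⟩

end Pool.Agent.Work.MP_e97a4d_nt.UE
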