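import Mathlib

/-!
# UE/Glue: locally split multivalued meromorphic functions are split over the complex plane
-/

set_option autoImplicit false

noncomputable section

namespace Pool.Agent.Work.MP_e97a4d_nt

open Filter
open scoped Topology

/-- The property holds outside a discrete set of the open set `U`. -/
def AE (U : Set ℂ) (p : ℂ → Prop) : Prop := ∀ z ∈ U, ∀ᶠ w in 𝓝[≠] z, p w

/-- Over `U` the sets `R w` are the sets of values of `n` meromorphic functions, with distinct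
values, outside a discrete set. -/
def Sp (R : ℂ → Set ℂ) (n : ℕ) (U : Set ℂ) : Prop :=
  ∃ θ : Fin n → ℂ → ℂ, (∀ i, MeromorphicNFOn (θ i) U) ∧
    AE U (fun w => Set.range (fun i => θ i w) = R w ∧ Function.Injective (fun i => θ i w))

theorem AE.mono {U U' : Set ℂ} {p : ℂ → Prop} (h : AE U' p) (hU : U ⊆ U') : AE U p :=
  fun z hz => h z (hU hz)

theorem Sp.mono {R : ℂ → Set ℂ} {n : ℕ} {U U' : Set ℂ} (h : Sp R n U') (hU : U ⊆ U') :
    Sp R n U := by
  obtain ⟨θ, h1, h2⟩ := h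
  exact ⟨θ, fun i z hz => h1 i (hU hz), h2.mono hU⟩

/-- The identity theorem. -/
theorem ident_mero {W : Set ℂ} (hc : IsPreconnected W) {f g : ℂ → ℂ}
    (hf : MeromorphicOn f W) (hg : MeromorphicOn g W) :
    AE W (fun w => f w = g w) ∨ AE W (fun w => f w ≠ g w) := by
  have hfg : MeromorphicOn (f - g) W := fun z hz => (hf z hz).sub (hg z hz)
  by_cases h : ∃ z ∈ W, meromorphicOrderAt (f - g) z ≠ ⊤
  · right
    obtain ⟨x, hx, hx'⟩ := h
    intro z hz
    have h1 := hfg.meromorphicOrderAt_ne_top_of_isPreconnected hc hx hz hx'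
    have h2 := (meromorphicOrderAt_ne_top_iff_eventually_ne_zero (hfg z hz)).1 h1
    filter_upwards [h2] with w hw h3
    apply hw
    rw [Pi.sub_apply, h3, sub_self]
  · left
    push Not at h
    intro z hz
    have h1 := meromorphicOrderAt_eq_top_iff.1 (h z hz)
    filter_upwards [h1] with w hw
    rw [Pi.sub_apply, sub_eq_zero] at hw
    exact hw

theorem eqOn_of_ae {W : Set ℂ} {f g : ℂ → ℂ}
    (hf : MeromorphicNFOn f W) (hg : MeromorphicNFOn g W) (h : AE W (fun w => f w = g w)) :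
    Set.EqOn f g W := fun z hz =>
  (((hf hz).eventuallyEq_nhdsNE_iff_eventuallyEq_nhds (hg hz)).1 (h z hz)).self_of_nhds

/-- Two systems of branches are the same up to order. -/
theorem match_branch {R : ℂ → Set ℂ} {n : ℕ} {W : Set ℂ} (hne : W.Nonempty)
    (hc : IsPreconnected W) {θ θ' : Fin n → ℂ → ℂ} (h : ∀ i, MeromorphicNFOn (θ i) W)
    (h' : ∀ i, MeromorphicNFOn (θ' i) W) (hR : AE W (fun w => Set.range (fun i => θ i w) = R w))
    (hR' : AE W (fun w => Set.range (fun i => θ' i w) = R w)) (i : Fin n) :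
    ∃ j, Set.EqOn (θ i) (θ' j) W := by
  by_contra hcon
  push Not at hcon
  have h1 : ∀ j, AE W (fun w => θ i w ≠ θ' j w) := by
    intro j
    rcases ident_mero hc (h i).meromorphicOn (h' j).meromorphicOn with h2 | h2
    · exact absurd (eqOn_of_ae (h i) (h' j) h2) (hcon j)
    · exact h2
  obtain ⟨z, hz⟩ := hne
  have h2 : ∀ᶠ w in 𝓝[≠] z, ∀ j, θ i w ≠ θ' j w := eventually_all.2 fun j => h1 j z hz
  obtain ⟨w, hw, hw1, hw2⟩ := (h2.and ((hR z hz).and (hR' z hz))).exists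
  have h3 : θ i w ∈ Set.range (fun i => θ' i w) := by
    rw [hw2, ← hw1]
    exact ⟨i, rfl⟩
  obtain ⟨j, hj⟩ := h3
  exact hw j hj.symm

theorem sp_glue {R : ℂ → Set ℂ} {n : ℕ} {U₁ U₂ : Set ℂ} (h1 : IsOpen U₁) (h2 : IsOpen U₂)
    (hne : (U₁ ∩ U₂).Nonempty) (hc : IsPreconnected (U₁ ∩ U₂)) (s1 : Sp R n U₁) (s2 : Sp R n U₂) :
    Sp R n (U₁ ∪ U₂) := by
  classical
  obtain ⟨θ₁, m₁, r₁⟩ := s1
  obtain ⟨θ₂, m₂, r₂⟩ := s2
  have hW1 : U₁ ∩ U₂ ⊆ U₁ := Set.inter_subset_left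
  have hW2 : U₁ ∩ U₂ ⊆ U₂ := Set.inter_subset_right
  have hex : ∀ i, ∃ j, Set.EqOn (θ₁ i) (θ₂ j) (U₁ ∩ U₂) :=
    match_branch (R := R) hne hc (fun i z hz => m₁ i (hW1 hz)) (fun i z hz => m₂ i (hW2 hz))
      (fun z hz => (r₁ z (hW1 hz)).mono fun _ h => h.1)
      (fun z hz => (r₂ z (hW2 hz)).mono fun _ h => h.1)
  choose τ hτ using hex
  have hopen : IsOpen (U₁ ∩ U₂) := h1.inter h2
  have hinj : Function.Injective τ := by
    intro i i' hii
    obtain ⟨z, hz⟩ := hne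
    obtain ⟨w, hw, hwW⟩ := ((r₁ z (hW1 hz)).and
      (nhdsWithin_le_nhds (hopen.mem_nhds hz))).exists
    apply hw.2
    show θ₁ i w = θ₁ i' w
    rw [hτ i hwW, hτ i' hwW, hii]
  have hsurj : Function.Surjective τ := Finite.surjective_of_injective hinj
  let θ : Fin n → ℂ → ℂ := fun i w => if w ∈ U₁ then θ₁ i w else θ₂ (τ i) w
  have e1 : ∀ i, ∀ w ∈ U₁, θ i w = θ₁ i w := fun i w hw => if_pos hw
  have e2 : ∀ i, ∀ w ∈ U₂, θ i w = θ₂ (τ i) w := by
    intro i w hw
    by_cases hw1 : w ∈ U₁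
    · rw [e1 i w hw1]
      exact hτ i ⟨hw1, hw⟩
    · exact if_neg hw1
  refine ⟨θ, ?_, ?_⟩
  · rintro i z (hz | hz)
    · have h3 : θ i =ᶠ[𝓝 z] θ₁ i := by
        filter_upwards [h1.mem_nhds hz] with w hw using e1 i w hw
      exact (meromorphicNFAt_congr h3).2 (m₁ i hz)
    · have h3 : θ i =ᶠ[𝓝 z] θ₂ (τ i) := by
        filter_upwards [h2.mem_nhds hz] with w hw using e2 i w hw
      exact (meromorphicNFAt_congr h3).2 (m₂ (τ i) hz)
  · rintro z (hz | hz)
    · filter_upwards [r₁ z hz, nhdsWithin_le_nhds (h1.mem_nhds hz)] with w hw hw1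
      have h3 : (fun i => θ i w) = fun i => θ₁ i w := funext fun i => e1 i w hw1
      rw [h3]
      exact hw
    · filter_upwards [r₂ z hz, nhdsWithin_le_nhds (h2.mem_nhds hz)] with w hw hw1
      have h3 : (fun i => θ i w) = (fun j => θ₂ j w) ∘ τ := funext fun i => e2 i w hw1
      rw [h3, hsurj.range_comp]
      exact ⟨hw.1, hw.2.comp hinj⟩

/-- Open rectangles. -/
def Rc (a b c d : ℝ) : Set ℂ := {w | a < w.re ∧ w.re < b ∧ c < w.im ∧ w.im < d}

theorem isOpen_Rc (a b c d : ℝ) : IsOpen (Rc a b c d) := by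
  have e : Rc a b c d = Complex.re ⁻¹' Set.Ioo a b ∩ Complex.im ⁻¹' Set.Ioo c d := by
    ext w
    simp only [Rc, Set.mem_ofPred_eq, Set.mem_inter_iff, Set.mem_preimage, Set.mem_Ioo]
    tauto
  rw [e]
  exact (isOpen_Ioo.preimage Complex.continuous_re).inter
    (isOpen_Ioo.preimage Complex.continuous_im)

theorem isPreconnected_Rc (a b c d : ℝ) : IsPreconnected (Rc a b c d) := by
  have hconv : Convex ℝ (Rc a b c d) := by
    have e : Rc a b c d = Complex.reLm ⁻¹' Set.Ioo a b ∩ Complex.imLm ⁻¹' Set.Ioo c d := by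
      ext w
      simp only [Rc, Set.mem_ofPred_eq, Set.mem_inter_iff, Set.mem_preimage, Set.mem_Ioo,
        Complex.reLm_coe, Complex.imLm_coe]
      tauto
    rw [e]
    exact ((convex_Ioo a b).linear_preimage _).inter ((convex_Ioo c d).linear_preimage _)
  exact hconv.isPreconnected

private theorem interval_induction (q : ℝ → ℝ → Prop) (A B h : ℝ) (hh : 0 < h)
    (glue : ∀ x x' y' y, x ≤ x' → x' < y' → y' ≤ y → q x y' → q x' y → q x y)
    (small : ∀ x, A ≤ x → x ≤ B → q x (x + 2 * h)) (m : ℕ) (hm : A + m * h ≤ B) :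
    q A (A + 2 * h + m * h) := by
  induction m with
  | zero =>
    have := small A le_rfl (by simpa using hm)
    simpa using this
  | succ m ih =>
    push_cast at hm ⊢
    have hm0 : (0 : ℝ) ≤ m := Nat.cast_nonneg m
    have h1 := ih (by nlinarith)
    have h2 := small (A + (m + 1) * h) (by nlinarith) hm
    have h3 : A + 2 * h + (m + 1) * h = A + (m + 1) * h + 2 * h := by ring
    rw [h3]
    refine glue A (A + (m + 1) * h) (A + 2 * h + m * h) _ ?_ ?_ ?_ h1 h2
    · nlinarith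
    · nlinarith
    · nlinarith

/-- A property of open sets which can be glued along connected intersections and holds locally
holds for all squares. -/
theorem rect_induction (Q : Set ℂ → Prop) (hmono : ∀ U U', U ⊆ U' → Q U' → Q U)
    (hglue : ∀ U₁ U₂, IsOpen U₁ → IsOpen U₂ → (U₁ ∩ U₂).Nonempty → IsPreconnected (U₁ ∩ U₂) →
      Q U₁ → Q U₂ → Q (U₁ ∪ U₂))
    (hloc : ∀ z : ℂ, ∃ r > 0, Q (Metric.ball z r)) (R : ℝ) (hR : 0 < R) : Q (Rc (-R) R (-R) R) := by
  choose r hr hQ using hloc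
  set K : Set ℂ := Metric.closedBall 0 (2 * (R + 3)) with hK
  have hcomp : IsCompact K := isCompact_closedBall _ _
  obtain ⟨δ, hδ, hδ'⟩ := lebesgue_number_lemma_of_metric (ι := ℂ)
    (c := fun z => Metric.ball z (r z)) hcomp (fun z => Metric.isOpen_ball)
    (fun z _ => Set.mem_iUnion.2 ⟨z, Metric.mem_ball_self (hr z)⟩)
  have hball : ∀ x ∈ K, Q (Metric.ball x δ) := by
    intro x hx
    obtain ⟨i, hi⟩ := hδ' x hx
    exact hmono _ _ hi (hQ i)
  set h : ℝ := min 1 (δ / 2) with hh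
  have hh0 : 0 < h := lt_min one_pos (half_pos hδ)
  have hh1 : h ≤ 1 := min_le_left _ _
  have hh2 : 2 * h ≤ δ := by
    have := min_le_right 1 (δ / 2)
    linarith
  -- small squares
  have hsmall : ∀ a c : ℝ, -R ≤ a → a ≤ R + 1 → -R ≤ c → c ≤ R + 1 →
      Q (Rc a (a + 2 * h) c (c + 2 * h)) := by
    intro a c ha ha' hc hc'
    have hx : (⟨a + h, c + h⟩ : ℂ) ∈ K := by
      rw [hK, mem_closedBall_zero_iff]
      refine (Complex.norm_le_abs_re_add_abs_im _).trans ?_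
      have e1 : |a + h| ≤ R + 2 := abs_le.2 ⟨by linarith, by linarith⟩
      have e2 : |c + h| ≤ R + 2 := abs_le.2 ⟨by linarith, by linarith⟩
      show |a + h| + |c + h| ≤ 2 * (R + 3)
      linarith
    refine hmono _ _ ?_ (hball _ hx)
    intro w hw
    obtain ⟨h1, h2, h3, h4⟩ := hw
    rw [Metric.mem_ball, dist_eq_norm]
    refine (Complex.norm_le_abs_re_add_abs_im _).trans_lt ?_
    have e1 : |(w - (⟨a + h, c + h⟩ : ℂ)).re| < h := by
      rw [Complex.sub_re]
      exact abs_lt.2 ⟨by simp only; linarith, by simp only; linarith⟩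
    have e2 : |(w - (⟨a + h, c + h⟩ : ℂ)).im| < h := by
      rw [Complex.sub_im]
      exact abs_lt.2 ⟨by simp only; linarith, by simp only; linarith⟩
    linarith
  -- gluing rectangles horizontally
  have hgh : ∀ c d : ℝ, c < d → ∀ x x' y' y, x ≤ x' → x' < y' → y' ≤ y → Q (Rc x y' c d) →
      Q (Rc x' y c d) → Q (Rc x y c d) := by
    intro c d hcd x x' y' y h1 h2 h3 q1 q2
    have hint : Rc x y' c d ∩ Rc x' y c d = Rc x' y' c d := by
      ext w
      simp only [Rc, Set.mem_inter_iff, Set.mem_ofPred_eq]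
      constructor
      · rintro ⟨⟨a1, a2, a3, a4⟩, b1, b2, b3, b4⟩
        exact ⟨b1, a2, a3, a4⟩
      · rintro ⟨a1, a2, a3, a4⟩
        exact ⟨⟨by linarith, a2, a3, a4⟩, a1, by linarith, a3, a4⟩
    have hun : Rc x y c d ⊆ Rc x y' c d ∪ Rc x' y c d := by
      rintro w ⟨a1, a2, a3, a4⟩
      by_cases hw : w.re < y'
      · exact Or.inl ⟨a1, hw, a3, a4⟩
      · exact Or.inr ⟨by linarith, a2, a3, a4⟩
    refine hmono _ _ hun (hglue _ _ (isOpen_Rc _ _ _ _) (isOpen_Rc _ _ _ _) ?_ ?_ q1 q2)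
    · rw [hint]
      exact ⟨⟨(x' + y') / 2, (c + d) / 2⟩, by simp only; linarith, by simp only; linarith,
        by simp only; linarith, by simp only; linarith⟩
    · rw [hint]
      exact isPreconnected_Rc _ _ _ _
  have hgv : ∀ a b : ℝ, a < b → ∀ x x' y' y, x ≤ x' → x' < y' → y' ≤ y → Q (Rc a b x y') →
      Q (Rc a b x' y) → Q (Rc a b x y) := by
    intro a b hab x x' y' y h1 h2 h3 q1 q2
    have hint : Rc a b x y' ∩ Rc a b x' y = Rc a b x' y' := by
      ext w
      simp only [Rc, Set.mem_inter_iff, Set.mem_ofPred_eq]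
      constructor
      · rintro ⟨⟨a1, a2, a3, a4⟩, b1, b2, b3, b4⟩
        exact ⟨a1, a2, b3, a4⟩
      · rintro ⟨a1, a2, a3, a4⟩
        exact ⟨⟨a1, a2, by linarith, a4⟩, a1, a2, a3, by linarith⟩
    have hun : Rc a b x y ⊆ Rc a b x y' ∪ Rc a b x' y := by
      rintro w ⟨a1, a2, a3, a4⟩
      by_cases hw : w.im < y'
      · exact Or.inl ⟨a1, a2, a3, hw⟩
      · exact Or.inr ⟨a1, a2, by linarith, a4⟩
    refine hmono _ _ hun (hglue _ _ (isOpen_Rc _ _ _ _) (isOpen_Rc _ _ _ _) ?_ ?_ q1 q2)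
    · rw [hint]
      exact ⟨⟨(a + b) / 2, (x' + y') / 2⟩, by simp only; linarith, by simp only; linarith,
        by simp only; linarith, by simp only; linarith⟩
    · rw [hint]
      exact isPreconnected_Rc _ _ _ _
  -- the number of steps
  obtain ⟨m, hm1, hm2⟩ : ∃ m : ℕ, R ≤ -R + m * h ∧ -R + m * h ≤ R + 1 := by
    refine ⟨⌈2 * R / h⌉₊, ?_, ?_⟩
    · have h1 := Nat.le_ceil (2 * R / h)
      rw [div_le_iff₀ hh0] at h1
      linarith
    · have h1 := Nat.ceil_lt_add_one (a := 2 * R / h) (by positivity)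
      have h2 : (⌈2 * R / h⌉₊ : ℝ) * h < (2 * R / h + 1) * h := mul_lt_mul_of_pos_right h1 hh0
      have h3 : (2 * R / h + 1) * h = 2 * R + h := by field_simp
      linarith
  have hrow : ∀ c, -R ≤ c → c ≤ R + 1 → Q (Rc (-R) R c (c + 2 * h)) := by
    intro c hc hc'
    have h1 := interval_induction (fun x y => Q (Rc x y c (c + 2 * h))) (-R) (R + 1) h hh0
      (hgh c (c + 2 * h) (by linarith)) (fun x hx hx' => hsmall x c hx hx' hc hc') m hm2
    refine hmono _ _ ?_ h1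
    rintro w ⟨a1, a2, a3, a4⟩
    exact ⟨a1, by linarith, a3, a4⟩
  have h2 := interval_induction (fun x y => Q (Rc (-R) R x y)) (-R) (R + 1) h hh0
    (hgv (-R) R (by linarith)) (fun x hx hx' => hrow x hx hx') m hm2
  refine hmono _ _ ?_ h2
  rintro w ⟨a1, a2, a3, a4⟩
  exact ⟨a1, a2, a3, by linarith⟩

/-- A locally split multivalued function has a meromorphic branch on the complex plane. -/
theorem exists_branch {R : ℂ → Set ℂ} {n : ℕ} (hn : 0 < n)
    (hloc : ∀ z : ℂ, ∃ r > 0, Sp R n (Metric.ball z r)) :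
    ∃ f : ℂ → ℂ, MeromorphicNFOn f Set.univ ∧ AE Set.univ (fun w => f w ∈ R w) := by
  have hsq : ∀ N : ℕ, Sp R n (Rc (-(N + 1)) (N + 1) (-(N + 1)) (N + 1)) := fun N =>
    rect_induction (Sp R n) (fun _ _ h s => s.mono h) (fun _ _ => sp_glue) hloc (N + 1)
      (by positivity)
  set S : ℕ → Set ℂ := fun N => Rc (-(N + 1)) (N + 1) (-(N + 1)) (N + 1) with hS
  choose θ hθm hθR using hsq
  have hSmono : ∀ M N : ℕ, M ≤ N → S M ⊆ S N := by
    rintro M N hMN w ⟨a1, a2, a3, a4⟩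
    have h1 : (M : ℝ) ≤ N := by exact_mod_cast hMN
    exact ⟨by linarith, by linarith, by linarith, by linarith⟩
  have h0S : ∀ N : ℕ, (0 : ℂ) ∈ S N := by
    intro N
    have h1 : (0 : ℝ) ≤ N := Nat.cast_nonneg N
    refine ⟨?_, ?_, ?_, ?_⟩ <;> simp <;> linarith
  have hmatch : ∀ M N : ℕ, M ≤ N → ∀ i, ∃ j, Set.EqOn (θ N i) (θ M j) (S M) := by
    intro M N hMN i
    exact match_branch (R := R) ⟨0, h0S M⟩ (isPreconnected_Rc _ _ _ _)
      (fun i z hz => hθm N i (hSmono M N hMN hz)) (fun i z hz => hθm M i hz)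
      (fun z hz => (hθR N z (hSmono M N hMN hz)).mono fun _ h => h.1)
      (fun z hz => (hθR M z hz).mono fun _ h => h.1) i
  have hdist : ∀ N : ℕ, ∀ i j, Set.EqOn (θ N i) (θ N j) (S 0) → i = j := by
    intro N i j hij
    have h1 := hθR N 0 (h0S N)
    obtain ⟨w, hw, hwS⟩ := (h1.and (nhdsWithin_le_nhds
      ((isOpen_Rc _ _ _ _).mem_nhds (h0S 0)))).exists
    exact hw.2 (hij hwS)
  -- the branches over the big squares which agree with the first branch
  have hfirst : ∀ N : ℕ, ∃ i, Set.EqOn (θ N i) (θ 0 ⟨0, hn⟩) (S 0) := by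
    intro N
    -- the map from the branches over `S N` to those over `S 0` is injective
    choose τ hτ using hmatch 0 N (Nat.zero_le N)
    have hinj : Function.Injective τ := by
      intro i j hij
      apply hdist N
      intro w hw
      rw [hτ i hw, hτ j hw, hij]
    obtain ⟨i, hi⟩ := Finite.surjective_of_injective hinj ⟨0, hn⟩
    exact ⟨i, by rw [← hi]; exact hτ i⟩
  choose i hi using hfirst
  have hcomp : ∀ M N : ℕ, M ≤ N → Set.EqOn (θ N (i N)) (θ M (i M)) (S M) := by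
    intro M N hMN
    obtain ⟨j, hj⟩ := hmatch M N hMN (i N)
    have h1 : j = i M := by
      apply hdist M
      intro w hw
      rw [← hj (hSmono 0 M (Nat.zero_le M) hw), hi N hw, hi M hw]
    rw [← h1]
    exact hj
  set f : ℂ → ℂ := fun w => θ ⌈‖w‖⌉₊ (i ⌈‖w‖⌉₊) w with hf
  have hwS : ∀ w : ℂ, w ∈ S ⌈‖w‖⌉₊ := by
    intro w
    have h1 := Nat.le_ceil ‖w‖
    have h2 := abs_le.1 ((Complex.abs_re_le_norm w).trans h1)
    have h3 := abs_le.1 ((Complex.abs_im_le_norm w).trans h1)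
    exact ⟨by linarith [h2.1], by linarith [h2.2], by linarith [h3.1], by linarith [h3.2]⟩
  have hfS : ∀ N : ℕ, Set.EqOn f (θ N (i N)) (S N) := by
    intro N w hw
    rcases le_total ⌈‖w‖⌉₊ N with h1 | h1
    · exact (hcomp _ _ h1 (hwS w)).symm
    · exact hcomp _ _ h1 hw
  refine ⟨f, ?_, ?_⟩
  · intro z _
    have h1 : f =ᶠ[𝓝 z] θ ⌈‖z‖⌉₊ (i ⌈‖z‖⌉₊) := by
      filter_upwards [(isOpen_Rc _ _ _ _).mem_nhds (hwS z)] with w hw using hfS _ hw
    exact (meromorphicNFAt_congr h1).2 (hθm _ _ (hwS z))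
  · intro z _
    filter_upwards [hθR ⌈‖z‖⌉₊ z (hwS z),
      nhdsWithin_le_nhds ((isOpen_Rc _ _ _ _).mem_nhds (hwS z))] with w hw hwz
    rw [hfS _ hwz, ← hw.1]
    exact ⟨_, rfl⟩

end Pool.Agent.Work.MP_e97a4d_nt
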