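import Mathlib

/-!
# UE/HMa: the different of Galois extensions

`pow_dvd_different_smul`: Galois invariance of the different. Use `Ideal.dvd_iff_le` and
`differentialIdeal_le_iff` (for `I ≠ ⊥`: `differentIdeal A B ≤ I ↔` the trace maps `I⁻¹` into the integers:
look at its exact form in `Mathlib/RingTheory/DedekindDomain/Different.lean`), for `I = P ^ k` and
`I = (g • P) ^ k = g • P ^ k` (`smul_pow'`, pointwise action on ideals). An element `x` of `L` is in
`(g • J)⁻¹` (`FractionalIdeal.mem_inv_iff`: `x * y` integral for all `y ∈ g • J`) iff `g⁻¹ x` is in `J⁻¹`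
(`Ideal.mem_pointwise_smul_iff_inv_smul_mem`; `g` and `g⁻¹` preserve the integers), and
`Algebra.trace F L (g⁻¹ x) = Algebra.trace F L x` (`Algebra.trace_eq_of_algEquiv`).
-/

set_option autoImplicit false

noncomputable section

namespace Pool.Agent.Work.MP_e97a4d_nt

open NumberField IsDedekindDomain
open scoped Pointwise nonZeroDivisors

section

variable {F L : Type} [Field F] [NumberField F] [Field L] [NumberField L] [Algebra F L]

/-- A prime with trivial inertia group does not divide the different. -/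
theorem not_dvd_different_of_inertia [IsGalois F L] (P : Ideal (𝓞 L)) [P.IsPrime] (hP : P ≠ ⊥)
    (h : ∀ g : Gal(L/F), (∀ x : 𝓞 L, g • x - x ∈ P) → g = 1) :
    ¬ P ∣ differentIdeal (𝓞 F) (𝓞 L) := by
  rw [not_dvd_differentIdeal_iff, ← Ideal.ramificationIdx_eq_one_iff,
    ← Ideal.ramificationIdxIn_eq_ramificationIdx (P.under (𝓞 F)) P Gal(L/F),
    ← Ideal.card_inertia_eq_ramificationIdxIn (G := Gal(L/F)) (P.under (𝓞 F)) P]
  have h1 : P.inertia Gal(L/F) = ⊥ := by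
    rw [eq_bot_iff]
    intro g hg
    rw [Subgroup.mem_bot]
    exact h g hg
  rw [h1]
  exact Nat.card_unique

private theorem coe_gsmul (g : Gal(L/F)) (x : 𝓞 L) :
    algebraMap (𝓞 L) L (g • x) = g (algebraMap (𝓞 L) L x) := rfl

private theorem trace_mem_iff (J : Ideal (𝓞 L)) (hJ : J ≠ ⊥) :
    J ∣ differentIdeal (𝓞 F) (𝓞 L) ↔ ∀ x : L, (∀ y ∈ J, ∃ z : 𝓞 L, algebraMap (𝓞 L) L z =
      x * algebraMap (𝓞 L) L y) → ∃ t : 𝓞 F, algebraMap (𝓞 F) F t = Algebra.trace F L x := by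
  have hJ0 : (J : FractionalIdeal (𝓞 L)⁰ L) ≠ 0 := by
    rwa [FractionalIdeal.coeIdeal_ne_zero]
  have hmem : ∀ x : L, x ∈ ((J : FractionalIdeal (𝓞 L)⁰ L)⁻¹) ↔ ∀ y ∈ J, ∃ z : 𝓞 L, algebraMap (𝓞 L) L z =
      x * algebraMap (𝓞 L) L y := by
    intro x
    rw [FractionalIdeal.mem_inv_iff hJ0]
    constructor
    · intro h y hy
      exact (FractionalIdeal.mem_one_iff _).1 (h _ ((FractionalIdeal.mem_coeIdeal _).2 ⟨y, hy, rfl⟩))
    · intro h y hy
      obtain ⟨y', hy', rfl⟩ := (FractionalIdeal.mem_coeIdeal _).1 hy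
      exact (FractionalIdeal.mem_one_iff _).2 (h y' hy')
  rw [Ideal.dvd_iff_le, differentialIdeal_le_iff (K := F) (L := L) hJ]
  constructor
  · intro h x hx
    have h1 : Algebra.trace F L x ∈ (1 : Submodule (𝓞 F) F) := by
      apply h
      refine ⟨x, (hmem x).2 hx, rfl⟩
    exact Submodule.mem_one.1 h1
  · rintro h _ ⟨x, hx, rfl⟩
    obtain ⟨t, ht⟩ := h x ((hmem x).1 hx)
    exact Submodule.mem_one.2 ⟨t, ht⟩

/-- Galois invariance of the different. -/
theorem pow_dvd_different_smul (P : Ideal (𝓞 L)) (hP : P ≠ ⊥) (g : Gal(L/F)) (k : ℕ)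
    (h : P ^ k ∣ differentIdeal (𝓞 F) (𝓞 L)) : (g • P) ^ k ∣ differentIdeal (𝓞 F) (𝓞 L) := by
  have hJ : P ^ k ≠ ⊥ := pow_ne_zero k hP
  have hgP : g • P ≠ ⊥ := by
    intro h0
    apply hP
    have h1 : g⁻¹ • (g • P) = g⁻¹ • (⊥ : Ideal (𝓞 L)) := by rw [h0]
    rw [inv_smul_smul, Ideal.smul_bot] at h1
    exact h1
  have hgJ : (g • P) ^ k ≠ ⊥ := pow_ne_zero k hgP
  rw [trace_mem_iff _ hJ] at h
  rw [trace_mem_iff _ hgJ]
  intro x hx
  have h2 : ∀ y ∈ P ^ k, ∃ z : 𝓞 L, algebraMap (𝓞 L) L z = g⁻¹ x * algebraMap (𝓞 L) L y := by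
    intro y hy
    have hy' : g • y ∈ (g • P) ^ k := by
      rw [← smul_pow']
      exact Ideal.smul_mem_pointwise_smul g y _ hy
    obtain ⟨z, hz⟩ := hx _ hy'
    refine ⟨g⁻¹ • z, ?_⟩
    rw [coe_gsmul, hz, coe_gsmul, map_mul]
    congr 1
    exact congrArg (fun f : Gal(L/F) => f (algebraMap (𝓞 L) L y)) (inv_mul_cancel g)
  obtain ⟨t, ht⟩ := h _ h2
  refine ⟨t, ht.trans ?_⟩
  exact Algebra.trace_eq_of_algEquiv g⁻¹ x

end

end Pool.Agent.Work.MP_e97a4d_nt
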