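import Pool.Agent.Work.MP_e97a4d_nt.UE.HMa

/-!
# UE/HMb1: the trace argument

If `differentIdeal (𝓞 F) (𝓞 L) ≤ J.map (algebraMap (𝓞 F) (𝓞 L))` then `finrank F L ∈ J`. Proof: by
`differentialIdeal_le_iff` (`Mathlib/RingTheory/DedekindDomain/Different.lean`) the trace of every element
of the inverse of the fractional ideal generated by `J` in `L` is integral. For `x ∈ F` in the inverse of
`J` (i.e. `x * y` integral for all `y ∈ J`, `FractionalIdeal.mem_inv_iff`) the element `algebraMap F L x` is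
in this inverse (the ideal is spanned by the images of the `y`), and its trace is `finrank F L • x`
(`Algebra.trace_algebraMap`). So the integer `m = finrank F L` satisfies `m * x ∈ 𝓞 F` for all `x` in the
inverse of `J`: so `m` is in the inverse of the inverse, which is `J` (`inv_inv` for fractional ideals of
a Dedekind domain).
-/

set_option autoImplicit false

noncomputable section

namespace Pool.Agent.Work.MP_e97a4d_nt

open NumberField IsDedekindDomain
open scoped Pointwise nonZeroDivisors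

variable {F L : Type} [Field F] [NumberField F] [Field L] [NumberField L] [Algebra F L]

private theorem hb_mem (J : Ideal (𝓞 L)) (hJ : J ≠ ⊥) (x : L) :
    x ∈ ((J : FractionalIdeal (𝓞 L)⁰ L)⁻¹) ↔ ∀ y ∈ J, ∃ z : 𝓞 L, algebraMap (𝓞 L) L z =
      x * algebraMap (𝓞 L) L y := by
  have hJ0 : (J : FractionalIdeal (𝓞 L)⁰ L) ≠ 0 := by
    rwa [FractionalIdeal.coeIdeal_ne_zero]
  rw [FractionalIdeal.mem_inv_iff hJ0]
  constructor
  · intro h y hy
    exact (FractionalIdeal.mem_one_iff _).1 (h _ ((FractionalIdeal.mem_coeIdeal _).2 ⟨y, hy, rfl⟩))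
  · intro h y hy
    obtain ⟨y', hy', rfl⟩ := (FractionalIdeal.mem_coeIdeal _).1 hy
    exact (FractionalIdeal.mem_one_iff _).2 (h y' hy')

private theorem hb_trace (J : Ideal (𝓞 L)) (hJ : J ≠ ⊥)
    (h : differentIdeal (𝓞 F) (𝓞 L) ≤ J) (x : L) (hx : ∀ y ∈ J, ∃ z : 𝓞 L, algebraMap (𝓞 L) L z =
      x * algebraMap (𝓞 L) L y) : ∃ t : 𝓞 F, algebraMap (𝓞 F) F t = Algebra.trace F L x := by
  rw [differentialIdeal_le_iff (K := F) (L := L) hJ] at h
  have h1 : Algebra.trace F L x ∈ (1 : Submodule (𝓞 F) F) := by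
    apply h
    refine ⟨x, (hb_mem J hJ x).2 hx, rfl⟩
  exact Submodule.mem_one.1 h1

theorem finrank_mem_of_different_le (J : Ideal (𝓞 F)) (hJ : J ≠ ⊥)
    (h : differentIdeal (𝓞 F) (𝓞 L) ≤ J.map (algebraMap (𝓞 F) (𝓞 L))) :
    ((Module.finrank F L : ℕ) : 𝓞 F) ∈ J := by
  have hinj : Function.Injective (algebraMap (𝓞 F) (𝓞 L)) :=
    FaithfulSMul.algebraMap_injective (𝓞 F) (𝓞 L)
  have hJ' : J.map (algebraMap (𝓞 F) (𝓞 L)) ≠ ⊥ := by
    intro h0
    exact hJ ((Ideal.map_eq_bot_iff_of_injective hinj).1 h0)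
  have hJ0 : (J : FractionalIdeal (𝓞 F)⁰ F) ≠ 0 := by
    rwa [FractionalIdeal.coeIdeal_ne_zero]
  have hinv0 : ((J : FractionalIdeal (𝓞 F)⁰ F)⁻¹) ≠ 0 := inv_ne_zero hJ0
  have key : ((Module.finrank F L : ℕ) : F) ∈ (((J : FractionalIdeal (𝓞 F)⁰ F)⁻¹)⁻¹) := by
    rw [FractionalIdeal.mem_inv_iff hinv0]
    intro x hx
    rw [hb_mem J hJ x] at hx
    have h1 : ∀ y ∈ J.map (algebraMap (𝓞 F) (𝓞 L)), ∃ z : 𝓞 L, algebraMap (𝓞 L) L z =
        algebraMap F L x * algebraMap (𝓞 L) L y := by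
      intro y hy
      rw [Ideal.map] at hy
      induction hy using Submodule.span_induction with
      | mem y hy =>
        obtain ⟨a, ha, rfl⟩ := hy
        obtain ⟨z, hz⟩ := hx a ha
        refine ⟨algebraMap (𝓞 F) (𝓞 L) z, ?_⟩
        rw [← IsScalarTower.algebraMap_apply, ← IsScalarTower.algebraMap_apply,
          IsScalarTower.algebraMap_apply (𝓞 F) F L z, IsScalarTower.algebraMap_apply (𝓞 F) F L a,
          hz, map_mul]
      | zero => exact ⟨0, by simp⟩
      | add y y' _ _ hy hy' =>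
        obtain ⟨z, hz⟩ := hy
        obtain ⟨z', hz'⟩ := hy'
        exact ⟨z + z', by rw [map_add, map_add, hz, hz', mul_add]⟩
      | smul c y _ hy =>
        obtain ⟨z, hz⟩ := hy
        refine ⟨c * z, ?_⟩
        rw [smul_eq_mul, map_mul, map_mul, hz]
        ring
    obtain ⟨t, ht⟩ := hb_trace _ hJ' h _ h1
    rw [Algebra.trace_algebraMap, nsmul_eq_mul] at ht
    exact (FractionalIdeal.mem_one_iff _).2 ⟨t, ht⟩
  rw [inv_inv] at key
  obtain ⟨a, ha, hae⟩ := (FractionalIdeal.mem_coeIdeal _).1 key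
  have h2 : a = ((Module.finrank F L : ℕ) : 𝓞 F) := by
    apply FaithfulSMul.algebraMap_injective (𝓞 F) F
    rw [hae, map_natCast]
  rw [← h2]
  exact ha

end Pool.Agent.Work.MP_e97a4d_nt
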