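import Pool.Agent.Work.MP_e97a4d_nt.UE.HMb1

/-!
# UE/HMb2: the exponents of the different

Let `m = finrank F L` and suppose `P ^ (m * Q) ∣ 𝔇 = differentIdeal (𝓞 F) (𝓞 L)`. For every prime `P'` of
`𝓞 L` over `𝔭` there is `g` with `P' = g • P` (transitivity of the Galois group:
`Algebra.IsInvariant.exists_smul_of_under_eq` or `Ideal.exists_map_eq_of_isGalois`), so
`P' ^ (m * Q) ∣ 𝔇` by `pow_dvd_different_smul`. The exponent of `P'` in `(𝔭 ^ Q).map _` is `e * Q`, with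
`e` the ramification index, `e ≤ m` (`Ideal.sum_ramification_inertia_eq_finrank`; or: `e` divides `m` in the
Galois case), and primes not over `𝔭` do not divide it. Hence `(𝔭 ^ Q).map _ ∣ 𝔇` (compare the
multiplicities of all primes: e.g. `𝔭.map _` is the product of the `P' ^ e`, pairwise coprime, each
`P' ^ (e * Q)` divides `𝔇`: `Finset.prod_dvd_of_coprime`, `Ideal.map_pow`,
`Ideal.map_algebraMap_eq_finsetProd_pow`, or normalized factors and `Multiset.le_iff_count`, or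
`emultiplicity_le_emultiplicity_iff`), so `m ∈ 𝔭 ^ Q` by `finrank_mem_of_different_le`, contradiction.
-/

set_option autoImplicit false

noncomputable section

namespace Pool.Agent.Work.MP_e97a4d_nt

open NumberField IsDedekindDomain
open scoped Pointwise nonZeroDivisors

variable {F L : Type} [Field F] [NumberField F] [Field L] [NumberField L] [Algebra F L]

private theorem b2_ram [IsGalois F L] (P : Ideal (𝓞 L)) [P.IsPrime] :
    P.ramificationIdx (𝓞 F) ≤ Module.finrank F L := by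
  rw [← Ideal.ramificationIdxIn_eq_ramificationIdx (P.under (𝓞 F)) P Gal(L/F),
    ← Ideal.card_inertia_eq_ramificationIdxIn (G := Gal(L/F)) (P.under (𝓞 F)) P,
    ← IsGalois.card_aut_eq_finrank F L]
  exact Nat.card_le_card_of_injective _ (P.inertia Gal(L/F)).subtype_injective

theorem not_pow_dvd_different [IsGalois F L] (𝔭 : Ideal (𝓞 F)) [𝔭.IsPrime] (h𝔭 : 𝔭 ≠ ⊥) (Q : ℕ)
    (hQ : ((Module.finrank F L : ℕ) : 𝓞 F) ∉ 𝔭 ^ Q) (P : Ideal (𝓞 L)) [P.IsPrime]
    (hP : P.under (𝓞 F) = 𝔭) :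
    ¬ P ^ (Module.finrank F L * Q) ∣ differentIdeal (𝓞 F) (𝓞 L) := by
  intro hdvd
  apply hQ
  haveI : 𝔭.IsMaximal := Ideal.IsPrime.isMaximal inferInstance h𝔭
  have hP0 : P ≠ ⊥ := by
    intro h0
    apply h𝔭
    rw [← hP, h0]
    exact Ideal.under_bot _ _
  have hall : ∀ P' : Ideal (𝓞 L), P'.IsPrime → P'.under (𝓞 F) = 𝔭 →
      (P' ^ P'.ramificationIdx (𝓞 F)) ^ Q ∣ differentIdeal (𝓞 F) (𝓞 L) := by
    intro P' hP' hu
    obtain ⟨g, hg⟩ := Algebra.IsInvariant.exists_smul_of_under_eq (𝓞 F) (𝓞 L) Gal(L/F) P P'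
      (hP.trans hu.symm)
    have h1 : P' ^ (Module.finrank F L * Q) ∣ differentIdeal (𝓞 F) (𝓞 L) := by
      rw [hg]
      exact pow_dvd_different_smul P hP0 g _ hdvd
    rw [← pow_mul]
    exact (pow_dvd_pow P' (Nat.mul_le_mul_right Q (b2_ram P'))).trans h1
  apply finrank_mem_of_different_le (𝔭 ^ Q) (pow_ne_zero Q h𝔭)
  rw [← Ideal.dvd_iff_le, Ideal.map_pow, Ideal.map_algebraMap_eq_finsetProd_pow h𝔭,
    ← Finset.prod_pow]
  apply Finset.prod_dvd_of_coprime
  · intro P₁ h₁ P₂ h₂ hne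
    have hp1 : P₁ ∈ 𝔭.primesOver (𝓞 L) := by simpa using h₁
    have hp2 : P₂ ∈ 𝔭.primesOver (𝓞 L) := by simpa using h₂
    haveI := hp1.1
    haveI := hp2.1
    haveI := hp1.2
    haveI := hp2.2
    have hm1 : P₁.IsMaximal := Ideal.IsMaximal.of_liesOver_isMaximal P₁ 𝔭
    have hm2 : P₂.IsMaximal := Ideal.IsMaximal.of_liesOver_isMaximal P₂ 𝔭
    have hc : IsCoprime P₁ P₂ := Ideal.isCoprime_of_isMaximal hne
    exact (hc.pow (m := P₁.ramificationIdx (𝓞 F)) (n := P₂.ramificationIdx (𝓞 F))).pow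
  · intro P₁ h₁
    have hp1 : P₁ ∈ 𝔭.primesOver (𝓞 L) := by simpa using h₁
    exact hall P₁ hp1.1 hp1.2.over.symm

end Pool.Agent.Work.MP_e97a4d_nt
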