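import Pool.Agent.Work.MP_e97a4d_nt.UE.HMb2

/-!
# UE/HMc: the discriminants of Galois extensions of bounded degree unramified outside `S`

Proof. Let `n = D * finrank ℚ F` and choose `Q` with `D ^ (finrank ℚ F) < 2 ^ Q`. For `p ∈ S` and
`1 ≤ m ≤ D` we have `(m : 𝓞 F) ∉ p.asIdeal ^ Q`: otherwise (`Ideal.absNorm_dvd_absNorm_of_le`)
`absNorm p ^ Q` divides `absNorm (span {m}) = m ^ finrank ℚ F` (nonzero), and `2 ≤ absNorm p`.
Let `M := (∏ p ∈ S, absNorm p.asIdeal) ^ (D * Q)`, a positive integer.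

Claim: `differentIdeal (𝓞 F) (𝓞 L) ∣ span {(M : 𝓞 L)}`. For every nonzero prime `P` and `k` with
`P ^ k ∣ 𝔇`, `0 < k`: `P ∣ 𝔇`, so by `not_dvd_different_of_inertia` and the hypothesis `P.under (𝓞 F)` is
`p.asIdeal` for some `p ∈ S`, and `k < finrank F L * Q ≤ D * Q` by `not_pow_dvd_different` (if
`k ≥ finrank F L * Q` then `P ^ (finrank F L * Q) ∣ P ^ k ∣ 𝔇`). As `absNorm p.asIdeal ∈ p.asIdeal`
(`Ideal.absNorm_mem`), its image in `𝓞 L` is in `P`, so `P ∣ span {∏ p ∈ S, absNorm p.asIdeal}` and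
`P ^ k ∣ P ^ (D * Q) ∣ span {M}`. Now use that an ideal `I` divides `J` if all prime powers dividing `I`
divide `J` (`UniqueFactorizationMonoid`: e.g. via `normalizedFactors`, `Multiset.le_iff_count`,
`UniqueFactorizationMonoid.dvd_iff_normalizedFactors_le_normalizedFactors`, and
`UniqueFactorizationMonoid.count_normalizedFactors_eq`-type lemmas or `emultiplicity`).

So `absNorm 𝔇` divides `absNorm (span {M}) = M ^ finrank ℚ L` (nonzero) and `finrank ℚ L =
finrank ℚ F * finrank F L ≤ n`, so `absNorm 𝔇 ≤ M ^ n`. By the tower formula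
`NumberField.natAbs_discr_eq_absNorm_differentIdeal_mul_natAbs_discr_pow` (search the exact name and form:
`|discr L| = absNorm 𝔇 * |discr F| ^ finrank F L`) we get `|discr L| ≤ M ^ n * |discr F| ^ D`
(`1 ≤ |discr F|`).
-/

set_option autoImplicit false

noncomputable section

namespace Pool.Agent.Work.MP_e97a4d_nt

open NumberField IsDedekindDomain
open scoped Pointwise nonZeroDivisors

private theorem dvd_of_prime_pow {A : Type*} [CommRing A] [IsDedekindDomain A] (I J : Ideal A)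
    (hI : I ≠ ⊥) (hJ : J ≠ ⊥)
    (h : ∀ (P : Ideal A) (k : ℕ), P.IsPrime → P ≠ ⊥ → P ^ k ∣ I → P ^ k ∣ J) : I ∣ J := by
  classical
  rw [UniqueFactorizationMonoid.dvd_iff_normalizedFactors_le_normalizedFactors hI hJ,
    Multiset.le_iff_count]
  intro P
  by_cases hP : P ∈ UniqueFactorizationMonoid.normalizedFactors I
  · have hPp : Prime P := UniqueFactorizationMonoid.prime_of_normalized_factor P hP
    have e1 := UniqueFactorizationMonoid.emultiplicity_eq_count_normalizedFactors hPp.irreducible hI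
    have e2 := UniqueFactorizationMonoid.emultiplicity_eq_count_normalizedFactors hPp.irreducible hJ
    rw [normalize_eq] at e1 e2
    have h1 : P ^ (Multiset.count P (UniqueFactorizationMonoid.normalizedFactors I)) ∣ I :=
      pow_dvd_iff_le_emultiplicity.2 (le_of_eq e1.symm)
    have h2 := h P _ (Ideal.isPrime_of_prime hPp) hPp.ne_zero h1
    have h3 := pow_dvd_iff_le_emultiplicity.1 h2
    rw [e2] at h3
    exact_mod_cast h3
  · rw [Multiset.count_eq_zero_of_notMem hP]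
    exact Nat.zero_le _

theorem discr_bound (F : Type) [Field F] [NumberField F] (S : Finset (HeightOneSpectrum (𝓞 F)))
    (D : ℕ) :
    ∃ B : ℕ, ∀ (L : Type) [Field L] [NumberField L] [Algebra F L] [IsGalois F L],
      Module.finrank F L ≤ D →
      (∀ P : Ideal (𝓞 L), P.IsPrime → P ≠ ⊥ → (∀ p ∈ S, P.under (𝓞 F) ≠ p.asIdeal) →
        ∀ g : Gal(L/F), (∀ x : 𝓞 L, g • x - x ∈ P) → g = 1) →
      |NumberField.discr L| ≤ B := by
  classical
  obtain ⟨N, hN⟩ : ∃ N : ℕ, N = Module.finrank ℤ (𝓞 F) := ⟨_, rfl⟩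
  obtain ⟨Q, hQ⟩ : ∃ Q : ℕ, D ^ N < 2 ^ Q := ⟨D ^ N, Nat.lt_two_pow_self⟩
  obtain ⟨M₀, hM₀⟩ : ∃ M₀ : ℕ, M₀ = ∏ p ∈ S, Ideal.absNorm p.asIdeal := ⟨_, rfl⟩
  have hn2 : ∀ p : HeightOneSpectrum (𝓞 F), 1 < Ideal.absNorm p.asIdeal := fun p =>
    HeightOneSpectrum.one_lt_absNorm p
  have hM₀0 : 0 < M₀ := by
    rw [hM₀]
    exact Finset.prod_pos fun p _ => lt_trans one_pos (hn2 p)
  refine ⟨(M₀ ^ (D * Q)) ^ (D * N) * (NumberField.discr F).natAbs ^ D, ?_⟩
  intro L _ _ _ _ hD h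
  have hm0 : 0 < Module.finrank F L := Module.finrank_pos
  have hMpos : 0 < M₀ ^ (D * Q) := pow_pos hM₀0 _
  have hdiff : differentIdeal (𝓞 F) (𝓞 L) ≠ ⊥ := differentIdeal_ne_bot
  have hspan : Ideal.span {((M₀ ^ (D * Q) : ℕ) : 𝓞 L)} ≠ ⊥ := by
    rw [Ne, Ideal.span_singleton_eq_bot]
    exact_mod_cast hMpos.ne'
  have hdvd : differentIdeal (𝓞 F) (𝓞 L) ∣ Ideal.span {((M₀ ^ (D * Q) : ℕ) : 𝓞 L)} := by
    apply dvd_of_prime_pow _ _ hdiff hspan
    intro P k hP hP0 hk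
    rcases Nat.eq_zero_or_pos k with rfl | hk0
    · rw [pow_zero]
      exact one_dvd _
    have hPd : P ∣ differentIdeal (𝓞 F) (𝓞 L) := (dvd_pow_self P hk0.ne').trans hk
    obtain ⟨p, hpS, hpP⟩ : ∃ p ∈ S, P.under (𝓞 F) = p.asIdeal := by
      by_contra hcon
      push Not at hcon
      exact not_dvd_different_of_inertia P hP0 (h P hP hP0 hcon) hPd
    have hQp : ((Module.finrank F L : ℕ) : 𝓞 F) ∉ p.asIdeal ^ Q := by
      intro hmem
      have h1 : Ideal.absNorm (p.asIdeal ^ Q) ∣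
          Ideal.absNorm (Ideal.span {((Module.finrank F L : ℕ) : 𝓞 F)}) :=
        Ideal.absNorm_dvd_absNorm_of_le ((Ideal.span_singleton_le_iff_mem _).2 hmem)
      rw [map_pow, Ideal.absNorm_span_natCast, ← hN] at h1
      have h2 := Nat.le_of_dvd (pow_pos hm0 _) h1
      have h3 : 2 ^ Q ≤ Ideal.absNorm p.asIdeal ^ Q := Nat.pow_le_pow_left (hn2 p) Q
      have h4 : Module.finrank F L ^ N ≤ D ^ N := Nat.pow_le_pow_left hD N
      omega
    have hkQ : k < Module.finrank F L * Q := by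
      by_contra hcon
      push Not at hcon
      exact not_pow_dvd_different p.asIdeal p.ne_bot Q hQp P hpP ((pow_dvd_pow P hcon).trans hk)
    have hkDQ : k ≤ D * Q := hkQ.le.trans (Nat.mul_le_mul_right Q hD)
    have hmem : ((M₀ : ℕ) : 𝓞 L) ∈ P := by
      have h1 : ((Ideal.absNorm p.asIdeal : ℕ) : 𝓞 L) ∈ P := by
        have h2 : ((Ideal.absNorm p.asIdeal : ℕ) : 𝓞 F) ∈ P.under (𝓞 F) := by
          rw [hpP]
          exact Ideal.absNorm_mem p.asIdeal
        rw [Ideal.under, Ideal.mem_comap, map_natCast] at h2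
        exact h2
      rw [hM₀, ← Finset.mul_prod_erase S _ hpS, Nat.cast_mul]
      exact Ideal.mul_mem_right _ _ h1
    have h3 : P ∣ Ideal.span {((M₀ : ℕ) : 𝓞 L)} :=
      Ideal.dvd_iff_le.2 ((Ideal.span_singleton_le_iff_mem _).2 hmem)
    have h4 : Ideal.span {((M₀ : ℕ) : 𝓞 L)} ^ (D * Q) = Ideal.span {((M₀ ^ (D * Q) : ℕ) : 𝓞 L)} := by
      rw [Ideal.span_singleton_pow, Nat.cast_pow]
    rw [← h4]
    exact (pow_dvd_pow P hkDQ).trans (pow_dvd_pow_of_dvd h3 _)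
  have hnorm : Ideal.absNorm (differentIdeal (𝓞 F) (𝓞 L)) ≤ (M₀ ^ (D * Q)) ^ (D * N) := by
    have h1 : Ideal.absNorm (differentIdeal (𝓞 F) (𝓞 L)) ∣
        (M₀ ^ (D * Q)) ^ Module.finrank ℤ (𝓞 L) := by
      rw [← Ideal.absNorm_span_natCast]
      exact Ideal.absNorm_dvd_absNorm_of_le (Ideal.dvd_iff_le.1 hdvd)
    have h2 : Module.finrank ℤ (𝓞 L) ≤ D * N := by
      rw [hN, RingOfIntegers.rank, RingOfIntegers.rank, ← Module.finrank_mul_finrank ℚ F L, mul_comm]
      exact Nat.mul_le_mul_right _ hD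
    exact (Nat.le_of_dvd (pow_pos hMpos _) h1).trans (Nat.pow_le_pow_right hMpos h2)
  have htower := NumberField.natAbs_discr_eq_absNorm_differentIdeal_mul_natAbs_discr_pow F (𝓞 F) L (𝓞 L)
  have hfin : (NumberField.discr L).natAbs ≤
      (M₀ ^ (D * Q)) ^ (D * N) * (NumberField.discr F).natAbs ^ D := by
    rw [htower]
    exact Nat.mul_le_mul hnorm
      (Nat.pow_le_pow_right (Int.natAbs_pos.2 (NumberField.discr_ne_zero F)) hD)
  rw [Int.abs_eq_natAbs]
  exact_mod_cast hfin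

end Pool.Agent.Work.MP_e97a4d_nt
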