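import Pool.Agent.Work.MP_e97a4d_nt.UE.HMdefs
import Pool.Agent.Work.MP_e97a4d_nt.UE.HMc

/-!
# UE/HMd: finiteness (Hermite and Minkowski, relative form)

Proof. Let `B` be the bound of `discr_bound F S D`. For `E` in the set, `E` is a number field
(`NumberField.of_module_finite F E`, with `GoodGal.fin`), `E.restrictScalars ℚ` is an intermediate field of
`AlgebraicClosure F` over `ℚ`, finite dimensional over `ℚ`, with the same underlying field, so with
absolute discriminant at most `B`. By `NumberField.finite_of_discr_bdd (AlgebraicClosure F) _`
(`Mathlib/NumberTheory/NumberField/Discriminant/Basic.lean`, Hermite's theorem: it is a statement about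
the subtype of finite dimensional intermediate fields of `AlgebraicClosure F` over `ℚ`) there are only
finitely many possible `E.restrictScalars ℚ`, and `E ↦ E.restrictScalars ℚ` is injective
(`IntermediateField.restrictScalars_injective`). The algebra structure of `AlgebraicClosure F` over `ℚ` is
the canonical one (characteristic zero); `CharZero (AlgebraicClosure F)` follows from `F`.
-/

set_option autoImplicit false

noncomputable section

namespace Pool.Agent.Work.MP_e97a4d_nt

open NumberField IsDedekindDomain

theorem goodGal_finite (F : Type) [Field F] [NumberField F] (S : Finset (HeightOneSpectrum (𝓞 F)))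
    (D : ℕ) : {E : IntermediateField F (AlgebraicClosure F) | GoodGal F S D E}.Finite := by
  obtain ⟨B, hB⟩ := discr_bound F S D
  haveI : CharZero (AlgebraicClosure F) := charZero_of_injective_algebraMap
    (FaithfulSMul.algebraMap_injective F (AlgebraicClosure F))
  have hfin := NumberField.finite_of_discr_bdd (AlgebraicClosure F) B
  have hfin2 := Set.Finite.image Subtype.val hfin
  apply Set.Finite.of_finite_image (f := fun E : IntermediateField F (AlgebraicClosure F) =>
    E.restrictScalars ℚ) _ (IntermediateField.restrictScalars_injective ℚ).injOn
  refine hfin2.subset ?_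
  rintro _ ⟨E, hE, rfl⟩
  haveI := hE.fin
  haveI := hE.gal
  haveI hNE : NumberField E := NumberField.of_module_finite F E
  have hfd : FiniteDimensional ℚ (E.restrictScalars ℚ) := hNE.to_finiteDimensional
  refine ⟨⟨E.restrictScalars ℚ, hfd⟩, ?_, rfl⟩
  exact hB E hE.deg hE.inertia

end Pool.Agent.Work.MP_e97a4d_nt
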