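import Mathlib

/-!
# UE/HMdefs: Galois extensions of bounded degree unramified outside `S`
-/

set_option autoImplicit false

noncomputable section

namespace Pool.Agent.Work.MP_e97a4d_nt

open NumberField IsDedekindDomain

/-- The subextension `E` of the algebraic closure is finite and Galois over `F`, of degree at most `D`, and
for every nonzero prime `P` of `E` not over `S` the inertia group is trivial: an automorphism with
`g x - x` in `P` for all integers `x` is trivial. -/
structure GoodGal (F : Type) [Field F] [NumberField F] (S : Finset (HeightOneSpectrum (𝓞 F)))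
    (D : ℕ) (E : IntermediateField F (AlgebraicClosure F)) : Prop where
  fin : FiniteDimensional F E
  gal : IsGalois F E
  deg : Module.finrank F E ≤ D
  inertia : ∀ P : Ideal (𝓞 E), P.IsPrime → P ≠ ⊥ → (∀ p ∈ S, P.under (𝓞 F) ≠ p.asIdeal) →
    ∀ g : Gal(E/F), (∀ x : 𝓞 E, g • x - x ∈ P) → g = 1

/-- `ξ` generates, for every prime `p` outside `S`, the same extension of `F` as a root of a monic
polynomial of degree at most `n` with `p`-integral coefficients and discriminant a `p`-unit. -/
def UnramRoot (F : Type) [Field F] [NumberField F] (S : Finset (HeightOneSpectrum (𝓞 F))) (n : ℕ)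
    (ξ : AlgebraicClosure F) : Prop :=
  ∀ p : HeightOneSpectrum (𝓞 F), p ∉ S → ∃ (h : Polynomial F) (ξ' : AlgebraicClosure F),
    h.Monic ∧ 0 < h.natDegree ∧ h.natDegree ≤ n ∧ (∀ l, p.valuation F (h.coeff l) ≤ 1) ∧
      p.valuation F h.discr = 1 ∧ Polynomial.aeval ξ' h = 0 ∧
      ξ' ∈ IntermediateField.adjoin F {ξ} ∧ ξ ∈ IntermediateField.adjoin F {ξ'}

end Pool.Agent.Work.MP_e97a4d_nt
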