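import Mathlib

/-!
# UE/HMe1: inertia groups and the valuation

`x = a / s` with `a, s : 𝓞 E`, `s ∉ P` (an element with valuation at most one is of this form: see
`sp_prime_val` in `Pool/Agent/Work/MP_e97a4d_nt/Hyp/SPrime.lean`, or
`HeightOneSpectrum`/`IsLocalization.AtPrime` lemmas: write `x = b / c` with integers `b, c ≠ 0` and multiply
with an element which is `1` modulo ... , or use that the valuation ring is the localization at `P`).
`g x - x = (g a - a) / g s + a * (s - g s) / (s * g s)`, and `g s - s ∈ P` so `g s ∉ P`: the valuations of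
`s` and `g s` are `1` (`HeightOneSpectrum.valuation_of_algebraMap`, `valuation_lt_one_iff_mem`,
`valuation_le_one`), those of `g a - a` and `s - g s` are less than `1`.
Here `((g • x : 𝓞 E) : E) = g x`.
-/

set_option autoImplicit false

noncomputable section

namespace Pool.Agent.Work.MP_e97a4d_nt

open NumberField IsDedekindDomain

theorem inertia_val {F E : Type} [Field F] [NumberField F] [Field E] [NumberField E] [Algebra F E]
    (P : HeightOneSpectrum (𝓞 E)) (g : Gal(E/F)) (hg : ∀ x : 𝓞 E, g • x - x ∈ P.asIdeal) (x : E)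
    (hx : P.valuation E x ≤ 1) : P.valuation E (g x - x) < 1 := by
  obtain ⟨n, ⟨d, hd⟩, hnd⟩ := P.exists_primeCompl_mul_eq_of_integer x hx
  have hcoe : ∀ y : 𝓞 E, g (algebraMap (𝓞 E) E y) = algebraMap (𝓞 E) E (g • y) := fun y => rfl
  have hmem : ∀ y : 𝓞 E, y ∈ P.asIdeal → P.valuation E (algebraMap (𝓞 E) E y) < 1 := by
    intro y hy
    rwa [HeightOneSpectrum.valuation_lt_one_iff_mem]
  have hle : ∀ y : 𝓞 E, P.valuation E (algebraMap (𝓞 E) E y) ≤ 1 :=
    fun y => P.valuation_le_one y
  have hnot : ∀ y : 𝓞 E, y ∉ P.asIdeal → P.valuation E (algebraMap (𝓞 E) E y) = 1 := by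
    intro y hy
    refine le_antisymm (hle y) (not_lt.1 fun h => hy ?_)
    rwa [HeightOneSpectrum.valuation_lt_one_iff_mem] at h
  have hd1 := hnot d hd
  have hgd1 : P.valuation E (algebraMap (𝓞 E) E (g • d)) = 1 := by
    apply hnot
    intro h
    apply hd
    have h2 := Ideal.sub_mem _ h (hg d)
    rwa [sub_sub_cancel] at h2
  have hgx : g x * algebraMap (𝓞 E) E (g • d) = algebraMap (𝓞 E) E (g • n) := by
    rw [← hcoe, ← hcoe, ← hnd, map_mul]
  have hkey : (g x - x) * (algebraMap (𝓞 E) E d * algebraMap (𝓞 E) E (g • d)) =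
      algebraMap (𝓞 E) E (g • n - n) * algebraMap (𝓞 E) E d -
        algebraMap (𝓞 E) E n * algebraMap (𝓞 E) E (g • d - d) := by
    rw [map_sub, map_sub]
    have hnd' : x * algebraMap (𝓞 E) E d = algebraMap (𝓞 E) E n := hnd
    linear_combination algebraMap (𝓞 E) E d * hgx - algebraMap (𝓞 E) E (g • d) * hnd'
  have h3 : P.valuation E (g x - x) = P.valuation E
      ((g x - x) * (algebraMap (𝓞 E) E d * algebraMap (𝓞 E) E (g • d))) := by
    rw [map_mul, map_mul, hd1, hgd1, mul_one, mul_one]
  rw [h3, hkey]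
  refine (P.valuation E).map_sub_lt ?_ ?_
  · rw [map_mul, hd1, mul_one]
    exact hmem _ (hg n)
  · rw [map_mul]
    exact lt_of_le_of_lt (mul_le_of_le_one_left' (hle n)) (hmem _ (hg d))

end Pool.Agent.Work.MP_e97a4d_nt
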