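import Mathlib

/-!
# UE/Ift: simple roots of polynomials with holomorphic coefficients
-/

set_option autoImplicit false

noncomputable section

namespace Pool.Agent.Work.MP_e97a4d_nt

open scoped Topology ContDiff

theorem local_root (n : ℕ) (a : ℕ → ℂ → ℂ) (z t₀ : ℂ) (ha : ∀ k, AnalyticAt ℂ (a k) z)
    (h0 : ∑ k ∈ Finset.range (n + 1), a k z * t₀ ^ k = 0)
    (h1 : ∑ k ∈ Finset.range (n + 1), a k z * (k * t₀ ^ (k - 1)) ≠ 0) :
    ∃ ρ : ℂ → ℂ, AnalyticAt ℂ ρ z ∧ ρ z = t₀ ∧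
      ∀ᶠ w in 𝓝 z, ∑ k ∈ Finset.range (n + 1), a k w * ρ w ^ k = 0 := by
  set f : ℂ × ℂ → ℂ := fun x => ∑ k ∈ Finset.range (n + 1), a k x.1 * x.2 ^ k with hf
  have hfan : AnalyticAt ℂ f (z, t₀) := by
    apply Finset.analyticAt_fun_sum
    intro k _
    have e1 : AnalyticAt ℂ (fun x : ℂ × ℂ => a k x.1) (z, t₀) :=
      AnalyticAt.comp' (g := a k) (f := Prod.fst) (ha k) analyticAt_fst
    exact e1.mul (analyticAt_snd.pow k)
  have hcd : ContDiffAt ℂ ω f (z, t₀) := hfan.contDiffAt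
  have hω : (ω : ℕ∞ω) ≠ 0 := by simp
  set c : ℂ := ∑ k ∈ Finset.range (n + 1), a k z * (k * t₀ ^ (k - 1)) with hc
  have hder : HasDerivAt (fun t : ℂ => f (z, t)) c t₀ := by
    have e1 : ∀ k ∈ Finset.range (n + 1), HasDerivAt (fun t : ℂ => a k z * t ^ k)
        (a k z * (k * t₀ ^ (k - 1))) t₀ := fun k _ => (hasDerivAt_pow k t₀).const_mul (a k z)
    exact HasDerivAt.fun_sum e1
  have hinv : (fderiv ℂ f (z, t₀) ∘L .inr ℂ ℂ ℂ).IsInvertible := by
    have e1 : HasFDerivAt f (fderiv ℂ f (z, t₀)) (z, t₀) :=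
      hfan.differentiableAt.hasFDerivAt
    have e2 : HasFDerivAt (fun t : ℂ => (z, t)) (ContinuousLinearMap.inr ℂ ℂ ℂ) t₀ :=
      hasFDerivAt_prodMk_right z t₀
    have e3 : HasFDerivAt (fun t : ℂ => f (z, t)) (fderiv ℂ f (z, t₀) ∘L .inr ℂ ℂ ℂ) t₀ :=
      e1.comp t₀ e2
    have e4 := e3.unique hder.hasFDerivAt
    rw [e4]
    refine ⟨ContinuousLinearEquiv.unitsEquivAut ℂ (Units.mk0 c h1), ?_⟩
    ext
    simp [ContinuousLinearEquiv.unitsEquivAut_apply]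
  refine ⟨hcd.implicitFunction hω hinv, ?_, hcd.implicitFunction_apply_self hω hinv, ?_⟩
  · exact (hcd.contDiffAt_implicitFunction hω hinv).analyticAt
  · filter_upwards [hcd.eventually_apply_implicitFunction hω hinv] with w hw
    have e5 : f (z, t₀) = 0 := h0
    rw [e5] at hw
    exact hw

end Pool.Agent.Work.MP_e97a4d_nt
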