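import Pool.Agent.Work.MP_e97a4d_nt.UE.SMdefs
import Pool.Agent.Work.MP_e97a4d_nt.UE.Disc
import Pool.Agent.Work.MP_e97a4d_nt.UE.Ift

/-!
# UE/SMa: local branches of the roots of a monic polynomial with unit discriminant

Proof. Let `n = natDegree p`. As the coefficients are in the subring `Mz z`, there is a monic `q` over
`Mz z` of degree `n` with `q.map (Mz z).subtype = p` (`Polynomial.toSubring`, `Polynomial.monic_toSubring`,
`Polynomial.natDegree_toSubring`, or `Polynomial.lifts`). By `disc_map` `(q.discr : Mero) = p.discr`, so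
`q.discr` is a unit of `Mz z` and `evz z q.discr ≠ 0`. Let `Q := q.map (evz z)`, monic of degree `n` over
`ℂ`, with `Q.discr = evz z q.discr ≠ 0` (`disc_map`), so `Q` is separable (`separable_of_disc`) and has `n`
distinct roots: an injective `t : Fin n → ℂ` with `Q.eval (t i) = 0`
(`Polynomial.card_rootSet_eq_natDegree`-type lemma, `IsAlgClosed.splits`, `Finset.equivFin`). The
coefficients of `Q` are `pcNf (p.coeff k) z` (`pcNf_evz`), and `pcNf (p.coeff k)` is analytic at `z`
(`pcNf_analytic`). By `simple_root_of_disc` the derivative of `Q` does not vanish at `t i`. Apply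
`local_root` (UE/Ift) with `a k := pcNf (p.coeff k)` and `t₀ = t i`
(`Polynomial.eval_eq_sum_range`, `Polynomial.derivative_eval` / `Polynomial.eval` of the derivative as a sum).
-/

set_option autoImplicit false

noncomputable section

namespace Pool.Agent.Work.MP_e97a4d_nt.UE

open Filter Hyp
open scoped Topology

theorem local_split (p : Polynomial Mero) (hp : p.Monic) (h0 : 0 < p.natDegree) (z : ℂ)
    (h1 : ∀ l, p.coeff l ∈ Mz z) (h2 : p.discr ≠ 0) (h3 : p.discr⁻¹ ∈ Mz z) :
    ∃ ρ : Fin p.natDegree → ℂ → ℂ, (∀ i, AnalyticAt ℂ (ρ i) z) ∧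
      Function.Injective (fun i => ρ i z) ∧
      ∀ i, ∀ᶠ w in 𝓝 z, ∑ k ∈ Finset.range (p.natDegree + 1),
        pcNf (p.coeff k) w * ρ i w ^ k = 0 := by
  obtain ⟨q, hq, hqd, hqm⟩ : ∃ q : Polynomial (Mz z),
      q.map (algebraMap (Mz z) Mero) = p ∧ q.natDegree = p.natDegree ∧ q.Monic := by
    have hl : p ∈ Polynomial.lifts (algebraMap (Mz z) Mero) := by
      rw [Polynomial.lifts_iff_coeff_lifts]
      intro l
      exact ⟨⟨p.coeff l, h1 l⟩, rfl⟩
    exact Polynomial.lifts_and_natDegree_eq_and_monic hl hp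
  have hq0 : 0 < q.natDegree := by rw [hqd]; exact h0
  have hdq : p.discr = ((q.discr : Mz z) : Mero) := by
    have h4 := disc_map (algebraMap (Mz z) Mero) hqm hq0
    rw [hq] at h4
    exact h4
  have hev : evz z q.discr ≠ 0 := by
    intro h4
    have h5 : q.discr * (⟨p.discr⁻¹, h3⟩ : Mz z) = 1 := by
      apply Subtype.ext
      show ((q.discr : Mz z) : Mero) * p.discr⁻¹ = 1
      rw [← hdq]
      exact mul_inv_cancel₀ h2
    have h6 := congrArg (evz z) h5
    rw [map_mul, h4, zero_mul, map_one] at h6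
    exact zero_ne_one h6
  set Q := q.map (evz z) with hQ
  have hQm : Q.Monic := hqm.map _
  have hQd : Q.natDegree = p.natDegree := by rw [hQ, hqm.natDegree_map, hqd]
  have hQ0 : 0 < Q.natDegree := by rw [hQd]; exact h0
  have hQdisc : Q.discr ≠ 0 := by
    rw [hQ, disc_map (evz z) hqm hq0]
    exact hev
  have hsep : Q.Separable := separable_of_disc hQm hQ0 hQdisc
  have hcard : Q.roots.toFinset.card = p.natDegree := by
    rw [Multiset.toFinset_card_of_nodup (Polynomial.nodup_roots hsep), ← hQd]
    exact ((IsAlgClosed.splits Q).natDegree_eq_card_roots).symm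
  have hco : ∀ k, Q.coeff k = pcNf (p.coeff k) z := by
    intro k
    have h4 : q.coeff k = ⟨p.coeff k, h1 k⟩ := by
      apply Subtype.ext
      have h5 := congrArg (fun P => P.coeff k) hq
      simp only [Polynomial.coeff_map] at h5
      exact h5
    rw [hQ, Polynomial.coeff_map, h4]
    exact pcNf_evz (h1 k)
  let e := (Finset.equivFinOfCardEq hcard).symm
  have hroot : ∀ i, Q.eval (e i : ℂ) = 0 := by
    intro i
    have h4 := (e i).2
    rw [Multiset.mem_toFinset, Polynomial.mem_roots hQm.ne_zero] at h4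
    exact h4
  have hloc : ∀ i, ∃ ρ : ℂ → ℂ, AnalyticAt ℂ ρ z ∧ ρ z = (e i : ℂ) ∧
      ∀ᶠ w in 𝓝 z, ∑ k ∈ Finset.range (p.natDegree + 1), pcNf (p.coeff k) w * ρ w ^ k = 0 := by
    intro i
    apply local_root p.natDegree (fun k => pcNf (p.coeff k)) z (e i : ℂ)
    · intro k
      exact pcNf_analytic (h1 k)
    · have h4 := hroot i
      rw [Polynomial.eval_eq_sum_range, hQd] at h4
      simp only [hco] at h4
      exact h4
    · have h4 := simple_root_of_disc hQm hQ0 hQdisc (hroot i)
      rw [Polynomial.derivative_eval, Polynomial.sum_over_range, hQd] at h4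
      · simp only [hco] at h4
        simpa only [mul_assoc] using h4
      · intro n
        simp
  choose ρ hρ1 hρ2 hρ3 using hloc
  refine ⟨ρ, hρ1, ?_, hρ3⟩
  intro i j hij
  simp only [hρ2] at hij
  exact e.injective (Subtype.ext hij)

end Pool.Agent.Work.MP_e97a4d_nt.UE
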