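import Pool.Agent.Work.MP_e97a4d_nt.UE.SMdefs
import Pool.Agent.Work.MP_e97a4d_nt.UE.Lift

/-!
# UE/SMb1: identities between the minimal polynomials of two generators

Let `p₀ = minpoly κ η₀`, `p₁ = minpoly κ η₁`. `exists_poly` (for `η₁` and for `η₀`) gives `Q, R` in `κ[X]`
with `aeval η₁ Q = η₀` and `aeval η₀ R = η₁`. So `p₁` divides `p₀.comp Q` and `R.comp Q - X` (they vanish at
`η₁`: `Polynomial.aeval_comp`; `minpoly.dvd`): `p₀.comp Q = p₁ * H₁`, `R.comp Q - X = p₁ * H₂`. Lift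
`p₁.map Θ, Q.map Θ, R.map Θ, H₁.map Θ, H₂.map Θ` to polynomials `P₁, Q', R', H₁', H₂'` over `meroAlg`
(`mkH_surjective`, `Polynomial.map_surjective`), `P₁` monic of degree `finrank κ L`
(`Polynomial.lifts_and_natDegree_eq_and_monic`). Then `P₀.comp Q' - P₁ * H₁'` and
`R'.comp Q' - X - P₁ * H₂'` are mapped to zero by `mkH` (`Polynomial.map_comp`); apply `mero_poly_zero`.
-/

set_option autoImplicit false

noncomputable section

namespace Pool.Agent.Work.MP_e97a4d_nt.UE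

open Filter Hyp
open scoped Topology

theorem transport_identities {κ L : Type} [Field κ] [Field L] [Algebra κ L]
    [FiniteDimensional κ L] (Θ : κ →+* Mero) (η₀ η₁ : L)
    (hη₀ : (minpoly κ η₀).natDegree = Module.finrank κ L)
    (hη₁ : (minpoly κ η₁).natDegree = Module.finrank κ L)
    (P₀ : Polynomial meroAlg) (hmap : P₀.map mkH = (minpoly κ η₀).map Θ) :
    ∃ P₁ Q R H₁ H₂ : Polynomial meroAlg, P₁.Monic ∧ P₁.natDegree = Module.finrank κ L ∧
      P₁.map mkH = (minpoly κ η₁).map Θ ∧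
      ∀ z : ℂ, ∀ᶠ w in 𝓝[≠] z,
        (P₀.map (evw w)).comp (Q.map (evw w)) = P₁.map (evw w) * H₁.map (evw w) ∧
        (R.map (evw w)).comp (Q.map (evw w)) - Polynomial.X =
          P₁.map (evw w) * H₂.map (evw w) := by
  obtain ⟨Q, hQ⟩ := exists_poly η₁ hη₁ η₀
  obtain ⟨R, hR⟩ := exists_poly η₀ hη₀ η₁
  obtain ⟨H₁, hH₁⟩ : minpoly κ η₁ ∣ (minpoly κ η₀).comp Q := by
    apply minpoly.dvd
    rw [Polynomial.aeval_comp, hQ, minpoly.aeval]
  obtain ⟨H₂, hH₂⟩ : minpoly κ η₁ ∣ R.comp Q - Polynomial.X := by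
    apply minpoly.dvd
    rw [map_sub, Polynomial.aeval_comp, hQ, hR, Polynomial.aeval_X, sub_self]
  have hm₁ : (minpoly κ η₁).Monic := minpoly.monic (Algebra.IsIntegral.isIntegral η₁)
  have hsur : ∀ p : Polynomial Mero, ∃ q : Polynomial meroAlg, q.map mkH = p := fun p =>
    Polynomial.map_surjective mkH mkH_surjective p
  obtain ⟨P₁, hP₁, hd₁, hmon₁⟩ := Polynomial.lifts_and_natDegree_eq_and_monic (f := mkH)
    (p := (minpoly κ η₁).map Θ) ((Polynomial.mem_lifts _).2 (hsur _)) (hm₁.map Θ)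
  obtain ⟨Q', hQ'⟩ := hsur (Q.map Θ)
  obtain ⟨R', hR'⟩ := hsur (R.map Θ)
  obtain ⟨H₁', hH₁'⟩ := hsur (H₁.map Θ)
  obtain ⟨H₂', hH₂'⟩ := hsur (H₂.map Θ)
  refine ⟨P₁, Q', R', H₁', H₂', hmon₁, ?_, hP₁, fun z => ?_⟩
  · rw [hd₁, hm₁.natDegree_map, hη₁]
  · have e1 : (P₀.comp Q' - P₁ * H₁').map mkH = 0 := by
      rw [Polynomial.map_sub, Polynomial.map_comp, Polynomial.map_mul, hmap, hQ', hP₁, hH₁',
        ← Polynomial.map_comp, ← Polynomial.map_mul, ← Polynomial.map_sub, hH₁, sub_self,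
        Polynomial.map_zero]
    have e2 : (R'.comp Q' - Polynomial.X - P₁ * H₂').map mkH = 0 := by
      rw [Polynomial.map_sub, Polynomial.map_sub, Polynomial.map_comp, Polynomial.map_mul,
        Polynomial.map_X, hR', hQ', hP₁, hH₂', ← Polynomial.map_comp, ← Polynomial.map_mul, ← hH₂,
        Polynomial.map_sub, Polynomial.map_X, sub_self]
    filter_upwards [mero_poly_zero _ e1 z, mero_poly_zero _ e2 z] with w h1 h2
    rw [Polynomial.map_sub, Polynomial.map_comp, Polynomial.map_mul] at h1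
    rw [Polynomial.map_sub, Polynomial.map_sub, Polynomial.map_comp, Polynomial.map_mul,
      Polynomial.map_X] at h2
    exact ⟨sub_eq_zero.1 h1, sub_eq_zero.1 h2⟩

end Pool.Agent.Work.MP_e97a4d_nt.UE
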