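import Pool.Agent.Work.MP_e97a4d_nt.UE.SMa
import Pool.Agent.Work.MP_e97a4d_nt.UE.SMb1
import Pool.Agent.Work.MP_e97a4d_nt.UE.Glue

/-!
# UE/SMb: transport of the local branches to another generator

Proof. Let `n = finrank κ L = natDegree P₀` (`P₀` is monic and `P₀.map mkH` is the minimal polynomial).
Take `P₁, Q, R, H₁, H₂` from `transport_identities`.

`local_split` for `p := (minpoly κ η₁).map Θ` (monic of degree `n`; `p.discr = Θ (minpoly κ η₁).discr` by
`disc_map`) gives `ρ i`, analytic at `z`, distinct at `z` (so distinct near `z`, by continuity), roots of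
`∑ k, pcNf (Θ ((minpoly κ η₁).coeff k)) w * T ^ k` near `z`; since
`pcNf (Θ (...).coeff k) w = evw w (P₁.coeff k)` near `z` outside `z` (`pcNf_eventually`, `rep_mk`,
`eq_nhdsNE`, both functions represent the same element of `Mero`), `ρ i w` is a root of `P₁.map (evw w)` for
`w` near `z`, `w ≠ z` (`Polynomial.eval_eq_sum_range`).

Put `θ' i w := (Q.map (evw w)).eval (ρ i w)`, which is `∑ k ∈ range (natDegree Q + 1),
evw w (Q.coeff k) * ρ i w ^ k` (`Polynomial.eval_map`, `Polynomial.eval₂_eq_sum_range`): meromorphic at all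
points of a small ball around `z` on which all `ρ i` are analytic (`AnalyticAt.eventually_analyticAt`;
choose the radius so that all the finitely many eventual statements hold in the punctured ball; to get
a statement `AE (ball z r) _` at the points `z' ≠ z` of the ball note that a property holding on the
punctured ball holds near `z'`). Let `θ i := toMeromorphicNFOn (θ' i) (ball z r)`: `MeromorphicNFOn`
(`meromorphicNFOn_toMeromorphicNFOn`) and equal to `θ' i` near every point of the ball outside this point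
(`MeromorphicOn.toMeromorphicNFOn_eq_self_on_nhdsNE`, see Hyp/PtToCurve).
Near every point of the ball, outside this point: `θ' i w` is a root of `P₀.map (evw w)` (first identity
evaluated at `ρ i w`, `Polynomial.eval_comp`), and `(R.map _).eval (θ' i w) = ρ i w` (second identity), so
the `θ' i w` are distinct. The monic polynomial `P₀.map (evw w)` of degree `n` has at most `n` roots
(`Polynomial.card_roots'`), so its set of roots is exactly the set of the `θ' i w`.
(The hypothesis that `P₀` is monic: then `P₀.map (evw w)` is monic of degree `natDegree P₀ = n`.)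
-/

set_option autoImplicit false

noncomputable section

namespace Pool.Agent.Work.MP_e97a4d_nt.UE

open Filter Hyp
open scoped Topology

private theorem pcNf_evw (u : Mero) (f : meroAlg) (h : u = mkH f) (z : ℂ) :
    ∀ᶠ w in 𝓝[≠] z, pcNf u w = evw w f := by
  subst h
  have h1 := pcNf_eventually (mkH f) z
  have h2 : rep (mkH f) =ᶠ[𝓝[≠] z] (f : ℂ → ℂ) := eq_nhdsNE (rep_mk f.2) z
  filter_upwards [h1, h2] with w hw1 hw2
  rw [← hw1, hw2]
  rfl

/-- a monic polynomial of degree `n` with `n` given distinct roots -/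
private theorem roots_eq {n : ℕ} {P : Polynomial ℂ} (hP : P.Monic) (hd : P.natDegree = n) (t : Fin n → ℂ)
    (ht : Function.Injective t) (hr : ∀ i, P.eval (t i) = 0) :
    Set.range t = {x : ℂ | P.eval x = 0} := by
  classical
  have hP0 : P ≠ 0 := hP.ne_zero
  have hsub : Finset.univ.image t ⊆ P.roots.toFinset := by
    intro x hx
    obtain ⟨i, -, rfl⟩ := Finset.mem_image.1 hx
    rw [Multiset.mem_toFinset, Polynomial.mem_roots hP0]
    exact hr i
  have hcard : P.roots.toFinset.card ≤ (Finset.univ.image t).card := by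
    rw [Finset.card_image_of_injective _ ht, Finset.card_univ, Fintype.card_fin, ← hd]
    exact (Multiset.toFinset_card_le _).trans (Polynomial.card_roots' P)
  have heq := Finset.eq_of_subset_of_card_le hsub hcard
  ext x
  constructor
  · rintro ⟨i, rfl⟩
    exact hr i
  · intro hx
    have h1 : x ∈ P.roots.toFinset := by
      rw [Multiset.mem_toFinset, Polynomial.mem_roots hP0]
      exact hx
    rw [← heq] at h1
    obtain ⟨i, -, h2⟩ := Finset.mem_image.1 h1
    exact ⟨i, h2⟩

theorem sp_transport {κ L : Type} [Field κ] [Field L] [Algebra κ L] [FiniteDimensional κ L]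
    (Θ : κ →+* Mero) (η₀ η₁ : L)
    (hη₀ : (minpoly κ η₀).natDegree = Module.finrank κ L)
    (hη₁ : (minpoly κ η₁).natDegree = Module.finrank κ L)
    (P₀ : Polynomial meroAlg) (hP₀ : P₀.Monic) (hmap : P₀.map mkH = (minpoly κ η₀).map Θ) (z : ℂ)
    (h1 : ∀ l, Θ ((minpoly κ η₁).coeff l) ∈ Mz z) (h2 : Θ (minpoly κ η₁).discr ≠ 0)
    (h3 : (Θ (minpoly κ η₁).discr)⁻¹ ∈ Mz z) :
    ∃ r > 0, Sp (fun w => {t : ℂ | (P₀.map (evw w)).eval t = 0}) (Module.finrank κ L)
      (Metric.ball z r) := by
  classical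
  obtain ⟨P₁, Q, R, H₁, H₂, hP₁m, hP₁d, hP₁map, hid⟩ := transport_identities Θ η₀ η₁ hη₀ hη₁ P₀ hmap
  have hn0 : 0 < Module.finrank κ L := Module.finrank_pos
  have hm1 : (minpoly κ η₁).Monic := minpoly.monic (IsIntegral.of_finite κ η₁)
  have hm0 : (minpoly κ η₀).Monic := minpoly.monic (IsIntegral.of_finite κ η₀)
  have hpm : ((minpoly κ η₁).map Θ).Monic := hm1.map Θ
  have hpd : ((minpoly κ η₁).map Θ).natDegree = Module.finrank κ L := by rw [hm1.natDegree_map, hη₁]
  have hdisc : ((minpoly κ η₁).map Θ).discr = Θ (minpoly κ η₁).discr :=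
    disc_map Θ hm1 (by rw [hη₁]; exact hn0)
  have hP₀d : P₀.natDegree = Module.finrank κ L := by
    rw [← hP₀.natDegree_map mkH, hmap, hm0.natDegree_map, hη₀]
  obtain ⟨ρ, hρa, hρi, hρr⟩ : ∃ ρ : Fin (Module.finrank κ L) → ℂ → ℂ, (∀ i, AnalyticAt ℂ (ρ i) z) ∧
      Function.Injective (fun i => ρ i z) ∧
      ∀ i, ∀ᶠ w in 𝓝 z, ∑ k ∈ Finset.range (Module.finrank κ L + 1),
        pcNf (((minpoly κ η₁).map Θ).coeff k) w * ρ i w ^ k = 0 := by
    have h4 := local_split ((minpoly κ η₁).map Θ) hpm (by rw [hpd]; exact hn0) z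
      (fun l => by rw [Polynomial.coeff_map]; exact h1 l) (by rw [hdisc]; exact h2)
      (by rw [hdisc]; exact h3)
    rw [hpd] at h4
    exact h4
  -- the roots of `P₁`
  have hroot1 : ∀ᶠ w in 𝓝[≠] z, ∀ i, (P₁.map (evw w)).eval (ρ i w) = 0 := by
    have hc : ∀ᶠ w in 𝓝[≠] z, ∀ k ∈ Finset.range (Module.finrank κ L + 1),
        pcNf (((minpoly κ η₁).map Θ).coeff k) w = evw w (P₁.coeff k) := by
      rw [Filter.eventually_all_finset]
      intro k _
      refine pcNf_evw _ (P₁.coeff k) ?_ z
      rw [← hP₁map, Polynomial.coeff_map]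
    have hr : ∀ᶠ w in 𝓝[≠] z, ∀ i, ∑ k ∈ Finset.range (Module.finrank κ L + 1),
        pcNf (((minpoly κ η₁).map Θ).coeff k) w * ρ i w ^ k = 0 :=
      nhdsWithin_le_nhds (eventually_all.2 hρr)
    filter_upwards [hc, hr] with w hw1 hw2 i
    have hdeg : (P₁.map (evw w)).natDegree < Module.finrank κ L + 1 := by
      rw [hP₁m.natDegree_map, hP₁d]
      exact Nat.lt_succ_self _
    rw [Polynomial.eval_eq_sum_range' hdeg, ← hw2 i]
    refine Finset.sum_congr rfl fun k hk => ?_
    rw [Polynomial.coeff_map, hw1 k hk]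
  have hinj : ∀ᶠ w in 𝓝[≠] z, Function.Injective (fun i => ρ i w) := by
    refine nhdsWithin_le_nhds ?_
    have h4 : ∀ i j, i ≠ j → ∀ᶠ w in 𝓝 z, ρ i w ≠ ρ j w := by
      intro i j hij
      have h5 : ρ i z ≠ ρ j z := fun h => hij (hρi h)
      have h6 : ContinuousAt (fun w => ρ i w - ρ j w) z := (hρa i).continuousAt.sub (hρa j).continuousAt
      exact (h6.eventually_ne (sub_ne_zero.2 h5)).mono fun w hw h => hw (sub_eq_zero.2 h)
    have h5 : ∀ᶠ w in 𝓝 z, ∀ i j, i ≠ j → ρ i w ≠ ρ j w := by
      refine eventually_all.2 fun i => eventually_all.2 fun j => ?_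
      by_cases hij : i = j
      · exact Eventually.of_forall fun w h => absurd hij h
      · exact (h4 i j hij).mono fun w h _ => h
    filter_upwards [h5] with w hw i j hij
    by_contra hne
    exact hw i j hne hij
  have hE := (hroot1.and hinj).and (hid z)
  rw [eventually_nhdsWithin_iff] at hE
  have hAn : ∀ᶠ w in 𝓝 z, ∀ i, AnalyticAt ℂ (ρ i) w :=
    eventually_all.2 fun i => (hρa i).eventually_analyticAt
  obtain ⟨r, hr, hball⟩ := Metric.eventually_nhds_iff_ball.1 (hE.and hAn)
  refine ⟨r, hr, ?_⟩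
  -- the branches
  set θ' : Fin (Module.finrank κ L) → ℂ → ℂ := fun i w => (Q.map (evw w)).eval (ρ i w) with hθ'
  have hθ'm : ∀ i, MeromorphicOn (θ' i) (Metric.ball z r) := by
    intro i w hw
    have h4 : θ' i = fun w => ∑ k ∈ Finset.range (Q.natDegree + 1), (Q.coeff k : ℂ → ℂ) w * ρ i w ^ k := by
      funext w
      rw [hθ']
      change (Q.map (evw w)).eval (ρ i w) = _
      rw [Polynomial.eval_map, Polynomial.eval₂_eq_sum_range]
      rfl
    rw [h4]
    refine MeromorphicAt.fun_sum fun k _ => ?_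
    exact MeromorphicAt.mul ((Q.coeff k).2 w) (((hball w hw).2 i).meromorphicAt.pow k)
  have hgood : ∀ w ∈ Metric.ball z r, w ≠ z →
      Set.range (fun i => θ' i w) = {t : ℂ | (P₀.map (evw w)).eval t = 0} ∧
        Function.Injective (fun i => θ' i w) := by
    intro w hw hwz
    obtain ⟨⟨hA, hB⟩, hC, hD⟩ := (hball w hw).1 hwz
    have hinj' : Function.Injective (fun i => θ' i w) := by
      have h4 : ∀ i, (R.map (evw w)).eval (θ' i w) = ρ i w := by
        intro i
        have h5 := congrArg (fun T : Polynomial ℂ => T.eval (ρ i w)) hD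
        simp only [Polynomial.eval_sub, Polynomial.eval_comp, Polynomial.eval_X, Polynomial.eval_mul, hA i,
          zero_mul] at h5
        exact sub_eq_zero.1 h5
      intro i j hij
      apply hB
      change ρ i w = ρ j w
      rw [← h4 i, ← h4 j]
      exact congrArg (fun t => (R.map (evw w)).eval t) hij
    refine ⟨?_, hinj'⟩
    refine roots_eq (hP₀.map _) (by rw [hP₀.natDegree_map, hP₀d]) _ hinj' fun i => ?_
    have h5 := congrArg (fun T : Polynomial ℂ => T.eval (ρ i w)) hC
    simp only [Polynomial.eval_comp, Polynomial.eval_mul, hA i, zero_mul] at h5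
    exact h5
  refine ⟨fun i => toMeromorphicNFOn (θ' i) (Metric.ball z r),
    fun i => meromorphicNFOn_toMeromorphicNFOn (θ' i) (Metric.ball z r), ?_⟩
  intro z' hz'
  have h6 : ∀ᶠ w in 𝓝[≠] z', ∀ i, θ' i w = toMeromorphicNFOn (θ' i) (Metric.ball z r) w :=
    eventually_all.2 fun i => ((hθ'm i).toMeromorphicNFOn_eq_self_on_nhdsNE hz').mono fun w h => h.symm
  have h7 : ∀ᶠ w in 𝓝[≠] z', w ∈ Metric.ball z r :=
    nhdsWithin_le_nhds (Metric.isOpen_ball.mem_nhds hz')
  have h8 : ∀ᶠ w in 𝓝[≠] z', w ≠ z := by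
    by_cases h : z' = z
    · subst h
      exact self_mem_nhdsWithin
    · exact nhdsWithin_le_nhds (isOpen_ne.mem_nhds h)
  filter_upwards [h6, h7, h8] with w hw6 hw7 hw8
  have h9 : (fun i => toMeromorphicNFOn (θ' i) (Metric.ball z r) w) = fun i => θ' i w :=
    funext fun i => (hw6 i).symm
  rw [h9]
  exact hgood w hw7 hw8

end Pool.Agent.Work.MP_e97a4d_nt.UE
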