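import Pool.Agent.Work.MP_e97a4d_nt.Hyp.Mero
import Pool.Agent.Work.MP_e97a4d_nt.Hyp.PtToCurve

/-!
# UE/SMdefs: meromorphic functions and their values
-/

set_option autoImplicit false

noncomputable section

namespace Pool.Agent.Work.MP_e97a4d_nt.UE

open Filter Hyp
open scoped Topology

/-- the class of a meromorphic function -/
def mkH : meroAlg →+* Mero := Ideal.Quotient.mk zeroIdeal

theorem mkH_surjective : Function.Surjective mkH := Ideal.Quotient.mk_surjective

theorem mkH_apply (f : meroAlg) : mkH f = mk (f : ℂ → ℂ) f.2 := rfl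

/-- the value at `w` -/
def evw (w : ℂ) : meroAlg →+* ℂ :=
  (Pi.evalRingHom (fun _ : ℂ => ℂ) w).comp meroAlg.val.toRingHom

theorem evw_apply (w : ℂ) (f : meroAlg) : evw w f = (f : ℂ → ℂ) w := rfl

theorem mkH_zero_iff (f : meroAlg) : mkH f = 0 ↔ ∀ z : ℂ, ∀ᶠ w in 𝓝[≠] z, evw w f = 0 := by
  rw [mkH_apply, mk_eq_zero_iff, Filter.EventuallyEq, eventually_codiscrete]
  rfl

/-- A polynomial over the meromorphic functions with class zero has value zero outside a discrete set. -/
theorem mero_poly_zero (P : Polynomial meroAlg) (h : P.map mkH = 0) (z : ℂ) :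
    ∀ᶠ w in 𝓝[≠] z, P.map (evw w) = 0 := by
  have h1 : ∀ᶠ w in 𝓝[≠] z, ∀ k ∈ P.support, evw w (P.coeff k) = 0 := by
    rw [Filter.eventually_all_finset]
    intro k _
    have h2 := congrArg (fun Q => Q.coeff k) h
    simp only [Polynomial.coeff_map, Polynomial.coeff_zero] at h2
    exact (mkH_zero_iff _).1 h2 z
  filter_upwards [h1] with w hw
  ext k
  rw [Polynomial.coeff_map, Polynomial.coeff_zero]
  by_cases hk : k ∈ P.support
  · exact hw k hk
  · rw [Polynomial.notMem_support_iff.1 hk, map_zero]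

end Pool.Agent.Work.MP_e97a4d_nt.UE
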